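import Mathlib

set_option autoImplicit false

namespace Pool.Agent.H18Z.Balls

open Finset

variable {n c : ℕ}

/-- Some interval cuts at least `m` points out of `V`, all of one colour. -/
def IntHit (m : ℕ) (V : Finset (Fin n)) (χ : Fin n → Fin c) : Prop :=
  ∃ a b : ℕ, m ≤ (V.filter (fun x : Fin n => a ≤ (x : ℕ) ∧ (x : ℕ) < b)).card ∧
    ∃ k, ∀ x ∈ V, a ≤ (x : ℕ) → (x : ℕ) < b → χ x = k

/-- Some axis-parallel ellipse cuts, with a margin, at least `m` points out of the point set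
`(x, y x)`, `x ∈ V`, all of one colour. -/
def Hit (m : ℕ) (V : Finset (Fin n)) (y : Fin n → ℝ) (χ : Fin n → Fin c) : Prop :=
  ∃ x0 l y0 R : ℝ, 1 / 4 ≤ l ∧ 0 ≤ y0 ∧ y0 ≤ 1 ∧ R ≤ ((n : ℝ) + 1) ^ 2 ∧
    ∃ e : Finset (Fin n), e ⊆ V ∧ m ≤ e.card ∧ (∃ k, ∀ x ∈ e, χ x = k) ∧
      (∀ x ∈ e, (((x : ℕ) : ℝ) - x0) ^ 2 + l * (y x - y0) ^ 2 ≤ R - 1 / 4) ∧
      (∀ x ∈ V, x ∉ e → R < (((x : ℕ) : ℝ) - x0) ^ 2 + l * (y x - y0) ^ 2)

theorem hit_of_intHit {m : ℕ} (hm : 1 ≤ m) {V : Finset (Fin n)} {y : Fin n → ℝ}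
    (hy : ∀ x, 0 ≤ y x ∧ y x ≤ 1) {χ : Fin n → Fin c} (h : IntHit m V χ) : Hit m V y χ := by
  obtain ⟨a, b, hcard, k, hk⟩ := h
  set e := V.filter (fun x : Fin n => a ≤ (x : ℕ) ∧ (x : ℕ) < b) with he
  obtain ⟨w, hw⟩ : e.Nonempty := card_pos.mp (by omega)
  have hw' := (mem_filter.mp hw).2
  have hwn := w.2
  set b' := min b n with hb'
  have hab : a + 1 ≤ b' := by omega
  have hbn : b' ≤ n := by omega
  have habR : (a : ℝ) + 1 ≤ b' := by exact_mod_cast hab
  have hbnR : (b' : ℝ) ≤ n := by exact_mod_cast hbn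
  have ha0 : (0 : ℝ) ≤ a := by positivity
  refine ⟨((a : ℝ) + b' - 1) / 2, 1 / 4, 0, (((b' : ℝ) - 1 - a) / 2) ^ 2 + 1 / 2, le_rfl, le_rfl,
    by norm_num, by nlinarith, e, filter_subset _ _, hcard, ⟨k, fun x hx => ?_⟩, fun x hx => ?_,
    fun x hx hxe => ?_⟩
  · have := mem_filter.mp hx
    exact hk x this.1 this.2.1 this.2.2
  · have h1 := (mem_filter.mp hx).2
    have hxn := x.2
    have h2 : (x : ℕ) + 1 ≤ b' := by omega
    have h2R : ((x : ℕ) : ℝ) + 1 ≤ b' := by exact_mod_cast h2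
    have h3R : (a : ℝ) ≤ ((x : ℕ) : ℝ) := by exact_mod_cast h1.1
    have h4 := hy x
    nlinarith
  · have h1 : ¬ (a ≤ (x : ℕ) ∧ (x : ℕ) < b) := fun hh => hxe (mem_filter.mpr ⟨hx, hh⟩)
    have h5 : 0 ≤ 1 / 4 * (y x - 0) ^ 2 := by positivity
    by_cases hxa : a ≤ (x : ℕ)
    · have h2 : b' ≤ (x : ℕ) := by omega
      have h2R : (b' : ℝ) ≤ ((x : ℕ) : ℝ) := by exact_mod_cast h2
      nlinarith
    · have h2 : (x : ℕ) + 1 ≤ a := by omega
      have h2R : ((x : ℕ) : ℝ) + 1 ≤ a := by exact_mod_cast h2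
      nlinarith

/-- The scale at which the two halves are squeezed. -/
noncomputable def eps (n : ℕ) : ℝ := 1 / (8 * ((n : ℝ) + 1))

theorem eps_pos : 0 < eps n := by unfold eps; positivity

theorem eps_le : eps n ≤ 1 / 8 := by
  unfold eps
  have : (0 : ℝ) ≤ n := by positivity
  rw [div_le_div_iff₀ (by positivity) (by norm_num)]
  linarith

theorem eps_mul : eps n * ((n : ℝ) + 1) = 1 / 8 := by
  unfold eps
  field_simp

/-- Heights for the union of two point sets. -/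
noncomputable def glue (V0 : Finset (Fin n)) (y0 y1 : Fin n → ℝ) (x : Fin n) : ℝ :=
  if x ∈ V0 then eps n * y0 x else 1 - eps n * y1 x

theorem glue_mem (V0 : Finset (Fin n)) {y0 y1 : Fin n → ℝ} (h0 : ∀ x, 0 ≤ y0 x ∧ y0 x ≤ 1)
    (h1 : ∀ x, 0 ≤ y1 x ∧ y1 x ≤ 1) (x : Fin n) :
    0 ≤ glue V0 y0 y1 x ∧ glue V0 y0 y1 x ≤ 1 := by
  have e1 := @eps_pos n
  have e2 := @eps_le n
  have a0 := h0 x
  have a1 := h1 x
  unfold glue
  split_ifs
  · constructor <;> nlinarith
  · constructor <;> nlinarith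

theorem far {l R d : ℝ} (hl : 1 / 4 ≤ l) (hR : R ≤ ((n : ℝ) + 1) ^ 2) (hd : 1 / 4 ≤ d ^ 2)
    (u : ℝ) : R < u ^ 2 + l / eps n ^ 2 * d ^ 2 := by
  have e1 := @eps_pos n
  have e3 := @eps_mul n
  have hn : (0 : ℝ) < (n : ℝ) + 1 := by positivity
  have e4 : l / eps n ^ 2 = 64 * l * ((n : ℝ) + 1) ^ 2 := by
    rw [div_eq_iff (by positivity)]
    have : (eps n * ((n : ℝ) + 1)) ^ 2 = 1 / 64 := by rw [e3]; norm_num
    nlinarith
  rw [e4]
  have h5 : 0 < ((n : ℝ) + 1) ^ 2 := by positivity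
  have h6 : 1 / 16 ≤ l * d ^ 2 := by nlinarith
  nlinarith [sq_nonneg u]

theorem le_div_eps {l : ℝ} (hl : 1 / 4 ≤ l) : 1 / 4 ≤ l / eps n ^ 2 := by
  have e1 := @eps_pos n
  have e2 := @eps_le n
  rw [le_div_iff₀ (by positivity)]
  nlinarith

theorem hit_glue_left {m : ℕ} {V V0 : Finset (Fin n)} (hV : V0 ⊆ V) {y0 y1 : Fin n → ℝ}
    (h1 : ∀ x, 0 ≤ y1 x ∧ y1 x ≤ 1) {χ : Fin n → Fin c} (h : Hit m V0 y0 χ) :
    Hit m V (glue V0 y0 y1) χ := by
  obtain ⟨x0, l, t, R, hl, ht0, ht1, hR, e, heV, hcard, hk, hin, hout⟩ := h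
  have e1 := @eps_pos n
  have e2 := @eps_le n
  have key : ∀ x ∈ V0, l / eps n ^ 2 * (glue V0 y0 y1 x - eps n * t) ^ 2 = l * (y0 x - t) ^ 2 := by
    intro x hx
    unfold glue
    rw [if_pos hx]
    field_simp
  refine ⟨x0, l / eps n ^ 2, eps n * t, R, le_div_eps hl, by positivity, by nlinarith, hR, e,
    heV.trans hV, hcard, hk, fun x hx => ?_, fun x hx hxe => ?_⟩
  · rw [key x (heV hx)]; exact hin x hx
  · by_cases hx0 : x ∈ V0
    · rw [key x hx0]; exact hout x hx0 hxe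
    · refine far hl hR ?_ _
      unfold glue
      rw [if_neg hx0]
      have a1 := h1 x
      have : 1 / 2 ≤ 1 - eps n * y1 x - eps n * t := by nlinarith
      nlinarith

theorem hit_glue_right {m : ℕ} {V V0 : Finset (Fin n)} {y0 y1 : Fin n → ℝ}
    (h0 : ∀ x, 0 ≤ y0 x ∧ y0 x ≤ 1) {χ : Fin n → Fin c} (h : Hit m (V \ V0) y1 χ) :
    Hit m V (glue V0 y0 y1) χ := by
  obtain ⟨x0, l, t, R, hl, ht0, ht1, hR, e, heV, hcard, hk, hin, hout⟩ := h
  have e1 := @eps_pos n
  have e2 := @eps_le n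
  have key : ∀ x ∈ V \ V0,
      l / eps n ^ 2 * (glue V0 y0 y1 x - (1 - eps n * t)) ^ 2 = l * (y1 x - t) ^ 2 := by
    intro x hx
    unfold glue
    rw [if_neg (mem_sdiff.mp hx).2]
    field_simp
    ring
  refine ⟨x0, l / eps n ^ 2, 1 - eps n * t, R, le_div_eps hl, by nlinarith, by nlinarith, hR, e,
    heV.trans sdiff_subset, hcard, hk, fun x hx => ?_, fun x hx hxe => ?_⟩
  · rw [key x (heV hx)]; exact hin x hx
  · by_cases hx0 : x ∈ V0
    · refine far hl hR ?_ _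
      unfold glue
      rw [if_pos hx0]
      have a1 := h0 x
      have : 1 / 2 ≤ 1 - eps n * t - eps n * y0 x := by nlinarith
      nlinarith
    · have hx1 : x ∈ V \ V0 := mem_sdiff.mpr ⟨hx, hx0⟩
      rw [key x hx1]; exact hout x hx1 hxe

theorem threshold (V : Finset (Fin n)) (B : ℕ) (hB : B ≤ V.card) :
    ∃ t : ℕ, (V.filter (fun x : Fin n => (x : ℕ) < t)).card = B := by
  have key : ∀ t : ℕ, B ≤ (V.filter (fun x : Fin n => (x : ℕ) < t)).card →
      ∃ t' : ℕ, (V.filter (fun x : Fin n => (x : ℕ) < t')).card = B := by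
    intro t
    induction t with
    | zero =>
      intro h
      refine ⟨0, ?_⟩
      simp at h ⊢
      omega
    | succ t ih =>
      intro h
      by_cases h2 : B ≤ (V.filter (fun x : Fin n => (x : ℕ) < t)).card
      · exact ih h2
      · refine ⟨t + 1, ?_⟩
        have h3 : V.filter (fun x : Fin n => (x : ℕ) < t + 1) ⊆
            V.filter (fun x : Fin n => (x : ℕ) < t) ∪ V.filter (fun x : Fin n => (x : ℕ) = t) := by
          intro x hx
          simp only [mem_filter, mem_union] at hx ⊢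
          have := hx.2
          by_cases h4 : (x : ℕ) < t
          · exact Or.inl ⟨hx.1, h4⟩
          · exact Or.inr ⟨hx.1, by omega⟩
        have h4 : (V.filter (fun x : Fin n => (x : ℕ) = t)).card ≤ 1 := by
          rw [card_le_one]
          intro x hx z hz
          simp only [mem_filter] at hx hz
          exact Fin.ext (hx.2.trans hz.2.symm)
        have h5 := (card_le_card h3).trans (card_union_le _ _)
        omega
  refine key n ?_
  rw [filter_true_of_mem fun x _ => x.2]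
  exact hB

open Classical in
theorem split (m : ℕ) (N : ℕ) : ∀ (V : Finset (Fin n)), (c * m + 1) * N ≤ V.card →
    ∀ Bad : Finset (Fin n → Fin c), ∃ V0 ⊆ V,
      ((Bad.filter (fun χ => ¬ IntHit m V0 χ)).card : ℝ) ≤
        Real.exp (-(1 / 2 ^ (c * m + 1) * (N : ℝ))) * Bad.card := by
  induction N with
  | zero =>
    intro V _ Bad
    refine ⟨V, Subset.refl _, ?_⟩
    simp only [Nat.cast_zero, mul_zero, neg_zero, Real.exp_zero, one_mul, Nat.cast_le]
    exact card_filter_le _ _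
  | succ N ih =>
    intro V hV Bad
    set B := c * m + 1 with hB
    obtain ⟨t, ht⟩ := threshold V B (by nlinarith)
    set β := V.filter (fun x : Fin n => (x : ℕ) < t) with hβ
    have hS : ∀ χ : Fin n → Fin c, ∃ S ⊆ β, m ≤ S.card ∧ ∃ k, ∀ x ∈ S, χ x = k := by
      intro χ
      obtain ⟨k, _, hk⟩ := exists_lt_card_fiber_of_mul_lt_card_of_maps_to
        (s := β) (t := (univ : Finset (Fin c))) (f := χ) (n := m) (fun _ _ => mem_univ _)
        (by rw [card_univ, Fintype.card_fin, ht]; omega)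
      exact ⟨β.filter (fun x => χ x = k), filter_subset _ _, hk.le, k,
        fun x hx => (mem_filter.mp hx).2⟩
    choose S hS1 hS2 hS3 using hS
    obtain ⟨S0, hS0, hfib⟩ := exists_le_card_fiber_of_nsmul_le_card_of_maps_to
      (s := Bad) (t := β.powerset) (f := S) (b := ((1 / 2 ^ B * Bad.card : ℝ)))
      (fun χ _ => mem_powerset.mpr (hS1 χ)) ⟨∅, empty_mem_powerset _⟩
      (by
        rw [card_powerset, ht, nsmul_eq_mul]
        push_cast
        field_simp
        exact le_rfl)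
    set Bad1 := Bad.filter (fun χ => ¬ S χ = S0) with hBad1
    have hc1 : (Bad1.card : ℝ) ≤ Real.exp (-(1 / 2 ^ B)) * Bad.card := by
      have h1 := card_filter_add_card_filter_not (s := Bad) (fun χ => S χ = S0)
      have h1R : ((Bad.filter (fun χ => S χ = S0)).card : ℝ) + Bad1.card = Bad.card := by
        exact_mod_cast h1
      have h2 := Real.add_one_le_exp (-(1 / 2 ^ B : ℝ))
      have h3 : (0 : ℝ) ≤ Bad.card := by positivity
      nlinarith
    set V' := V.filter (fun x : Fin n => ¬ (x : ℕ) < t) with hV'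
    have hV'c : B * N ≤ V'.card := by
      have h1 := card_filter_add_card_filter_not (s := V) (fun x : Fin n => (x : ℕ) < t)
      rw [← hβ, ← hV', ht] at h1
      nlinarith
    obtain ⟨W, hW, hWc⟩ := ih V' hV'c Bad1
    have hS0β : S0 ⊆ β := mem_powerset.mp hS0
    refine ⟨S0 ∪ W, union_subset (hS0β.trans (filter_subset _ _))
      (hW.trans (filter_subset _ _)), ?_⟩
    have hsub : Bad.filter (fun χ => ¬ IntHit m (S0 ∪ W) χ) ⊆
        Bad1.filter (fun χ => ¬ IntHit m W χ) := by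
      intro χ hχ
      obtain ⟨hχ1, hχ2⟩ := mem_filter.mp hχ
      refine mem_filter.mpr ⟨mem_filter.mpr ⟨hχ1, fun hs => hχ2 ?_⟩, fun hh => hχ2 ?_⟩
      · obtain ⟨k, hk⟩ := hS3 χ
        refine ⟨0, t, (hS2 χ).trans (card_le_card fun x hx => ?_), k, fun x hx _ hxt => ?_⟩
        · rw [hs] at hx
          exact mem_filter.mpr ⟨mem_union_left _ hx, Nat.zero_le _,
            (mem_filter.mp (hS0β hx)).2⟩
        · rcases mem_union.mp hx with h | h
          · exact hk x (hs ▸ h)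
          · exact absurd hxt (mem_filter.mp (hW h)).2
      · obtain ⟨a, b, hcard, k, hk⟩ := hh
        refine ⟨max a t, b, hcard.trans (card_le_card fun x hx => ?_), k,
          fun x hx hxa hxb => ?_⟩
        · obtain ⟨h1, h2, h3⟩ := mem_filter.mp hx
          have h4 := (mem_filter.mp (hW h1)).2
          exact mem_filter.mpr ⟨mem_union_right _ h1, by omega, h3⟩
        · rcases mem_union.mp hx with h | h
          · have := (mem_filter.mp (hS0β h)).2
            omega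
          · exact hk x h (by omega) hxb
    have hle : ((Bad.filter (fun χ => ¬ IntHit m (S0 ∪ W) χ)).card : ℝ) ≤
        (Bad1.filter (fun χ => ¬ IntHit m W χ)).card := by exact_mod_cast card_le_card hsub
    refine hle.trans (hWc.trans ?_)
    have : Real.exp (-(1 / 2 ^ B * ((N + 1 : ℕ) : ℝ))) =
        Real.exp (-(1 / 2 ^ B * (N : ℝ))) * Real.exp (-(1 / 2 ^ B)) := by
      rw [← Real.exp_add]
      congr 1
      push_cast
      ring
    rw [this, mul_assoc]
    exact mul_le_mul_of_nonneg_left hc1 (Real.exp_pos _).le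

open Classical in
theorem levels {m : ℕ} (hm : 1 ≤ m) (T : ℕ) : ∀ (V : Finset (Fin n))
    (Bad : Finset (Fin n → Fin c)), ∃ y : Fin n → ℝ, (∀ x, 0 ≤ y x ∧ y x ≤ 1) ∧
      ((Bad.filter (fun χ => ¬ Hit m V y χ)).card : ℝ) ≤
        Real.exp (-(1 / 2 ^ (c * m + 1) *
          ((T : ℝ) * V.card / ((c * m + 1 : ℕ) : ℝ) - 2 ^ T + 1))) * Bad.card := by
  induction T with
  | zero =>
    intro V Bad
    refine ⟨fun _ => 0, fun _ => ⟨le_rfl, zero_le_one⟩, ?_⟩
    simp only [Nat.cast_zero, zero_mul, zero_div, pow_zero, zero_sub, neg_add_cancel, mul_zero,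
      neg_zero, Real.exp_zero, one_mul, Nat.cast_le]
    exact card_filter_le _ _
  | succ T ih =>
    intro V Bad
    set B := c * m + 1 with hB
    have hBpos : 0 < B := by omega
    have hBR : (0 : ℝ) < (B : ℝ) := by exact_mod_cast hBpos
    set N := V.card / B with hN
    obtain ⟨V0, hV0, h0⟩ := split m N V (Nat.mul_div_le _ _) Bad
    set Bad1 := Bad.filter (fun χ => ¬ IntHit m V0 χ) with hBad1
    obtain ⟨y0, hy0, h1⟩ := ih V0 Bad1
    set Bad2 := Bad1.filter (fun χ => ¬ Hit m V0 y0 χ) with hBad2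
    obtain ⟨y1, hy1, h2⟩ := ih (V \ V0) Bad2
    refine ⟨glue V0 y0 y1, glue_mem V0 hy0 hy1, ?_⟩
    have hsub : Bad.filter (fun χ => ¬ Hit m V (glue V0 y0 y1) χ) ⊆
        Bad2.filter (fun χ => ¬ Hit m (V \ V0) y1 χ) := by
      intro χ hχ
      obtain ⟨hχ1, hχ2⟩ := mem_filter.mp hχ
      refine mem_filter.mpr ⟨mem_filter.mpr ⟨mem_filter.mpr ⟨hχ1, fun hh => hχ2 ?_⟩,
        fun hh => hχ2 ?_⟩, fun hh => hχ2 ?_⟩
      · exact hit_glue_left hV0 hy1 (hit_of_intHit hm hy0 hh)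
      · exact hit_glue_left hV0 hy1 hh
      · exact hit_glue_right hy0 hh
    have hle : ((Bad.filter (fun χ => ¬ Hit m V (glue V0 y0 y1) χ)).card : ℝ) ≤
        (Bad2.filter (fun χ => ¬ Hit m (V \ V0) y1 χ)).card := by
      exact_mod_cast card_le_card hsub
    refine hle.trans (h2.trans ?_)
    refine (mul_le_mul_of_nonneg_left (h1.trans (mul_le_mul_of_nonneg_left h0
      (Real.exp_pos _).le)) (Real.exp_pos _).le).trans ?_
    rw [← mul_assoc, ← mul_assoc, ← Real.exp_add, ← Real.exp_add]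
    refine mul_le_mul_of_nonneg_right (Real.exp_le_exp.mpr ?_) (by positivity)
    have hc : ((V \ V0).card : ℝ) + V0.card = V.card := by
      exact_mod_cast card_sdiff_add_card_eq_card hV0
    have hNR : (V.card : ℝ) / B - 1 ≤ N := by
      have h3 : V.card < B * (N + 1) := Nat.lt_mul_div_succ _ hBpos
      have h3R : (V.card : ℝ) < B * (N + 1) := by exact_mod_cast h3
      rw [sub_le_iff_le_add, div_le_iff₀ hBR]
      linarith
    have hδ : (0 : ℝ) < 1 / 2 ^ B := by positivity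
    have e1 : (T : ℝ) * (V \ V0).card / B + (T : ℝ) * V0.card / B = T * V.card / B := by
      rw [← hc]; ring
    have e2 : ((T + 1 : ℕ) : ℝ) * V.card / B = T * V.card / B + V.card / B := by
      push_cast; ring
    have e3 : (2 : ℝ) ^ (T + 1) = 2 * 2 ^ T := by ring
    rw [e2, e3]
    have key : (T : ℝ) * V.card / B + V.card / B - 2 * 2 ^ T + 1 ≤
        ((T : ℝ) * (V \ V0).card / B - 2 ^ T + 1) + ((T : ℝ) * V0.card / B - 2 ^ T + 1) + N := by
      linarith
    have := mul_le_mul_of_nonneg_left key hδ.le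
    linarith

theorem exists_heights (c m : ℕ) (hm : 1 ≤ m) : ∃ (n : ℕ) (y : Fin n → ℝ),
    (∀ x, 0 ≤ y x ∧ y x ≤ 1) ∧ ∀ χ : Fin n → Fin c, Hit m univ y χ := by
  classical
  set B := c * m + 1 with hB
  set T := B * 2 ^ B * c + 1 with hT
  obtain ⟨y, hy, h⟩ := levels (n := B * 2 ^ T) (c := c) hm T univ univ
  refine ⟨B * 2 ^ T, y, hy, fun χ => ?_⟩
  by_contra hχ
  have h1 : (1 : ℝ) ≤ ((univ.filter (fun χ : Fin (B * 2 ^ T) → Fin c =>
      ¬ Hit m univ y χ)).card : ℝ) := by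
    have : 0 < (univ.filter (fun χ : Fin (B * 2 ^ T) → Fin c => ¬ Hit m univ y χ)).card :=
      card_pos.mpr ⟨χ, mem_filter.mpr ⟨mem_univ _, hχ⟩⟩
    exact_mod_cast this
  have hBpos : 0 < B := by omega
  have hBR : (0 : ℝ) < (B : ℝ) := by exact_mod_cast hBpos
  have h2 : (((univ : Finset (Fin (B * 2 ^ T) → Fin c)).card : ℕ) : ℝ) ≤
      Real.exp ((c : ℝ) * (B * 2 ^ T)) := by
    rw [card_univ, Fintype.card_fun, Fintype.card_fin, Fintype.card_fin]
    have h3 : (c : ℝ) ≤ Real.exp c := by linarith [Real.add_one_le_exp (c : ℝ)]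
    have h4 : Real.exp ((c : ℝ) * (B * 2 ^ T)) = Real.exp c ^ (B * 2 ^ T) := by
      rw [← Real.exp_nat_mul]
      congr 1
      push_cast
      ring
    rw [h4]
    push_cast
    exact pow_le_pow_left₀ (by positivity) h3 _
  have h5 := h1.trans (h.trans (mul_le_mul_of_nonneg_left h2 (Real.exp_pos _).le))
  rw [← Real.exp_add, Real.one_le_exp_iff, card_univ, Fintype.card_fin, ← hB] at h5
  have e1 : (T : ℝ) * ((B * 2 ^ T : ℕ) : ℝ) / (B : ℝ) = T * 2 ^ T := by
    push_cast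
    field_simp
  rw [e1] at h5
  have e2 : (T : ℝ) = B * 2 ^ B * c + 1 := by rw [hT]; push_cast; ring
  have e3 : (1 : ℝ) / 2 ^ B * ((T : ℝ) * 2 ^ T - 2 ^ T + 1) =
      (c : ℝ) * (B * 2 ^ T) + 1 / 2 ^ B := by
    have : (T : ℝ) * 2 ^ T - 2 ^ T = B * 2 ^ B * c * 2 ^ T := by
      generalize (2 : ℝ) ^ T = w
      rw [e2]; ring
    rw [this]
    field_simp
  rw [e3] at h5
  have : (0 : ℝ) < 1 / 2 ^ B := by positivity
  linarith

/-- The point of three-space attached to `(x, y)`: it lies on a parabolic cylinder. -/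
noncomputable def pt (x y : ℝ) : EuclideanSpace ℝ (Fin 3) := !₂[x, y, y ^ 2 / 4]

theorem dist_sq (x y x0 l y0 : ℝ) :
    dist (pt x y) (!₂[x0, l * y0, 2 * (1 - l)] : EuclideanSpace ℝ (Fin 3)) ^ 2 =
      (x - x0) ^ 2 + l * (y - y0) ^ 2 + y ^ 4 / 16 +
        (l ^ 2 * y0 ^ 2 - l * y0 ^ 2 + 4 * (1 - l) ^ 2) := by
  rw [EuclideanSpace.dist_eq, Real.sq_sqrt (by positivity), Fin.sum_univ_three]
  simp only [pt, Real.dist_eq, sq_abs]
  simp
  ring

theorem main (c m : ℕ) : ∃ P : Finset (EuclideanSpace ℝ (Fin 3)), ∀ col : P → Fin c,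
    ∃ (z : EuclideanSpace ℝ (Fin 3)) (r : ℝ), 0 < r ∧
      m ≤ ((P : Set (EuclideanSpace ℝ (Fin 3))) ∩ Metric.closedBall z r).ncard ∧
      ∃ k : Fin c, ∀ p : P, (p : EuclideanSpace ℝ (Fin 3)) ∈ Metric.closedBall z r →
        col p = k := by
  classical
  obtain ⟨n, y, hy, h⟩ := exists_heights c (m + 1) (by omega)
  let f : Fin n → EuclideanSpace ℝ (Fin 3) := fun x => pt ((x : ℕ) : ℝ) (y x)
  have hf : Function.Injective f := by
    intro a b hab
    have h1 : (f a) 0 = (f b) 0 := by rw [hab]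
    simp only [f, pt] at h1
    simp at h1
    exact Fin.ext h1
  refine ⟨univ.image f, fun col => ?_⟩
  obtain ⟨x0, l, y0, R, _, _, _, _, e, _, hcard, ⟨k, hk⟩, hin, hout⟩ :=
    h (fun x => col ⟨f x, mem_image_of_mem f (mem_univ x)⟩)
  set K := l ^ 2 * y0 ^ 2 - l * y0 ^ 2 + 4 * (1 - l) ^ 2 with hK
  set z : EuclideanSpace ℝ (Fin 3) := !₂[x0, l * y0, 2 * (1 - l)] with hz
  have hd : ∀ x, dist (f x) z ^ 2 =
      (((x : ℕ) : ℝ) - x0) ^ 2 + l * (y x - y0) ^ 2 + (y x) ^ 4 / 16 + K := fun x =>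
    dist_sq _ _ _ _ _
  have hy4 : ∀ x, 0 ≤ (y x) ^ 4 ∧ (y x) ^ 4 ≤ 1 := fun x =>
    ⟨by positivity, pow_le_one₀ (hy x).1 (hy x).2⟩
  have hin' : ∀ x ∈ e, dist (f x) z ^ 2 < R + K := by
    intro x hx
    have := hin x hx
    have := hy4 x
    rw [hd]
    linarith
  have hout' : ∀ x, x ∉ e → R + K < dist (f x) z ^ 2 := by
    intro x hx
    have := hout x (mem_univ x) hx
    have := hy4 x
    rw [hd]
    linarith
  obtain ⟨w, hw⟩ : e.Nonempty := card_pos.mp (by omega)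
  have hpos : 0 < R + K := lt_of_le_of_lt (sq_nonneg _) (hin' w hw)
  have hmem : ∀ x, f x ∈ Metric.closedBall z (Real.sqrt (R + K)) ↔ x ∈ e := by
    intro x
    rw [Metric.mem_closedBall, Real.le_sqrt dist_nonneg hpos.le]
    constructor
    · intro hx
      by_contra hc
      exact absurd (hout' x hc) (not_lt.mpr hx)
    · intro hx
      exact (hin' x hx).le
  refine ⟨z, Real.sqrt (R + K), Real.sqrt_pos.mpr hpos, ?_, k, ?_⟩
  · have hs : ((univ.image f : Finset _) : Set (EuclideanSpace ℝ (Fin 3))) ∩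
        Metric.closedBall z (Real.sqrt (R + K)) = ((e.image f : Finset _) : Set _) := by
      ext p
      simp only [coe_image, coe_univ, Set.image_univ, Set.mem_inter_iff, Set.mem_range,
        Set.mem_image, mem_coe]
      constructor
      · rintro ⟨⟨x, rfl⟩, hx⟩
        exact ⟨x, (hmem x).mp hx, rfl⟩
      · rintro ⟨x, hx, rfl⟩
        exact ⟨⟨x, rfl⟩, (hmem x).mpr hx⟩
    rw [hs, Set.ncard_coe_finset, card_image_of_injective _ hf]
    omega
  · rintro ⟨p, hp⟩ hpb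
    obtain ⟨x, _, rfl⟩ := mem_image.mp hp
    exact hk x ((hmem x).mp hpb)

end Pool.Agent.H18Z.Balls
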