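import Mathlib

set_option autoImplicit false

namespace Pool.Agent.H18Z.Bisym

/-- An idempotent, medial operation that is strictly increasing in each variable. -/
structure IsMean {α : Type} [LinearOrder α] (f : α → α → α) : Prop where
  idem : ∀ x, f x x = x
  med : ∀ x y u v, f (f x y) (f u v) = f (f x u) (f y v)
  monoR : ∀ x, StrictMono (f x)
  monoL : ∀ y, StrictMono (fun x => f x y)

variable {α : Type} [LinearOrder α] {f : α → α → α}

/-- The symmetric auxiliary operation with base point `c`. -/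
def S (f : α → α → α) (c x y : α) : α := f (f c x) (f y c)

/-- `D f c x y u v` says that the difference `y - x` is at most the difference `v - u`. -/
def D (f : α → α → α) (c x y u v : α) : Prop := S f c y u ≤ S f c v x

/-- The contraction towards `b`. -/
def g (f : α → α → α) (b x : α) : α := f (f b x) b

namespace IsMean

variable (h : IsMean f)
include h

theorem leR (a : α) {x y : α} (hxy : x ≤ y) : f a x ≤ f a y := (h.monoR a).monotone hxy

theorem leL (a : α) {x y : α} (hxy : x ≤ y) : f x a ≤ f y a := (h.monoL a).monotone hxy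

theorem ltR (a : α) {x y : α} (hxy : x < y) : f a x < f a y := h.monoR a hxy

theorem ltL (a : α) {x y : α} (hxy : x < y) : f x a < f y a := h.monoL a hxy

theorem S_comm (c x y : α) : S f c x y = S f c y x := h.med _ _ _ _

theorem S_self (c : α) : S f c c c = c := by
  unfold S; rw [h.idem, h.idem]

theorem S_hom (c a x b y : α) : S f c (f a x) (f b y) = f (S f c a b) (S f c x y) := by
  unfold S
  have e1 : f c (f a x) = f (f c a) (f c x) := by
    conv_lhs => rw [← h.idem c]
    exact h.med _ _ _ _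
  have e2 : f (f b y) c = f (f b c) (f y c) := by
    conv_lhs => rw [← h.idem c]
    exact h.med _ _ _ _
  rw [e1, e2, h.med]

theorem S_med (c x y u v : α) :
    S f c (S f c x y) (S f c u v) = S f c (S f c x u) (S f c y v) := by
  have e : S f c (S f c x y) (S f c u v) =
      f (S f c (f c x) (f c u)) (S f c (f y c) (f v c)) := h.S_hom c _ _ _ _
  rw [e, h.S_hom, h.S_hom, h.S_self]
  rfl

theorem S_monoR (c x : α) : StrictMono (S f c x) := fun _ _ hyz =>
  h.ltR _ (h.ltL _ hyz)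

theorem S_monoL (c y : α) : StrictMono (fun x => S f c x y) := fun _ _ hyz =>
  h.ltL _ (h.ltR _ hyz)

theorem S_le (c : α) {x y u v : α} (h1 : x ≤ u) (h2 : y ≤ v) : S f c x y ≤ S f c u v :=
  ((h.S_monoL c y).monotone h1).trans ((h.S_monoR c u).monotone h2)

omit h in
theorem D_refl (c x y : α) : D f c x y x y := le_refl _

theorem D_trans {c x y u v p q : α} (h1 : D f c x y u v) (h2 : D f c u v p q) :
    D f c x y p q := by
  unfold D at *
  have h3 := h.S_le c h1 h2
  have e1 : S f c (S f c y u) (S f c v p) = S f c (S f c y p) (S f c u v) := by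
    rw [h.S_comm c v p, h.S_med]
  have e2 : S f c (S f c v x) (S f c q u) = S f c (S f c q x) (S f c u v) := by
    rw [h.S_comm c v x, h.S_med, h.S_comm c x q, h.S_comm c v u]
  rw [e1, e2] at h3
  exact (h.S_monoL c _).le_iff_le.mp h3

theorem D_sub (c : α) {x y u v : α} (h1 : u ≤ x) (h2 : y ≤ v) : D f c x y u v :=
  h.S_le c h2 h1

theorem not_D (c : α) {x y v : α} (h2 : v < y) : ¬ D f c x y x v :=
  not_le.mpr (h.S_monoL c x h2)

theorem D_L (c a b x y u v : α) :
    D f c (f a x) (f a y) (f b u) (f b v) ↔ D f c x y u v := by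
  unfold D
  rw [h.S_hom, h.S_hom, h.S_comm c b a]
  exact (h.monoR _).le_iff_le

theorem D_R (c a b x y u v : α) :
    D f c (f x a) (f y a) (f u b) (f v b) ↔ D f c x y u v := by
  unfold D
  rw [h.S_hom, h.S_hom, h.S_comm c b a]
  exact (h.monoL _).le_iff_le

theorem le_f {x y : α} (hxy : x ≤ y) : x ≤ f x y := by
  have := h.leR x hxy
  rwa [h.idem] at this

theorem f_le {x y : α} (hxy : x ≤ y) : f x y ≤ y := by
  have := h.leL y hxy
  rwa [h.idem] at this

theorem f_le' {x y : α} (hxy : x ≤ y) : f y x ≤ y := by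
  have := h.leR y hxy
  rwa [h.idem] at this

theorem lt_f {x y : α} (hxy : x < y) : x < f x y := by
  have := h.ltR x hxy
  rwa [h.idem] at this

theorem f_lt {x y : α} (hxy : x < y) : f x y < y := by
  have := h.ltL y hxy
  rwa [h.idem] at this

theorem shrinkL (c a : α) {x y : α} (hxy : x ≤ y) : D f c (f a x) (f a y) x y := by
  have h1 := (h.D_L c a x x y x y).mpr (D_refl c x y)
  rw [h.idem] at h1
  exact h.D_trans h1 (h.D_sub c le_rfl (h.f_le hxy))

theorem shrinkR (c a : α) {x y : α} (hxy : x ≤ y) : D f c (f x a) (f y a) x y := by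
  have h1 := (h.D_R c a y x y x y).mpr (D_refl c x y)
  rw [h.idem] at h1
  exact h.D_trans h1 (h.D_sub c (h.le_f hxy) le_rfl)

theorem g_mono (b : α) : StrictMono (g f b) := fun _ _ hxy => h.ltL _ (h.ltR _ hxy)

theorem g_self (b : α) : g f b b = b := by
  unfold g; rw [h.idem, h.idem]

theorem G_mono (b : α) (k : ℕ) : StrictMono ((g f b)^[k]) := (h.g_mono b).iterate k

theorem G_self (b : α) (k : ℕ) : (g f b)^[k] b = b := Function.iterate_fixed (h.g_self b) k

theorem D_G (c a b : α) (k : ℕ) (x y u v : α) :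
    D f c ((g f a)^[k] x) ((g f a)^[k] y) ((g f b)^[k] u) ((g f b)^[k] v) ↔ D f c x y u v := by
  induction k with
  | zero => rfl
  | succ k ih =>
    simp only [Function.iterate_succ_apply']
    unfold g at *
    rw [h.D_R, h.D_L]
    exact ih

end IsMean

/-- The difference `q - p` is infinitely small compared with `v - u`. -/
def Small (f : α → α → α) (c u v p q : α) : Prop := ∀ k : ℕ, D f c p q u ((g f u)^[k] v)

namespace IsMean

variable (h : IsMean f)
include h

theorem small_sub {c u v p q p' q' : α} (hs : Small f c u v p q) (h1 : p ≤ p') (h2 : q' ≤ q) :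
    Small f c u v p' q' := fun k => h.D_trans (h.D_sub c h1 h2) (hs k)

theorem not_small {c u v : α} (huv : u < v) : ¬ Small f c u v u v := by
  intro hs
  refine h.not_D c ?_ (hs 1)
  show f (f u v) u < v
  exact lt_of_lt_of_le (h.ltR _ huv) ((h.leL v (h.f_le huv.le)).trans_eq (h.idem v))

theorem le_G {u v : α} (huv : u ≤ v) (k : ℕ) : u ≤ (g f u)^[k] v := by
  have := (h.G_mono u k).monotone huv
  rwa [h.G_self] at this

theorem small_cancelL {c u v a p q : α} (huv : u ≤ v) (hs : Small f c u v (f a p) (f a q)) :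
    Small f c u v p q := by
  intro k
  have h1 := hs (k + 1)
  rw [Function.iterate_succ_apply'] at h1
  set w := (g f u)^[k] v with hw
  have huw : u ≤ w := h.le_G huv k
  have e : g f u w = f u (f w u) := by
    unfold g
    calc f (f u w) u = f (f u w) (f u u) := by rw [h.idem]
      _ = f (f u u) (f w u) := h.med _ _ _ _
      _ = f u (f w u) := by rw [h.idem]
  have h2 : D f c (f a p) (f a q) (f u u) (f u (f w u)) := by
    rw [h.idem, ← e]; exact h1
  exact h.D_trans ((h.D_L c a u p q u (f w u)).mp h2) (h.D_sub c le_rfl (h.f_le' huw))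

theorem small_cancelR {c u v a p q : α} (huv : u ≤ v) (hs : Small f c u v (f p a) (f q a)) :
    Small f c u v p q := by
  intro k
  have h1 := hs (k + 1)
  rw [Function.iterate_succ_apply'] at h1
  set w := (g f u)^[k] v with hw
  have huw : u ≤ w := h.le_G huv k
  have h2 : D f c (f p a) (f q a) (f u u) (f (f u w) u) := by
    rw [h.idem]; exact h1
  exact h.D_trans ((h.D_R c a u p q u (f u w)).mp h2) (h.D_sub c le_rfl (h.f_le huw))

theorem small_L {c u v p q : α} (a : α) (hpq : p ≤ q) (hs : Small f c u v p q) :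
    Small f c u v (f a p) (f a q) := fun k => h.D_trans (h.shrinkL c a hpq) (hs k)

theorem step {c u v : α} (huv : u ≤ v) (N : α → ℕ)
    (hN : ∀ z z', z ≤ z' → N z = N z' → Small f c u v z z') (n : ℕ) (a b : α) (hab : a < b)
    (hs : ¬ Small f c u v a b) :
    ∃ a' b', a ≤ a' ∧ b' ≤ b ∧ a' < b' ∧ ¬ Small f c u v a' b' ∧
      ∀ z, a' ≤ z → z ≤ b' → N z ≠ n := by
  set m := f a b with hm
  have ham : a < m := h.lt_f hab
  have hmb : m < b := h.f_lt hab
  have s1 : ¬ Small f c u v a m := fun hh => hs (h.small_cancelL (a := a) huv (by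
    rw [h.idem]; exact hh))
  have s2 : ¬ Small f c u v m b := fun hh => hs (h.small_cancelR (a := b) huv (by
    rw [h.idem]; exact hh))
  have s3 : ¬ Small f c u v a (f a m) := fun hh => s1 (h.small_cancelL (a := a) huv (by
    rw [h.idem]; exact hh))
  have s4 : ¬ Small f c u v (f a m) m := fun hh => s1 (h.small_cancelR (a := m) huv (by
    rw [h.idem]; exact hh))
  by_cases hz : ∃ z, a ≤ z ∧ z ≤ f a m ∧ N z = n
  · obtain ⟨z, _, hz2, hz3⟩ := hz
    refine ⟨m, b, ham.le, le_rfl, hmb, s2, ?_⟩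
    intro z' h1 _ h3
    have hzz : z ≤ z' := hz2.trans ((h.f_le ham.le).trans h1)
    exact s4 (h.small_sub (hN z z' hzz (hz3.trans h3.symm)) hz2 h1)
  · refine ⟨a, f a m, le_rfl, (h.f_le ham.le).trans hmb.le, h.lt_f ham, s3, ?_⟩
    intro z h1 h2 h3
    exact hz ⟨z, h1, h2, h3⟩

end IsMean

theorem arch {I : Set ℝ} (hI : I.OrdConnected) {f : I → I → I} (h : IsMean f) (c : I)
    {u v p q : I} (huv : u < v) (hpq : p < q) : ¬ Small f c u v p q := by
  intro hs
  have hr : ∀ z : I, ∃ r : ℚ, ((f z p : I) : ℝ) < r ∧ (r : ℝ) < ((f z q : I) : ℝ) := fun z =>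
    exists_rat_btwn (show ((f z p : I) : ℝ) < ((f z q : I) : ℝ) from h.ltR z hpq)
  choose r hr1 hr2 using hr
  let N : I → ℕ := fun z => Encodable.encode (r z)
  have hN : ∀ z z', z ≤ z' → N z = N z' → Small f c u v z z' := by
    intro z z' _ hzz
    have e : r z = r z' := Encodable.encode_injective hzz
    have h1 : f z' p ≤ f z q := by
      have a1 := hr1 z'
      have a2 := hr2 z
      rw [e] at a2
      exact (a1.trans a2).le
    exact h.small_cancelR (a := p) huv.le (h.small_sub (h.small_L z hpq.le hs) le_rfl h1)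
  let T : Type := {ab : I × I // ab.1 < ab.2 ∧ ¬ Small f c u v ab.1 ab.2}
  have hstep : ∀ (n : ℕ) (t : T), ∃ t' : T, t.1.1 ≤ t'.1.1 ∧ t'.1.2 ≤ t.1.2 ∧
      ∀ z, t'.1.1 ≤ z → z ≤ t'.1.2 → N z ≠ n := by
    intro n t
    obtain ⟨a', b', h1, h2, h3, h4, h5⟩ := h.step huv.le N hN n t.1.1 t.1.2 t.2.1 t.2.2
    exact ⟨⟨(a', b'), h3, h4⟩, h1, h2, h5⟩
  choose nx hn1 hn2 hn3 using hstep
  let s : ℕ → T := fun n => Nat.rec ⟨(u, v), huv, h.not_small huv⟩ (fun n t => nx n t) n
  have hs_succ : ∀ n, s (n + 1) = nx n (s n) := fun n => rfl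
  have ha : Monotone (fun n => (((s n).1.1 : I) : ℝ)) :=
    monotone_nat_of_le_succ fun n => by
      show (((s n).1.1 : I) : ℝ) ≤ (((s (n + 1)).1.1 : I) : ℝ)
      rw [hs_succ]; exact hn1 n (s n)
  have hb : Antitone (fun n => (((s n).1.2 : I) : ℝ)) :=
    antitone_nat_of_succ_le fun n => by
      show (((s (n + 1)).1.2 : I) : ℝ) ≤ (((s n).1.2 : I) : ℝ)
      rw [hs_succ]; exact hn2 n (s n)
  have hab : ∀ n m, (((s n).1.1 : I) : ℝ) ≤ (((s m).1.2 : I) : ℝ) := by
    intro n m
    have h1 := ha (le_max_left n m)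
    have h2 := hb (le_max_right n m)
    have h3 : (((s (max n m)).1.1 : I) : ℝ) ≤ (((s (max n m)).1.2 : I) : ℝ) :=
      (s (max n m)).2.1.le
    exact h1.trans (h3.trans h2)
  set z0 : ℝ := ⨆ n, (((s n).1.1 : I) : ℝ) with hz0
  have hbdd : BddAbove (Set.range fun n => (((s n).1.1 : I) : ℝ)) := by
    refine ⟨(((s 0).1.2 : I) : ℝ), ?_⟩
    rintro _ ⟨n, rfl⟩
    exact hab n 0
  have l1 : ∀ n, (((s n).1.1 : I) : ℝ) ≤ z0 := fun n => le_ciSup hbdd n
  have l2 : ∀ n, z0 ≤ (((s n).1.2 : I) : ℝ) := fun n => ciSup_le fun m => hab m n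
  have hz : z0 ∈ I := hI.out (s 0).1.1.2 (s 0).1.2.2 ⟨l1 0, l2 0⟩
  exact hn3 (N ⟨z0, hz⟩) (s (N ⟨z0, hz⟩)) ⟨z0, hz⟩ (l1 (N ⟨z0, hz⟩ + 1)) (l2 (N ⟨z0, hz⟩ + 1)) rfl

theorem arch' {I : Set ℝ} (hI : I.OrdConnected) {f : I → I → I} (h : IsMean f) (c : I)
    {u v p q : I} (huv : u < v) (hpq : p < q) :
    ∃ k : ℕ, ∀ b : I, ¬ D f c p q ((g f b)^[k] u) ((g f b)^[k] v) := by
  have h1 := arch hI h c huv hpq
  unfold Small at h1
  obtain ⟨k, hk⟩ := not_forall.mp h1
  refine ⟨k, fun b hb => hk ?_⟩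
  have h2 := (h.D_G c b u k u v u v).mpr (IsMean.D_refl c u v)
  rw [h.G_self] at h2
  exact h.D_trans hb h2

theorem isMean_flip (h : IsMean f) : IsMean (fun x y => f y x) :=
  ⟨h.idem, fun _ _ _ _ => h.med _ _ _ _, h.monoL, h.monoR⟩

theorem nhds_up {I : Set ℝ} (hI : I.OrdConnected) {f : I → I → I} (h : IsMean f) {x y q : I}
    (hq : f x y < q) : ∃ y' : I, y ≤ y' ∧ f x y' < q ∧ Set.Iic y' ∈ nhds y := by
  by_cases hv : ∃ v, y < v
  · obtain ⟨v, hv⟩ := hv
    obtain ⟨k, hk⟩ := arch' hI h x hv hq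
    have hk' := hk y
    rw [h.G_self] at hk'
    have hw : y < (g f y)^[k] v := by
      have := h.G_mono y k hv
      rwa [h.G_self] at this
    refine ⟨(g f y)^[k] v, hw.le, ?_, Iic_mem_nhds hw⟩
    by_contra hc
    exact hk' (h.D_trans (h.D_sub x le_rfl (not_lt.mp hc)) (h.shrinkL x x hw.le))
  · refine ⟨y, le_rfl, hq, ?_⟩
    have : Set.Iic y = Set.univ := by
      ext v
      simp only [Set.mem_Iic, Set.mem_univ, iff_true]
      exact not_lt.mp fun hh => hv ⟨v, hh⟩
    rw [this]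
    exact Filter.univ_mem

theorem nhds_down {I : Set ℝ} (hI : I.OrdConnected) {f : I → I → I} (h : IsMean f) {x y p : I}
    (hp : p < f x y) : ∃ y' : I, y' ≤ y ∧ p < f x y' ∧ Set.Ici y' ∈ nhds y := by
  by_cases hv : ∃ u, u < y
  · obtain ⟨u, hu⟩ := hv
    obtain ⟨k, hk⟩ := arch' hI h x hu hp
    have hk' := hk y
    rw [h.G_self] at hk'
    have hw : (g f y)^[k] u < y := by
      have := h.G_mono y k hu
      rwa [h.G_self] at this
    refine ⟨(g f y)^[k] u, hw.le, ?_, Ici_mem_nhds hw⟩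
    by_contra hc
    exact hk' (h.D_trans (h.D_sub x (not_lt.mp hc) le_rfl) (h.shrinkL x x hw.le))
  · refine ⟨y, le_rfl, hp, ?_⟩
    have : Set.Ici y = Set.univ := by
      ext v
      simp only [Set.mem_Ici, Set.mem_univ, iff_true]
      exact not_lt.mp fun hh => hv ⟨v, hh⟩
    rw [this]
    exact Filter.univ_mem

theorem continuous_mean {I : Set ℝ} (hI : I.OrdConnected) {f : I → I → I} (h : IsMean f) :
    Continuous (fun z : I × I => f z.1 z.2) := by
  have := hI
  rw [continuous_iff_continuousAt]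
  rintro ⟨x, y⟩
  refine tendsto_order.mpr ⟨fun p hp => ?_, fun q hq => ?_⟩
  · obtain ⟨y', _, h2, h3⟩ := nhds_down hI h hp
    obtain ⟨x', _, h5, h6⟩ := nhds_down hI (isMean_flip h) (x := y') (y := x) h2
    filter_upwards [prod_mem_nhds h6 h3] with z hz
    exact lt_of_lt_of_le h5 ((h.leL y' hz.1).trans (h.leR z.1 hz.2))
  · obtain ⟨y', _, h2, h3⟩ := nhds_up hI h hq
    obtain ⟨x', _, h5, h6⟩ := nhds_up hI (isMean_flip h) (x := y') (y := x) h2
    filter_upwards [prod_mem_nhds h6 h3] with z hz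
    exact lt_of_le_of_lt ((h.leR z.1 hz.2).trans (h.leL y' hz.1)) h5

theorem main (I : Set ℝ) (hI : I.OrdConnected) (F : ℝ → ℝ → ℝ)
    (hmem : ∀ x ∈ I, ∀ y ∈ I, F x y ∈ I) (hid : ∀ x ∈ I, F x x = x)
    (hmed : ∀ x ∈ I, ∀ y ∈ I, ∀ u ∈ I, ∀ v ∈ I, F (F x y) (F u v) = F (F x u) (F y v))
    (hR : ∀ x ∈ I, StrictMonoOn (F x) I) (hL : ∀ y ∈ I, StrictMonoOn (fun x => F x y) I) :
    ContinuousOn (Function.uncurry F) (I ×ˢ I) := by
  let f : I → I → I := fun x y => ⟨F x y, hmem x x.2 y y.2⟩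
  have h : IsMean f :=
    ⟨fun x => Subtype.ext (hid x x.2),
     fun x y u v => Subtype.ext (hmed x x.2 y y.2 u u.2 v v.2),
     fun x _ _ hab => hR x x.2 (Subtype.mem _) (Subtype.mem _) hab,
     fun y _ _ hab => hL y y.2 (Subtype.mem _) (Subtype.mem _) hab⟩
  have hc := continuous_subtype_val.comp (continuous_mean hI h)
  rw [continuousOn_iff_continuous_domRestrict]
  have hp : Continuous (fun z : (I ×ˢ I : Set (ℝ × ℝ)) =>
      ((⟨z.1.1, z.2.1⟩, ⟨z.1.2, z.2.2⟩) : I × I)) := by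
    refine Continuous.prodMk ?_ ?_
    · exact Continuous.subtype_mk (continuous_fst.comp continuous_subtype_val) _
    · exact Continuous.subtype_mk (continuous_snd.comp continuous_subtype_val) _
  exact hc.comp hp

end Pool.Agent.H18Z.Bisym
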