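import Mathlib
import Pool.Agent.H18Z.Bisym

set_option autoImplicit false

namespace Pool.Agent.H18Z.BisymN

open Pool.Agent.H18Z.Bisym

theorem sec_up {I : Set ℝ} (hI : I.OrdConnected) {f : I → I → I} (h : IsMean f) (c : I)
    (φ : I → I) (hφ : ∀ s t, s ≤ t → D f c (φ s) (φ t) s t) {y q : I}
    (hq : φ y < q) : ∃ y' : I, y ≤ y' ∧ φ y' < q ∧ Set.Iic y' ∈ nhds y := by
  by_cases hv : ∃ v, y < v
  · obtain ⟨v, hv⟩ := hv
    obtain ⟨k, hk⟩ := arch' hI h c hv hq
    have hk' := hk y
    rw [h.G_self] at hk'
    have hw : y < (g f y)^[k] v := by
      have := h.G_mono y k hv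
      rwa [h.G_self] at this
    refine ⟨(g f y)^[k] v, hw.le, ?_, Iic_mem_nhds hw⟩
    by_contra hc
    exact hk' (h.D_trans (h.D_sub c le_rfl (not_lt.mp hc)) (hφ _ _ hw.le))
  · refine ⟨y, le_rfl, hq, ?_⟩
    have : Set.Iic y = Set.univ := by
      ext v
      simp only [Set.mem_Iic, Set.mem_univ, iff_true]
      exact not_lt.mp fun hh => hv ⟨v, hh⟩
    rw [this]
    exact Filter.univ_mem

theorem sec_down {I : Set ℝ} (hI : I.OrdConnected) {f : I → I → I} (h : IsMean f) (c : I)
    (φ : I → I) (hφ : ∀ s t, s ≤ t → D f c (φ s) (φ t) s t) {y p : I}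
    (hp : p < φ y) : ∃ y' : I, y' ≤ y ∧ p < φ y' ∧ Set.Ici y' ∈ nhds y := by
  by_cases hv : ∃ u, u < y
  · obtain ⟨u, hu⟩ := hv
    obtain ⟨k, hk⟩ := arch' hI h c hu hp
    have hk' := hk y
    rw [h.G_self] at hk'
    have hw : (g f y)^[k] u < y := by
      have := h.G_mono y k hu
      rwa [h.G_self] at this
    refine ⟨(g f y)^[k] u, hw.le, ?_, Ici_mem_nhds hw⟩
    by_contra hc
    exact hk' (h.D_trans (h.D_sub c (not_lt.mp hc) le_rfl) (hφ _ _ hw.le))
  · refine ⟨y, le_rfl, hp, ?_⟩
    have : Set.Ici y = Set.univ := by
      ext v
      simp only [Set.mem_Ici, Set.mem_univ, iff_true]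
      exact not_lt.mp fun hh => hv ⟨v, hh⟩
    rw [this]
    exact Filter.univ_mem

/-- The hypotheses on an operation of arity `n`. -/
structure IsMeanN {α : Type} [LinearOrder α] {n : ℕ} (F : (Fin n → α) → α) : Prop where
  idem : ∀ x, F (fun _ => x) = x
  med : ∀ M : Fin n → Fin n → α, F (fun i => F (M i)) = F (fun j => F (fun i => M i j))
  mono : ∀ (x : Fin n → α) (i : Fin n), StrictMono (fun t => F (Function.update x i t))

variable {α : Type} [LinearOrder α] {n : ℕ} {F : (Fin n → α) → α}

/-- The binary operation obtained by identifying all variables but the one at place `i`. -/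
def bin (F : (Fin n → α) → α) (i : Fin n) (x y : α) : α := F (Function.update (fun _ => x) i y)

namespace IsMeanN

variable (h : IsMeanN F)
include h

theorem monotone : Monotone F := by
  intro x y hxy
  have key : ∀ s : Finset (Fin n), F x ≤ F (fun i => if i ∈ s then y i else x i) := by
    intro s
    induction s using Finset.induction_on with
    | empty => simp
    | insert j s hj ih =>
      refine ih.trans ?_
      have e1 : (fun i => if i ∈ s then y i else x i) =
          Function.update (fun i => if i ∈ s then y i else x i) j (x j) := by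
        funext i
        by_cases hi : i = j
        · subst hi; simp [hj]
        · simp [hi]
      have e2 : (fun i => if i ∈ insert j s then y i else x i) =
          Function.update (fun i => if i ∈ s then y i else x i) j (y j) := by
        funext i
        by_cases hi : i = j
        · subst hi; simp
        · simp [hi]
      rw [e2]
      conv_lhs => rw [e1]
      exact (h.mono _ j).monotone (hxy j)
  simpa using key Finset.univ

theorem bin_hom (i : Fin n) (x y : Fin n → α) :
    bin F i (F x) (F y) = F (fun j => bin F i (x j) (y j)) := by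
  have e := h.med (fun k => if k = i then y else x)
  have e1 : (fun k => F (if k = i then y else x)) = Function.update (fun _ => F x) i (F y) := by
    funext k
    by_cases hk : k = i
    · subst hk; simp
    · simp [hk]
  have e2 : ∀ j, (fun k => (if k = i then y else x) j) =
      Function.update (fun _ => x j) i (y j) := by
    intro j
    funext k
    by_cases hk : k = i
    · subst hk; simp
    · simp [hk]
  unfold bin
  rw [← e1, e]
  simp only [e2]

theorem isMean_bin (hn : 2 ≤ n) (i : Fin n) : IsMean (bin F i) := by
  refine ⟨fun x => ?_, fun x y u v => ?_, fun x => h.mono _ i, fun y a b hab => ?_⟩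
  · unfold bin
    rw [Function.update_eq_self i (fun _ => x)]
    exact h.idem x
  · have e := h.bin_hom i (Function.update (fun _ => x) i y) (Function.update (fun _ => u) i v)
    have e2 : (fun j => bin F i (Function.update (fun _ => x) i y j)
        (Function.update (fun _ => u) i v j)) =
        Function.update (fun _ => bin F i x u) i (bin F i y v) := by
      funext k
      by_cases hk : k = i
      · subst hk; simp
      · simp [hk]
    rw [e2] at e
    exact e
  · obtain ⟨j, hj⟩ : ∃ j : Fin n, j ≠ i := by
      have : Nontrivial (Fin n) := Fin.nontrivial_iff_two_le.mpr hn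
      exact exists_ne i
    show F (Function.update (fun _ => a) i y) < F (Function.update (fun _ => b) i y)
    have h1 := h.mono (Function.update (fun _ => a) i y) j hab
    have e1 : Function.update (Function.update (fun _ => a) i y) j a =
        Function.update (fun _ : Fin n => a) i y := by
      funext k
      by_cases hk : k = j
      · subst hk; simp [hj]
      · simp [hk]
    simp only [e1] at h1
    refine lt_of_lt_of_le h1 (h.monotone fun k => ?_)
    by_cases hk : k = j
    · subst hk; simp [hj]
    · by_cases hk' : k = i
      · subst hk'; simp [hk]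
      · simp [hk, hk', hab.le]

theorem S_hom (i : Fin n) (c : α) (x y : Fin n → α) :
    S (bin F i) c (F x) (F y) = F (fun j => S (bin F i) c (x j) (y j)) := by
  unfold S
  have e1 : bin F i c (F x) = F (fun j => bin F i c (x j)) := by
    conv_lhs => rw [← h.idem c]
    exact h.bin_hom i _ _
  have e2 : bin F i (F y) c = F (fun j => bin F i (y j) c) := by
    conv_lhs => rw [← h.idem c]
    exact h.bin_hom i _ _
  rw [e1, e2, h.bin_hom]

theorem shrink (hn : 2 ≤ n) (i : Fin n) (c : α) (x : Fin n → α) (s t : α) (hst : s ≤ t) :
    D (bin F i) c (F (Function.update x i s)) (F (Function.update x i t)) s t := by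
  have hm := h.isMean_bin hn i
  have h1 : D (bin F i) c (F (Function.update x i s)) (F (Function.update x i t))
      (F (fun _ => s)) (F (Function.update (fun _ => s) i t)) := by
    unfold D
    rw [h.S_hom, h.S_hom]
    refine le_of_eq (congrArg F ?_)
    funext k
    by_cases hk : k = i
    · subst hk; simp
    · simp only [Function.update_of_ne hk]
      exact hm.S_comm _ _ _
  rw [h.idem] at h1
  exact hm.D_trans h1 (hm.D_sub c le_rfl (hm.f_le hst))

end IsMeanN

theorem continuous_meanN {I : Set ℝ} (hI : I.OrdConnected) (hn : 2 ≤ n) {F : (Fin n → I) → I}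
    (h : IsMeanN F) : Continuous F := by
  have := hI
  rw [continuous_iff_continuousAt]
  intro x
  refine tendsto_order.mpr ⟨fun p hp => ?_, fun q hq => ?_⟩
  · have key : ∀ s : Finset (Fin n), ∃ x' : Fin n → I, (∀ i, x' i ≤ x i) ∧ p < F x' ∧
        ∀ i ∈ s, Set.Ici (x' i) ∈ nhds (x i) := by
      intro s
      induction s using Finset.induction_on with
      | empty => exact ⟨x, fun _ => le_rfl, hp, by simp⟩
      | insert j s hj ih =>
        obtain ⟨x', h1, h2, h3⟩ := ih
        obtain ⟨y', k1, k2, k3⟩ := sec_down hI (h.isMean_bin hn j) p
          (fun t => F (Function.update x' j t)) (h.shrink hn j p x') (y := x' j) (p := p)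
          (by simpa using h2)
        refine ⟨Function.update x' j y', fun i => ?_, k2, fun i hi => ?_⟩
        · by_cases hij : i = j
          · subst hij; simpa using k1.trans (h1 i)
          · simpa [hij] using h1 i
        · by_cases hij : i = j
          · subst hij
            simp only [Function.update_self]
            rcases (h1 i).eq_or_lt with he | hl
            · rwa [he] at k3
            · exact Ici_mem_nhds (lt_of_le_of_lt k1 hl)
          · simp only [Function.update_of_ne hij]
            exact h3 i ((Finset.mem_insert.mp hi).resolve_left hij)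
    obtain ⟨x', _, h2, h3⟩ := key Finset.univ
    have hev : ∀ᶠ z in nhds x, ∀ i, z i ∈ Set.Ici (x' i) :=
      Filter.eventually_all.mpr fun i =>
        (continuous_apply i).continuousAt.eventually_mem (h3 i (Finset.mem_univ i))
    filter_upwards [hev] with z hz
    exact lt_of_lt_of_le h2 (h.monotone hz)
  · have key : ∀ s : Finset (Fin n), ∃ x' : Fin n → I, (∀ i, x i ≤ x' i) ∧ F x' < q ∧
        ∀ i ∈ s, Set.Iic (x' i) ∈ nhds (x i) := by
      intro s
      induction s using Finset.induction_on with
      | empty => exact ⟨x, fun _ => le_rfl, hq, by simp⟩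
      | insert j s hj ih =>
        obtain ⟨x', h1, h2, h3⟩ := ih
        obtain ⟨y', k1, k2, k3⟩ := sec_up hI (h.isMean_bin hn j) q
          (fun t => F (Function.update x' j t)) (h.shrink hn j q x') (y := x' j) (q := q)
          (by simpa using h2)
        refine ⟨Function.update x' j y', fun i => ?_, k2, fun i hi => ?_⟩
        · by_cases hij : i = j
          · subst hij; simpa using (h1 i).trans k1
          · simpa [hij] using h1 i
        · by_cases hij : i = j
          · subst hij
            simp only [Function.update_self]
            rcases (h1 i).eq_or_lt with he | hl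
            · rwa [← he] at k3
            · exact Iic_mem_nhds (lt_of_lt_of_le hl k1)
          · simp only [Function.update_of_ne hij]
            exact h3 i ((Finset.mem_insert.mp hi).resolve_left hij)
    obtain ⟨x', _, h2, h3⟩ := key Finset.univ
    have hev : ∀ᶠ z in nhds x, ∀ i, z i ∈ Set.Iic (x' i) :=
      Filter.eventually_all.mpr fun i =>
        (continuous_apply i).continuousAt.eventually_mem (h3 i (Finset.mem_univ i))
    filter_upwards [hev] with z hz
    exact lt_of_le_of_lt (h.monotone hz) h2

end Pool.Agent.H18Z.BisymN
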