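import Pool.Agent.H222Z.ES.Stm

/-! Stage lemma for MP_7f94de_pr. -/

namespace Pool.Agent.H222Z.ES

open Finset Polynomial

namespace Stage

lemma prod_lower (N : ℕ) (z : ℂ) (hz : ‖z‖ ≤ 1 / 2) (rs : Multiset ℂ)
    (hsh : ∀ x ∈ rs, (1 / 2 : ℝ) ^ N < ‖z - x‖) :
    (1 / 2 : ℝ) ^ (2 * rs.card + (rs.map (kk N z)).sum) * (rs.map fun a => max 1 ‖a‖).prod ≤
      ‖(rs.map fun x => z - x).prod‖ := by
  induction rs using Multiset.induction_on with
  | empty => simp
  | cons x rs ih =>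
    have ih' := ih fun y hy => hsh y (Multiset.mem_cons_of_mem hy)
    have hx := kk_shallow (hsh x (Multiset.mem_cons_self _ _))
    have h1 : (1 / 2 : ℝ) ^ (kk N z x + 1) * (1 / 2) * max 1 ‖x‖ ≤ ‖z - x‖ := by
      have hp : (0 : ℝ) ≤ (1 / 2 : ℝ) ^ (kk N z x + 1) := by positivity
      rcases le_total ‖x‖ 1 with h | h
      · rw [max_eq_left h]
        have := hx.trans (min_le_right _ _)
        linarith
      · rw [max_eq_right h]
        have h2 := hx.trans (min_le_left _ _)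
        have h3 : ‖x‖ ≤ ‖z - x‖ + ‖z‖ := by
          calc ‖x‖ = ‖z - (z - x)‖ := by congr 1; ring
            _ ≤ ‖z‖ + ‖z - x‖ := norm_sub_le _ _
            _ = _ := add_comm _ _
        nlinarith
    have hprod : 0 ≤ (rs.map fun a => max 1 ‖a‖).prod :=
      Multiset.prod_nonneg fun y hy => by
        obtain ⟨a, _, rfl⟩ := Multiset.mem_map.1 hy
        positivity
    simp only [Multiset.map_cons, Multiset.prod_cons, Multiset.sum_cons, Multiset.card_cons,
      norm_mul]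
    calc (1 / 2 : ℝ) ^ (2 * (rs.card + 1) + (kk N z x + (rs.map (kk N z)).sum)) *
          (max 1 ‖x‖ * (rs.map fun a => max 1 ‖a‖).prod)
        = ((1 / 2 : ℝ) ^ (kk N z x + 1) * (1 / 2) * max 1 ‖x‖) *
          ((1 / 2 : ℝ) ^ (2 * rs.card + (rs.map (kk N z)).sum) *
            (rs.map fun a => max 1 ‖a‖).prod) := by ring
      _ ≤ ‖z - x‖ * ‖(rs.map fun x => z - x).prod‖ :=
          mul_le_mul h1 ih' (by positivity) (norm_nonneg _)

lemma eval_lower (pol : ℂ[X]) (d i₀ : ℕ) (hdeg : pol.natDegree ≤ d) (hc : ‖pol.coeff i₀‖ = 1)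
    (N : ℕ) (z : ℂ) (hz : ‖z‖ ≤ 1 / 2) (hsh : ∀ x ∈ pol.roots, (1 / 2 : ℝ) ^ N < ‖z - x‖) :
    (1 / 2 : ℝ) ^ (3 * d + (pol.roots.map (kk N z)).sum) ≤ ‖pol.eval z‖ := by
  have h1 := norm_coeff_le_choose_mul_mahlerMeasure i₀ pol
  have hM := pol.mahlerMeasure_nonneg
  have h2 : (pol.natDegree.choose i₀ : ℝ) ≤ 2 ^ d := by
    have : pol.natDegree.choose i₀ ≤ 2 ^ d :=
      (Nat.choose_le_two_pow _ _).trans (Nat.pow_le_pow_right (by norm_num) hdeg)
    exact_mod_cast this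
  have h3 : (1 / 2 : ℝ) ^ d ≤ pol.mahlerMeasure := by
    rw [hc] at h1
    have : (1 : ℝ) ≤ 2 ^ d * pol.mahlerMeasure := h1.trans (by gcongr)
    rw [one_div, inv_pow, inv_le_iff_one_le_mul₀' (by positivity)]
    exact this
  have h4 := prod_lower N z hz pol.roots hsh
  have hcard : pol.roots.card ≤ d := (card_roots' pol).trans hdeg
  rw [(IsAlgClosed.splits pol).eval_eq_prod_roots, norm_mul]
  rw [mahlerMeasure_eq_leadingCoeff_mul_prod_roots] at h3
  set S := (pol.roots.map (kk N z)).sum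
  set P := (pol.roots.map fun a => max 1 ‖a‖).prod
  calc (1 / 2 : ℝ) ^ (3 * d + S) = (1 / 2 : ℝ) ^ (2 * d + S) * (1 / 2) ^ d := by ring
    _ ≤ (1 / 2 : ℝ) ^ (2 * pol.roots.card + S) * (‖pol.leadingCoeff‖ * P) :=
        mul_le_mul (pow_le_pow_of_le_one (by norm_num) (by norm_num) (by omega)) h3
          (by positivity) (by positivity)
    _ = ‖pol.leadingCoeff‖ * ((1 / 2 : ℝ) ^ (2 * pol.roots.card + S) * P) := by ring
    _ ≤ _ := mul_le_mul_of_nonneg_left h4 (norm_nonneg _)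

lemma recon (v : ℕ → ℂ) (z : ℂ) (hz : ‖z‖ ≤ 1 / 2) (b : ℕ) (m : ℝ) (hm0 : 0 ≤ m)
    (hm : ∀ i < b, ‖v (i + 1) + z * v i‖ ≤ m) :
    ∀ i ≤ b, ‖v i - (-z) ^ i * v 0‖ ≤ 2 * m := by
  intro i
  induction i with
  | zero => intro _; simpa using hm0
  | succ i ih =>
    intro hi
    have h1 := ih (by omega)
    have h2 := hm i (by omega)
    have e : v (i + 1) - (-z) ^ (i + 1) * v 0 =
        (v (i + 1) + z * v i) - z * (v i - (-z) ^ i * v 0) := by ring
    rw [e]
    calc _ ≤ ‖v (i + 1) + z * v i‖ + ‖z * (v i - (-z) ^ i * v 0)‖ := norm_sub_le _ _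
      _ ≤ m + (1 / 2) * (2 * m) := by
          rw [norm_mul]
          exact add_le_add h2 (mul_le_mul hz h1 (norm_nonneg _) (by norm_num))
      _ = 2 * m := by ring

variable {V : Type} [AddCommGroup V] [Module ℂ V] [FiniteDimensional ℂ V]

lemma exists_rel (A : V →ₗ[ℂ] (ℕ → ℂ)) (K : Submodule ℂ V) :
    ∃ (p : Fin (Module.finrank ℂ K + 1) → ℂ) (i₀ : Fin (Module.finrank ℂ K + 1)),
      p i₀ = 1 ∧ (∀ i, ‖p i‖ ≤ 1) ∧ ∀ q ∈ K, ∑ i, p i * A q i = 0 := by
  let f : Fin (Module.finrank ℂ K + 1) → Module.Dual ℂ K := fun i =>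
    (LinearMap.proj (i : ℕ) : (ℕ → ℂ) →ₗ[ℂ] ℂ) ∘ₗ A ∘ₗ K.subtype
  have hdep : ¬ LinearIndependent ℂ f := by
    intro h
    have := h.fintype_card_le_finrank
    rw [Subspace.dual_finrank_eq, Fintype.card_fin] at this
    omega
  obtain ⟨g, hg, j, hj⟩ := Fintype.not_linearIndependent_iff.1 hdep
  obtain ⟨i₀, -, hi₀⟩ := Finset.exists_max_image Finset.univ (fun i => ‖g i‖) ⟨j, mem_univ _⟩
  have hpos : 0 < ‖g i₀‖ := (norm_pos_iff.2 hj).trans_le (hi₀ j (mem_univ _))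
  have hne : g i₀ ≠ 0 := norm_pos_iff.1 hpos
  refine ⟨fun i => g i / g i₀, i₀, div_self hne, fun i => ?_, fun q hq => ?_⟩
  · rw [norm_div, div_le_one hpos]; exact hi₀ i (mem_univ _)
  · have h0 := congrArg (fun φ : Module.Dual ℂ K => φ ⟨q, hq⟩) hg
    simp only [LinearMap.coe_sum, Finset.sum_apply, LinearMap.smul_apply, smul_eq_mul,
      LinearMap.zero_apply] at h0
    have h1 : ∑ i, g i * A q i = 0 := h0
    calc ∑ i, g i / g i₀ * A q i = (∑ i, g i * A q i) / g i₀ := by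
          rw [Finset.sum_div]; exact Finset.sum_congr rfl fun i _ => by ring
      _ = 0 := by rw [h1, zero_div]

lemma exists_max (w : ℕ → ℂ) (b : ℕ) (hb : 1 ≤ b) : ∃ j < b, ∀ i < b, ‖w i‖ ≤ ‖w j‖ := by
  obtain ⟨j, hj, h⟩ := Finset.exists_max_image (range b) (fun i => ‖w i‖)
    ⟨0, mem_range.2 (by omega)⟩
  exact ⟨j, mem_range.1 hj, fun i hi => h i (mem_range.2 hi)⟩

lemma deep (nq : V → ℝ) (A A' : V →ₗ[ℂ] (ℕ → ℂ)) (K : Submodule ℂ V) (b : ℕ) (hb : 1 ≤ b)
    (τ : ℝ) (z : ℂ) (hz : ‖z‖ ≤ 1 / 2) (hA : ∀ q i, A' q i = A q (i + 1) + z * A q i)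
    (hG : Good nq A K (b + 1) τ) :
    ∃ K' ≤ K, Module.finrank ℂ K - 1 ≤ Module.finrank ℂ K' ∧ Good nq A' K' b (τ * (1 / 2)) := by
  let f : V →ₗ[ℂ] ℂ := (LinearMap.proj (0 : ℕ) : (ℕ → ℂ) →ₗ[ℂ] ℂ) ∘ₗ A
  refine ⟨K ⊓ LinearMap.ker f, inf_le_left, ?_, ?_⟩
  · have h1 := Submodule.finrank_sup_add_finrank_inf_eq K (LinearMap.ker f)
    have h2 := LinearMap.finrank_range_add_finrank_ker f
    have h3 : Module.finrank ℂ (LinearMap.range f) ≤ 1 := by
      simpa using Submodule.finrank_le (LinearMap.range f)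
    have h4 := Submodule.finrank_le (K ⊔ LinearMap.ker f)
    omega
  · intro q hq
    obtain ⟨i, hi, hτ⟩ := hG q hq.1
    have h0 : A q 0 = 0 := hq.2
    obtain ⟨j, hj, hmax⟩ := exists_max (A' q) b hb
    have := recon (A q) z hz b ‖A' q j‖ (norm_nonneg _) (fun k hk => by
      rw [← hA]; exact hmax k hk) i (by omega)
    rw [h0, mul_zero, sub_zero] at this
    exact ⟨j, hj, by linarith⟩

lemma shallow (nq : V → ℝ) (hnq : ∀ q, 0 ≤ nq q) (A : V →ₗ[ℂ] (ℕ → ℂ)) (K : Submodule ℂ V)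
    (b D : ℕ) (hb : 1 ≤ b) (hD : Module.finrank ℂ K ≤ D) (hDb : D ≤ b) (τ : ℝ) (hτ0 : 0 ≤ τ)
    (N : ℕ) (hG : Good nq A K (b + 1) τ) :
    ∃ rs : Multiset ℂ, rs.card ≤ Module.finrank ℂ K ∧
      ∀ (z : ℂ) (A' : V →ₗ[ℂ] (ℕ → ℂ)), ‖z‖ ≤ 1 / 2 →
        (∀ q i, A' q i = A q (i + 1) + z * A q i) → (∀ x ∈ rs, (1 / 2 : ℝ) ^ N < ‖z - x‖) →
        Good nq A' K b (τ * (1 / 2) ^ ((rs.map (kk N z)).sum + 4 * D + 2)) := by
  have hex := exists_rel A K
  generalize Module.finrank ℂ K = d at hex hD ⊢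
  obtain ⟨p, i₀, hp1, hp, hrel⟩ := hex
  let pol : ℂ[X] := ∑ i : Fin (d + 1), monomial (i : ℕ) (p i * (-1) ^ (i : ℕ))
  have hdeg : pol.natDegree ≤ d := by
    refine natDegree_sum_le_of_forall_le _ _ fun i _ => ?_
    exact (natDegree_monomial_le _).trans (Nat.lt_succ_iff.1 i.2)
  have hc : ‖pol.coeff i₀‖ = 1 := by
    have : pol.coeff i₀ = p i₀ * (-1) ^ (i₀ : ℕ) := by
      simp only [pol, finsetSum_coeff, coeff_monomial]
      rw [Finset.sum_eq_single i₀]
      · simp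
      · intro j _ hj
        rw [if_neg]
        exact fun h => hj (Fin.ext h)
      · simp
    rw [this, hp1]; simp
  have hev : ∀ z : ℂ, pol.eval z = ∑ i : Fin (d + 1), p i * (-z) ^ (i : ℕ) := by
    intro z
    simp only [pol, eval_finsetSum, eval_monomial]
    refine Finset.sum_congr rfl fun i _ => ?_
    rw [neg_pow z]; ring
  refine ⟨pol.roots, (card_roots' pol).trans hdeg, fun z A' hz hA hsh q hq => ?_⟩
  obtain ⟨i, hi, hτ⟩ := hG q hq
  obtain ⟨j, hj, hmax⟩ := exists_max (A' q) b hb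
  set m := ‖A' q j‖ with hm
  have hm0 : 0 ≤ m := norm_nonneg _
  have hrec := recon (A q) z hz b m hm0 (fun k hk => by rw [← hA]; exact hmax k hk)
  have hlow := eval_lower pol d i₀ hdeg hc N z hz hsh
  set S := (pol.roots.map (kk N z)).sum
  have h1 : pol.eval z * A q 0 =
      -∑ k : Fin (d + 1), p k * (A q k - (-z) ^ (k : ℕ) * A q 0) := by
    have := hrel q hq
    rw [hev, Finset.sum_mul]
    simp only [mul_sub, Finset.sum_sub_distrib, this, zero_sub, neg_neg, mul_assoc]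
  have h2 : ‖pol.eval z‖ * ‖A q 0‖ ≤ (d + 1) * (2 * m) := by
    rw [← norm_mul, h1, norm_neg]
    calc _ ≤ ∑ k : Fin (d + 1), ‖p k * (A q k - (-z) ^ (k : ℕ) * A q 0)‖ := norm_sum_le _ _
      _ ≤ ∑ _k : Fin (d + 1), 2 * m := by
          refine Finset.sum_le_sum fun k _ => ?_
          rw [norm_mul]
          have := hrec k (by have := k.2; omega)
          calc _ ≤ 1 * (2 * m) := mul_le_mul (hp k) this (norm_nonneg _) (by norm_num)
            _ = 2 * m := one_mul _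
      _ = (d + 1) * (2 * m) := by simp
  have h3 : ((d : ℝ) + 1) ≤ 2 ^ d := by
    have : d + 1 ≤ 2 ^ d := Nat.lt_two_pow_self
    exact_mod_cast this
  have h4 : (1 / 2 : ℝ) ^ (3 * d + S) * ‖A q 0‖ ≤ 2 ^ d * (2 * m) :=
    (mul_le_mul_of_nonneg_right hlow (norm_nonneg _)).trans
      (h2.trans (mul_le_mul_of_nonneg_right h3 (by positivity)))
  have h5 : ‖A q i‖ ≤ ‖A q 0‖ + 2 * m := by
    have hz1 : ‖(-z) ^ i * A q 0‖ ≤ ‖A q 0‖ := by
      rw [norm_mul, norm_pow, norm_neg]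
      exact mul_le_of_le_one_left (norm_nonneg _) (pow_le_one₀ (norm_nonneg _) (by linarith))
    calc ‖A q i‖ = ‖(-z) ^ i * A q 0 + (A q i - (-z) ^ i * A q 0)‖ := by congr 1; ring
      _ ≤ _ := (norm_add_le _ _).trans (add_le_add hz1 (hrec i (by omega)))
  have h6 : (1 / 2 : ℝ) ^ (S + 4 * d + 2) * ‖A q 0‖ ≤ m / 2 := by
    have e : (1 / 2 : ℝ) ^ (S + 4 * d + 2) * ‖A q 0‖ =
        ((1 / 2 : ℝ) ^ d * (1 / 4)) * ((1 / 2 : ℝ) ^ (3 * d + S) * ‖A q 0‖) := by ring
    rw [e]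
    calc _ ≤ ((1 / 2 : ℝ) ^ d * (1 / 4)) * (2 ^ d * (2 * m)) :=
          mul_le_mul_of_nonneg_left h4 (by positivity)
      _ = ((1 / 2 : ℝ) * 2) ^ d * (m / 2) := by rw [mul_pow]; ring
      _ = m / 2 := by norm_num
  have h7 : (1 / 2 : ℝ) ^ (S + 4 * d + 2) ≤ 1 / 4 := by
    calc (1 / 2 : ℝ) ^ (S + 4 * d + 2) ≤ (1 / 2) ^ 2 :=
          pow_le_pow_of_le_one (by norm_num) (by norm_num) (by omega)
      _ = 1 / 4 := by norm_num
  have h8 : (1 / 2 : ℝ) ^ (S + 4 * D + 2) ≤ (1 / 2 : ℝ) ^ (S + 4 * d + 2) :=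
    pow_le_pow_of_le_one (by norm_num) (by norm_num) (by omega)
  refine ⟨j, hj, ?_⟩
  have h9 : 0 ≤ τ * nq q := mul_nonneg hτ0 (hnq q)
  have hρ : (0 : ℝ) ≤ (1 / 2 : ℝ) ^ (S + 4 * d + 2) := by positivity
  calc τ * (1 / 2) ^ (S + 4 * D + 2) * nq q = (1 / 2) ^ (S + 4 * D + 2) * (τ * nq q) := by ring
    _ ≤ (1 / 2) ^ (S + 4 * d + 2) * (‖A q 0‖ + 2 * m) :=
        mul_le_mul h8 (hτ.trans h5) h9 hρ
    _ = (1 / 2) ^ (S + 4 * d + 2) * ‖A q 0‖ + (1 / 2) ^ (S + 4 * d + 2) * (2 * m) := by ring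
    _ ≤ m / 2 + 1 / 4 * (2 * m) :=
        add_le_add h6 (mul_le_mul_of_nonneg_right h7 (by positivity))
    _ = m := by ring

lemma wsum {Ω : Type} [Fintype Ω] (u : Ω → ℝ) (f : Ω → ℂ → ℝ) (B : ℝ)
    (h : ∀ ζ, ∑ ω, u ω * f ω ζ ≤ B) (rs : Multiset ℂ) :
    ∑ ω, u ω * (rs.map (f ω)).sum ≤ rs.card * B := by
  induction rs using Multiset.induction_on with
  | empty => simp
  | cons x rs ih =>
    simp only [Multiset.map_cons, Multiset.sum_cons, mul_add, Finset.sum_add_distrib,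
      Multiset.card_cons]
    push_cast
    have := h x
    linarith

omit [FiniteDimensional ℂ V] in
lemma good_mono {nq : V → ℝ} (hnq : ∀ q, 0 ≤ nq q) {A : V →ₗ[ℂ] (ℕ → ℂ)} {K : Submodule ℂ V}
    {a : ℕ} {σ σ' : ℝ} (h : σ' ≤ σ) (hG : Good nq A K a σ) : Good nq A K a σ' := by
  intro q hq
  obtain ⟨i, hi, h1⟩ := hG q hq
  exact ⟨i, hi, (mul_le_mul_of_nonneg_right h (hnq q)).trans h1⟩

end Stage

open Stage in
theorem stage : StageStm := by
  intro Ω _ V _ _ _ nq u z N D d₁ a Θ φ Vh σ g A hnq hu hz hφ hVh hσ hΘ hD hDa ha hφs hVs hA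
    hg0 hgm hg1 hgs L₀ s₀ K₀ hG₀
  set c : ℝ := D * Vh + 4 * D + 2 with hc
  have hc0 : 0 ≤ c := by positivity
  have hΘ' : (0 : ℝ) < Θ := by exact_mod_cast hΘ
  set U := ∑ ω, u ω with hU
  have hU0 : 0 ≤ U := Finset.sum_nonneg fun ω _ => hu ω
  set bad : Multiset Ω → ℝ := fun s' => ind (¬ ∃ K' ≤ K₀, d₁ ≤ Module.finrank ℂ K' ∧
    Good nq (A s') K' a (σ * (1 / 2) ^ Θ)) with hbad
  have main : ∀ (L : ℕ) (s : Multiset Ω) (K : Submodule ℂ V) (t : ℕ), K ≤ K₀ →
      Good nq (A s) K (a + L) (σ * (1 / 2) ^ t) →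
      E u L bad s ≤ (g L (Module.finrank ℂ K) + (t + L * c) / Θ) * U ^ L := by
    intro L
    induction L with
    | zero =>
      intro s K t hK hG
      have hg := hg0 0 (Module.finrank ℂ K)
      have ht0 : (0 : ℝ) ≤ t / Θ := by positivity
      simp only [E_zero, Nat.cast_zero, zero_mul, add_zero, pow_zero, mul_one]
      by_cases ht : Θ ≤ t
      · have : (1 : ℝ) ≤ t / Θ := by
          rw [le_div_iff₀ hΘ', one_mul]; exact_mod_cast ht
        exact (ind_le_one _).trans (by linarith)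
      by_cases hd : Module.finrank ℂ K < d₁
      · have := hg1 _ hd
        exact (ind_le_one _).trans (by linarith)
      have : bad s = 0 := by
        refine ind_neg (not_not.2 ⟨K, hK, by omega, good_mono hnq ?_ hG⟩)
        exact mul_le_mul_of_nonneg_left
          (pow_le_pow_of_le_one (by norm_num) (by norm_num) (by omega)) hσ
      rw [this]; linarith
    | succ L ih =>
      intro s K t hK hG
      set d := Module.finrank ℂ K with hd
      have hdD : d ≤ D := (Submodule.finrank_le K).trans hD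
      have hG' : Good nq (A s) K (a + L + 1) (σ * (1 / 2) ^ t) := hG
      obtain ⟨rs, hrs, hsh⟩ := shallow nq hnq (A s) K (a + L) D (by omega) hdD (by omega) _
        (by positivity) N hG'
      set Δ := g L (d - 1) - g L d with hΔ
      have hΔ0 : 0 ≤ Δ := sub_nonneg.2 (hgm L _ _ (Nat.sub_le _ _))
      let I : Ω → ℝ := fun ω => (rs.map fun ζ => ind (‖z ω - ζ‖ ≤ (1 / 2 : ℝ) ^ N)).sum
      let S : Ω → ℝ := fun ω => (rs.map fun ζ => (kk N (z ω) ζ : ℝ)).sum
      have hI0 : ∀ ω, 0 ≤ I ω := fun ω => Multiset.sum_nonneg fun y hy => by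
        obtain ⟨x, _, rfl⟩ := Multiset.mem_map.1 hy
        exact ind_nonneg _
      have hS0 : ∀ ω, 0 ≤ S ω := fun ω => Multiset.sum_nonneg fun y hy => by
        obtain ⟨x, _, rfl⟩ := Multiset.mem_map.1 hy
        positivity
      have hUL : 0 ≤ U ^ L := by positivity
      have key : ∀ ω, u ω * E u L bad (ω ::ₘ s) ≤
          u ω * ((g L d + I ω * Δ + (t + S ω + 4 * D + 2 + L * c) / Θ) * U ^ L) := by
        intro ω
        by_cases h0 : u ω = 0
        · simp [h0]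
        refine mul_le_mul_of_nonneg_left ?_ (hu ω)
        by_cases hdeep : ∃ x ∈ rs, ‖z ω - x‖ ≤ (1 / 2 : ℝ) ^ N
        · obtain ⟨x, hx, hxn⟩ := hdeep
          obtain ⟨K', hK', hfin, hGK⟩ := deep nq (A s) (A (ω ::ₘ s)) K (a + L) (by omega) _ (z ω)
            (hz ω h0) (fun q i => hA s ω q i h0) hG'
          have := ih (ω ::ₘ s) K' (t + 1) (hK'.trans hK) (by rw [pow_succ, ← mul_assoc]; exact hGK)
          refine this.trans (mul_le_mul_of_nonneg_right ?_ hUL)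
          have hI1 : 1 ≤ I ω := by
            rw [← ind_pos hxn]
            exact Multiset.single_le_sum (fun y hy => by
              obtain ⟨x, _, rfl⟩ := Multiset.mem_map.1 hy
              exact ind_nonneg _) _ (Multiset.mem_map.2 ⟨x, hx, rfl⟩)
          have h1 : g L (Module.finrank ℂ K') ≤ g L (d - 1) := hgm L _ _ hfin
          have h2 : Δ ≤ I ω * Δ := le_mul_of_one_le_left hΔ0 hI1
          have h3 : (((t + 1 : ℕ) : ℝ) + L * c) / Θ ≤ (t + S ω + 4 * D + 2 + L * c) / Θ := by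
            apply div_le_div_of_nonneg_right _ hΘ'.le
            have := hS0 ω
            have : (0 : ℝ) ≤ D := Nat.cast_nonneg _
            push_cast
            linarith
          linarith
        · push Not at hdeep
          have hGK := hsh (z ω) (A (ω ::ₘ s)) (hz ω h0) (fun q i => hA s ω q i h0) hdeep
          have := ih (ω ::ₘ s) K (t + ((rs.map (kk N (z ω))).sum + 4 * D + 2)) hK
            (by rw [pow_add, ← mul_assoc]; exact hGK)
          refine this.trans (mul_le_mul_of_nonneg_right ?_ hUL)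
          have h2 : 0 ≤ I ω * Δ := mul_nonneg (hI0 ω) hΔ0
          have h3 : ((t + ((rs.map (kk N (z ω))).sum + 4 * D + 2) : ℕ) : ℝ) =
              t + S ω + 4 * D + 2 := by
            simp only [S]
            push_cast
            rw [Multiset.map_map]
            simp only [Function.comp_def]
            ring
          rw [h3]
          linarith
      have hIs : ∑ ω, u ω * I ω ≤ d * (φ * U) :=
        (wsum u (fun ω ζ => ind (‖z ω - ζ‖ ≤ (1 / 2 : ℝ) ^ N)) _ hφs rs).trans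
          (mul_le_mul_of_nonneg_right (by exact_mod_cast hrs) (by positivity))
      have hSs : ∑ ω, u ω * S ω ≤ D * (Vh * U) :=
        (wsum u (fun ω ζ => (kk N (z ω) ζ : ℝ)) _ hVs rs).trans
          (mul_le_mul_of_nonneg_right (by exact_mod_cast hrs.trans hdD) (by positivity))
      rw [E_succ]
      refine (Finset.sum_le_sum fun ω _ => key ω).trans ?_
      have e : ∑ ω, u ω * ((g L d + I ω * Δ + (t + S ω + 4 * D + 2 + L * c) / Θ) * U ^ L) =
          (g L d * U + (∑ ω, u ω * I ω) * Δ +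
            ((t + 4 * D + 2 + L * c) * U + ∑ ω, u ω * S ω) / Θ) * U ^ L := by
        rw [hU, Finset.mul_sum, Finset.mul_sum, Finset.sum_mul, ← Finset.sum_add_distrib,
          ← Finset.sum_add_distrib, Finset.sum_div, ← Finset.sum_add_distrib, Finset.sum_mul]
        exact Finset.sum_congr rfl fun ω _ => by ring
      rw [e, pow_succ', ← mul_assoc]
      refine mul_le_mul_of_nonneg_right ?_ hUL
      have h1 : g L d * U + (∑ ω, u ω * I ω) * Δ ≤ g (L + 1) d * U := by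
        have := hgs L d
        calc g L d * U + (∑ ω, u ω * I ω) * Δ ≤ g L d * U + d * (φ * U) * Δ := by gcongr
          _ = (g L d + d * φ * Δ) * U := by ring
          _ ≤ _ := mul_le_mul_of_nonneg_right this hU0
      have h2 : ((t + 4 * D + 2 + L * c) * U + ∑ ω, u ω * S ω) / Θ ≤
          (t + ((L + 1 : ℕ) : ℝ) * c) / Θ * U := by
        rw [div_mul_eq_mul_div]
        apply div_le_div_of_nonneg_right _ hΘ'.le
        push_cast
        calc _ ≤ (t + 4 * D + 2 + L * c) * U + D * (Vh * U) := by linarith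
          _ = (t + (L + 1) * c) * U := by rw [hc]; ring
      calc _ ≤ g (L + 1) d * U + (t + ((L + 1 : ℕ) : ℝ) * c) / Θ * U := add_le_add h1 h2
        _ = _ := by ring
  have := main L₀ s₀ K₀ 0 le_rfl (by simpa using hG₀)
  simpa using this

end Pool.Agent.H222Z.ES
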