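import Pool.Agent.H18Z.GNAux
import Pool.Agent.H240Z.TA.Bump
import Pool.Agent.H237Z.TA.P1

set_option autoImplicit false

namespace Pool.Agent.H754Z.TA

open MeasureTheory Filter Topology Pointwise

universe u v

theorem gn_of_nss {Q : Type u} [Group Q] [TopologicalSpace Q] [IsTopologicalGroup Q]
    [LocallyCompactSpace Q] [T2Space Q] (O : Set Q) (hO : O ∈ 𝓝 (1 : Q))
    (hnss : ∀ S : Subgroup Q, (S : Set Q) ⊆ O → S = ⊥) (W : Set Q) (hW : W ∈ 𝓝 (1 : Q)) :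
    ∃ (ν : Q → ℝ) (C : ℝ), IsGN ν C ∧ ∀ x, ν x ≤ 1 / C → x ∈ W := by
  refine P4.gn_aux (fun U a b c d ε e => engine U a b c d ε e) ?_ O hO hnss W hW
  intro ν hν hc r c hr hK hconj
  borelize Q
  obtain ⟨H, M, h0, -, -, h1, h2, -, -, h3⟩ :=
    exists_bump (Measure.haar : Measure Q) ν hν hc r c hr hK hconj r hr le_rfl
  exact ⟨H, M, h0, h1, h2, h3⟩

end Pool.Agent.H754Z.TA
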