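import Pool.Agent.H754Z.TA.Str

set_option autoImplicit false

namespace Pool.Agent.H754Z.TA

open MeasureTheory Filter Topology Pointwise

universe u v

namespace P4

section alg

variable {G : Type u} [Group G]

/-- The first `n` powers of `g` stay in `X`. -/
def Tr (X : Set G) (n : ℕ) (g : G) : Prop := ∀ i ≤ n, g ^ i ∈ X

/-- The escape norm. -/
noncomputable def esc (X : Set G) (g : G) : ℝ :=
  sInf {r : ℝ | ∃ n : ℕ, Tr X n g ∧ r = 1 / ((n : ℝ) + 1)}

theorem tr_zero {X : Set G} (h1 : (1 : G) ∈ X) (g : G) : Tr X 0 g := by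
  intro i hi
  obtain rfl : i = 0 := by omega
  simpa using h1

theorem esc_bdd (X : Set G) (g : G) :
    BddBelow {r : ℝ | ∃ n : ℕ, Tr X n g ∧ r = 1 / ((n : ℝ) + 1)} :=
  ⟨0, by rintro r ⟨n, -, rfl⟩; positivity⟩

theorem esc_le_of_tr {X : Set G} {n : ℕ} {g : G} (h : Tr X n g) : esc X g ≤ 1 / ((n : ℝ) + 1) :=
  csInf_le (esc_bdd X g) ⟨n, h, rfl⟩

theorem le_esc {X : Set G} (h1 : (1 : G) ∈ X) {g : G} {a : ℝ}
    (h : ∀ n : ℕ, Tr X n g → a ≤ 1 / ((n : ℝ) + 1)) : a ≤ esc X g :=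
  le_csInf ⟨_, 0, tr_zero h1 g, rfl⟩ (by rintro r ⟨n, hn, rfl⟩; exact h n hn)

theorem esc_nonneg {X : Set G} (h1 : (1 : G) ∈ X) (g : G) : 0 ≤ esc X g :=
  le_esc h1 fun n _ => by positivity

theorem esc_le_one {X : Set G} (h1 : (1 : G) ∈ X) (g : G) : esc X g ≤ 1 := by
  simpa using esc_le_of_tr (tr_zero h1 g)

theorem tr_of_lt {X : Set G} (h1 : (1 : G) ∈ X) {g : G} {n : ℕ} (h : n * esc X g < 1) :
    Tr X n g := by
  by_contra hn
  have : 1 / (n : ℝ) ≤ esc X g := by
    refine le_esc h1 fun k hk => ?_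
    have hkn : k + 1 ≤ n := by
      by_contra hc
      exact hn fun i hi => hk i (by omega)
    have : ((k : ℝ) + 1) ≤ n := by exact_mod_cast hkn
    exact one_div_le_one_div_of_le (by positivity) this
  rcases Nat.eq_zero_or_pos n with rfl | hpos
  · exact hn (tr_zero h1 g)
  · have hn' : (0 : ℝ) < n := by exact_mod_cast hpos
    rw [div_le_iff₀ hn'] at this
    linarith

theorem esc_le {X : Set G} {g : G} {a : ℝ} (ha : 0 ≤ a)
    (h : ∀ n : ℕ, n * a < 1 → Tr X n g) : esc X g ≤ a := by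
  rcases ha.eq_or_lt with rfl | hpos
  · refine le_of_forall_pos_le_add fun ε hε => ?_
    obtain ⟨n, hn⟩ := exists_nat_one_div_lt hε
    have := esc_le_of_tr (h n (by simp))
    linarith
  · have h1 : 0 < ⌈1 / a⌉₊ := Nat.ceil_pos.2 (by positivity)
    obtain ⟨n, hn⟩ : ∃ n, ⌈1 / a⌉₊ = n + 1 := ⟨⌈1 / a⌉₊ - 1, by omega⟩
    have h2 : (n : ℝ) < 1 / a := Nat.lt_ceil.1 (by omega)
    have h3 : 1 / a ≤ (n : ℝ) + 1 := by
      have := Nat.le_ceil (1 / a)
      rw [hn] at this
      exact_mod_cast this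
    rw [lt_div_iff₀ hpos] at h2
    refine (esc_le_of_tr (h n h2)).trans ?_
    rw [div_le_iff₀ hpos] at h3
    rw [div_le_iff₀ (by positivity)]
    linarith

theorem esc_le_esc {X Y : Set G} (h1 : (1 : G) ∈ X) {g g' : G}
    (h : ∀ n, Tr X n g → Tr Y n g') : esc Y g' ≤ esc X g :=
  le_esc h1 fun n hn => esc_le_of_tr (h n hn)

theorem esc_inv {X : Set G} (h1 : (1 : G) ∈ X) (hs : ∀ x ∈ X, x⁻¹ ∈ X) (g : G) :
    esc X g⁻¹ = esc X g := by
  have key : ∀ g : G, esc X g⁻¹ ≤ esc X g := fun g =>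
    esc_le_esc h1 fun n hn i hi => by rw [inv_pow]; exact hs _ (hn i hi)
  exact le_antisymm (key g) (by simpa using key g⁻¹)

theorem esc_one {X : Set G} (h1 : (1 : G) ∈ X) : esc X (1 : G) = 0 :=
  le_antisymm (esc_le le_rfl fun n _ i _ => by simpa using h1) (esc_nonneg h1 1)

theorem mem_of_esc_lt {X : Set G} (h1 : (1 : G) ∈ X) {g : G} (h : esc X g < 1) : g ∈ X := by
  simpa using tr_of_lt h1 (n := 1) (by simpa using h) 1 le_rfl

theorem len_pow {N : G → ℝ} (h : IsLen N) (g : G) (n : ℕ) : N (g ^ n) ≤ n * N g := by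
  induction n with
  | zero => simp [h.one]
  | succ n ih =>
    rw [pow_succ]
    refine (h.mul _ _).trans ?_
    push_cast
    linarith

theorem len_prod {N : G → ℝ} (h : IsLen N) (l : List G) : N l.prod ≤ (l.map N).sum := by
  induction l with
  | nil => simp [h.one]
  | cons a l ih =>
    simp only [List.prod_cons, List.map_cons, List.sum_cons]
    exact (h.mul _ _).trans (by linarith)

theorem esc_le_len {X : Set G} {N : G → ℝ} (h : IsLen N) (hX : ∀ x, N x < 1 → x ∈ X) (g : G) :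
    esc X g ≤ N g := by
  refine esc_le (h.nonneg g) fun n hn i hi => hX _ ((len_pow h g i).trans_lt (lt_of_le_of_lt ?_ hn))
  exact mul_le_mul_of_nonneg_right (by exact_mod_cast hi) (h.nonneg g)

theorem len_min {N : G → ℝ} (h : IsLen N) : IsLen fun x => min 1 (N x) where
  nonneg x := le_min zero_le_one (h.nonneg x)
  one := by simp [h.one]
  inv x := by rw [h.inv]
  mul x y := by
    have h1 := h.mul x y
    have h2 := h.nonneg x
    have h3 := h.nonneg y
    rcases le_total 1 (N x) with a | a <;> rcases le_total 1 (N y) with b | b <;>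
      simp only [min_eq_left, min_eq_right, a, b, min_le_iff] <;>
      first | (left; linarith) | (right; linarith)

theorem len_smul {N : G → ℝ} (h : IsLen N) {M : ℝ} (hM : 0 ≤ M) : IsLen fun x => M * N x where
  nonneg x := mul_nonneg hM (h.nonneg x)
  one := by simp [h.one]
  inv x := by rw [h.inv]
  mul x y := by rw [← mul_add]; exact mul_le_mul_of_nonneg_left (h.mul x y) hM

/-- The largest length function below `f`. -/
noncomputable def linf (f : G → ℝ) (x : G) : ℝ :=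
  sInf {s : ℝ | ∃ l : List G, l.prod = x ∧ s = (l.map f).sum}

omit [Group G] in
theorem sum_nonneg' {f : G → ℝ} (hf : ∀ x, 0 ≤ f x) (l : List G) : 0 ≤ (l.map f).sum :=
  List.sum_nonneg fun y hy => by
    obtain ⟨a, _, rfl⟩ := List.mem_map.1 hy
    exact hf a

theorem linf_le {f : G → ℝ} (hf : ∀ x, 0 ≤ f x) (l : List G) : linf f l.prod ≤ (l.map f).sum :=
  csInf_le ⟨0, by rintro s ⟨l, -, rfl⟩; exact sum_nonneg' hf l⟩ ⟨l, rfl, rfl⟩

theorem le_linf {f : G → ℝ} {x : G} {a : ℝ} (h : ∀ l : List G, l.prod = x → a ≤ (l.map f).sum) :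
    a ≤ linf f x :=
  le_csInf ⟨_, [x], by simp, rfl⟩ (by rintro s ⟨l, hl, rfl⟩; exact h l hl)

theorem linf_le_self {f : G → ℝ} (hf : ∀ x, 0 ≤ f x) (x : G) : linf f x ≤ f x := by
  simpa using linf_le hf [x]

theorem linf_len {f : G → ℝ} (hf : ∀ x, 0 ≤ f x) (hi : ∀ x, f x⁻¹ = f x) : IsLen (linf f) where
  nonneg x := le_linf fun l _ => sum_nonneg' hf l
  one := le_antisymm (by simpa using linf_le hf []) (le_linf fun l _ => sum_nonneg' hf l)
  inv x := by
    have key : ∀ x : G, linf f x⁻¹ ≤ linf f x := by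
      intro x
      refine le_linf fun l hl => ?_
      have := linf_le hf (l.map fun y => y⁻¹).reverse
      rw [← List.prod_inv_reverse, hl, List.map_reverse, List.sum_reverse, List.map_map] at this
      have e : (f ∘ fun y => y⁻¹) = f := funext hi
      rwa [e] at this
    exact le_antisymm (key x) (by simpa using key x⁻¹)
  mul x y := by
    have : linf f (x * y) - linf f y ≤ linf f x := by
      refine le_linf fun l hl => ?_
      have : linf f (x * y) - (l.map f).sum ≤ linf f y := by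
        refine le_linf fun l' hl' => ?_
        have := linf_le hf (l ++ l')
        rw [List.prod_append, hl, hl', List.map_append, List.sum_append] at this
        linarith
      linarith
    linarith

theorem le_mul_linf {f : G → ℝ} {e : G → ℝ} {M : ℝ} (hM : 0 < M)
    (h : ∀ l : List G, e l.prod ≤ M * (l.map f).sum) (x : G) : e x ≤ M * linf f x := by
  have : e x / M ≤ linf f x := le_linf fun l hl => by
    rw [div_le_iff₀' hM, ← hl]; exact h l
  rwa [div_le_iff₀' hM] at this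

omit [Group G] in
theorem sum_le_mul {f g : G → ℝ} {c : ℝ} (h : ∀ x, f x ≤ c * g x) (l : List G) :
    (l.map f).sum ≤ c * (l.map g).sum := by
  induction l with
  | nil => simp
  | cons a l ih =>
    simp only [List.map_cons, List.sum_cons, mul_add]
    exact add_le_add (h a) ih

omit [Group G] in
theorem sum_add_const (f : G → ℝ) (δ : ℝ) (l : List G) :
    (l.map fun g => f g + δ).sum = (l.map f).sum + l.length * δ := by
  induction l with
  | nil => simp
  | cons a l ih =>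
    simp only [List.map_cons, List.sum_cons, List.length_cons, ih]
    push_cast
    ring

/-- The bootstrap argument. -/
theorem boot {U K V : Set G} (hU1 : (1 : G) ∈ U) (hUs : ∀ x ∈ U, x⁻¹ ∈ U) (hV1 : (1 : G) ∈ V)
    (hUK : U * U * U ⊆ K) {D DV : ℝ} (hD : 0 < D) (hDV : 0 < DV)
    (hDU : ∀ g, esc U g ≤ D * esc K g) (hDVU : ∀ g, esc V g ≤ DV * esc U g)
    (hE : ∀ N : G → ℝ, IsLen N → (∀ x, N x < 1 → x ∈ U) →
      ∃ N' : G → ℝ, IsLen N' ∧ (∀ x, N' x < 1 → x ∈ U * U * U) ∧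
        ∀ (h : G) (n : ℕ), 0 < n → (∀ i ≤ n, h ^ i ∈ V) → N' h ≤ 1 / n + 1 / (2 * D) * N h)
    (l : List G) : esc U l.prod ≤ 4 * D * DV * (l.map (esc U)).sum := by
  have he0 := esc_nonneg hU1
  have step : ∀ δ > (0 : ℝ), ∀ M > (0 : ℝ),
      (∀ l : List G, esc U l.prod ≤ M * (l.map fun g => esc U g + δ).sum) →
      ∀ l : List G, esc U l.prod ≤ (2 * D * DV + M / 2) * (l.map fun g => esc U g + δ).sum := by
    intro δ hδ M hM hA l
    have hf0 : ∀ g, 0 ≤ esc U g + δ := fun g => by have := he0 g; linarith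
    have hNs : IsLen (linf fun g => esc U g + δ) :=
      linf_len hf0 fun g => by rw [esc_inv hU1 hUs]
    obtain ⟨N', hN', hN'U, hN'le⟩ := hE _ (len_smul hNs hM.le) fun x hx =>
      mem_of_esc_lt hU1 ((le_mul_linf hM hA x).trans_lt hx)
    have hN'' := len_min hN'
    have h1 : ∀ x, esc K x ≤ min 1 (N' x) := esc_le_len hN'' fun x hx => by
      rcases min_lt_iff.1 hx with h | h
      · exact absurd h (lt_irrefl _)
      · exact hUK (hN'U x h)
    have h2 : ∀ h, min 1 (N' h) ≤ (2 * DV + M / (2 * D)) * (esc U h + δ) := by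
      intro h
      have hN0 := (len_smul hNs hM.le).nonneg h
      have hN1 : M * linf (fun g => esc U g + δ) h ≤ M * (esc U h + δ) :=
        mul_le_mul_of_nonneg_left (linf_le_self hf0 h) hM.le
      have hε : (0 : ℝ) ≤ 1 / (2 * D) := by positivity
      have h3 : (min 1 (N' h) - 1 / (2 * D) * (M * linf (fun g => esc U g + δ) h)) / 2 ≤
          esc V h := by
        refine le_esc hV1 fun n hn => ?_
        have h4 := mul_nonneg hε hN0
        rcases Nat.eq_zero_or_pos n with rfl | hpos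
        · have := min_le_left 1 (N' h)
          simp only [Nat.cast_zero, zero_add, div_one]
          linarith
        · have h5 := hN'le h n hpos hn
          have h6 := min_le_right 1 (N' h)
          have hn1 : (1 : ℝ) ≤ n := by exact_mod_cast hpos
          have h7 : 1 / (n : ℝ) / 2 ≤ 1 / ((n : ℝ) + 1) := by
            rw [div_div]
            exact one_div_le_one_div_of_le (by positivity) (by linarith)
          linarith
      have h8 := hDVU h
      have h9 := mul_le_mul_of_nonneg_left hN1 hε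
      have h10 : 0 ≤ DV * δ := by positivity
      have e : (2 * DV + M / (2 * D)) * (esc U h + δ) =
          2 * (DV * esc U h) + 2 * (DV * δ) + 1 / (2 * D) * (M * (esc U h + δ)) := by ring
      rw [e]
      linarith
    calc esc U l.prod ≤ D * esc K l.prod := hDU _
      _ ≤ D * ((2 * DV + M / (2 * D)) * (l.map fun g => esc U g + δ).sum) :=
          mul_le_mul_of_nonneg_left ((h1 _).trans ((len_prod hN'' l).trans (sum_le_mul h2 l))) hD.le
      _ = _ := by field_simp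
  have iter : ∀ δ > (0 : ℝ), ∀ k : ℕ, ∀ l : List G,
      esc U l.prod ≤ (4 * D * DV + 1 / δ * (1 / 2) ^ k) * (l.map fun g => esc U g + δ).sum := by
    intro δ hδ k
    induction k with
    | zero =>
      intro l
      cases l with
      | nil => simp [esc_one hU1]
      | cons a l =>
        have h1 := esc_le_one hU1 (a :: l).prod
        have h2 : δ ≤ ((a :: l).map fun g => esc U g + δ).sum := by
          simp only [List.map_cons, List.sum_cons]
          have := sum_nonneg' (f := fun g => esc U g + δ)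
            (fun g => by have := he0 g; linarith) l
          have := he0 a
          linarith
        have h3 : 1 / δ ≤ 4 * D * DV + 1 / δ * (1 / 2) ^ 0 := by
          have : 0 ≤ 4 * D * DV := by positivity
          simpa using this
        calc _ ≤ 1 := h1
          _ = 1 / δ * δ := by field_simp
          _ ≤ _ := mul_le_mul h3 h2 hδ.le (by positivity)
    | succ k ih =>
      intro l
      have := step δ hδ _ (by positivity) ih l
      convert this using 2
      ring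
  have lim : ∀ δ > (0 : ℝ), esc U l.prod ≤ 4 * D * DV * (l.map fun g => esc U g + δ).sum := by
    intro δ hδ
    have ht : Tendsto (fun k : ℕ => (4 * D * DV + 1 / δ * (1 / 2) ^ k) *
        (l.map fun g => esc U g + δ).sum) atTop
        (𝓝 ((4 * D * DV + 1 / δ * 0) * (l.map fun g => esc U g + δ).sum)) :=
      (((tendsto_pow_atTop_nhds_zero_of_lt_one (by norm_num) (by norm_num)).const_mul
        _).const_add _).mul_const _
    simpa using ge_of_tendsto' ht fun k => iter δ hδ k l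
  have ht : Tendsto (fun δ : ℝ => 4 * D * DV * ((l.map (esc U)).sum + l.length * δ)) (𝓝[>] 0)
      (𝓝 (4 * D * DV * ((l.map (esc U)).sum + l.length * 0))) :=
    tendsto_nhdsWithin_of_tendsto_nhds (Continuous.tendsto (by fun_prop) 0)
  have := ge_of_tendsto ht (eventually_nhdsWithin_of_forall fun δ hδ => by
    rw [← sum_add_const]; exact lim δ hδ)
  simpa using this

theorem escape {U : Set G} {ν : G → ℝ} (hν : IsLen ν) {M : ℝ} (hM : 0 < M)
    (h1 : ∀ x, ν x ≤ esc U x) (h2 : ∀ x, M * ν x < 1 → x ∈ U) (g : G) (n : ℕ)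
    (hn : n * ν g ≤ 1 / (2 * M)) : n * ν g ≤ 2 * M * ν (g ^ n) := by
  rcases Nat.eq_zero_or_pos n with rfl | hpos
  · simp [hν.one]
  have hn' : (0 : ℝ) < n := by exact_mod_cast hpos
  have hs := hν.nonneg (g ^ n)
  have : esc U g ≤ 2 * M * ν (g ^ n) / n := by
    refine esc_le (by positivity) fun k hk i hi => h2 _ ?_
    have e : g ^ i = (g ^ n) ^ (i / n) * g ^ (i % n) := by
      rw [← pow_mul, ← pow_add, Nat.div_add_mod]
    have a1 : ν (g ^ i) ≤ (i / n : ℕ) * ν (g ^ n) + (i % n : ℕ) * ν g := by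
      rw [e]
      exact (hν.mul _ _).trans (add_le_add (len_pow hν _ _) (len_pow hν _ _))
    have a2 : ((i % n : ℕ) : ℝ) * ν g ≤ n * ν g :=
      mul_le_mul_of_nonneg_right (by exact_mod_cast (Nat.mod_lt i hpos).le) (hν.nonneg g)
    have a3 : ((i / n : ℕ) : ℝ) ≤ k / n := by
      refine Nat.cast_div_le.trans ?_
      exact div_le_div_of_nonneg_right (by exact_mod_cast hi) hn'.le
    have a4 : ((i / n : ℕ) : ℝ) * ν (g ^ n) ≤ k / n * ν (g ^ n) :=
      mul_le_mul_of_nonneg_right a3 hs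
    have a5 : M * (k / n * ν (g ^ n)) < 1 / 2 := by
      have : M * (k / n * ν (g ^ n)) = k * (2 * M * ν (g ^ n) / n) / 2 := by ring
      rw [this]; linarith
    have a6 : M * (1 / (2 * M)) = 1 / 2 := by field_simp
    have a7 : M * ν (g ^ i) ≤ M * (k / n * ν (g ^ n) + 1 / (2 * M)) :=
      mul_le_mul_of_nonneg_left (by linarith) hM.le
    rw [mul_add] at a7
    linarith
  have h3 := (h1 g).trans this
  rw [le_div_iff₀' hn'] at h3
  exact h3

theorem esc_le_bump {U : Set G} (H : G → ℝ) (hH : 0 < H 1) (hU : ∀ x, H x⁻¹ ≠ 0 → x ∈ U)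
    (x : G) {b : ℝ} (hb : ∀ z, |H (x * z) - H z| ≤ b) : esc U x ≤ b / H 1 := by
  have hb0 : 0 ≤ b := (abs_nonneg _).trans (hb 1)
  have key : ∀ (i : ℕ) z, |H (x ^ i * z) - H z| ≤ i * b := by
    intro i
    induction i with
    | zero => intro z; simp
    | succ i ih =>
      intro z
      have h1 := hb (x ^ i * z)
      have h2 := ih z
      rw [pow_succ', mul_assoc]
      push_cast
      calc _ ≤ |H (x * (x ^ i * z)) - H (x ^ i * z)| + |H (x ^ i * z) - H z| := abs_sub_le _ _ _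
        _ ≤ _ := by linarith
  refine esc_le (by positivity) fun n hn i hi => hU _ fun h0 => ?_
  have h1 := key i (x ^ i)⁻¹
  rw [mul_inv_cancel, h0, sub_zero, abs_of_pos hH] at h1
  have h2 : (i : ℝ) * b ≤ n * b := mul_le_mul_of_nonneg_right (by exact_mod_cast hi) hb0
  rw [← mul_div_assoc, div_lt_one hH] at hn
  linarith

end alg

section top

variable {G : Type u} [Group G] [TopologicalSpace G] [IsTopologicalGroup G]

theorem tr_nhds {X : Set G} (hX : X ∈ 𝓝 (1 : G)) (n : ℕ) : ∀ᶠ g in 𝓝 (1 : G), Tr X n g := by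
  have : ∀ᶠ g in 𝓝 (1 : G), ∀ i ∈ Finset.range (n + 1), g ^ i ∈ X := by
    rw [Finset.eventually_all]
    intro i _
    have : Tendsto (fun g : G => g ^ i) (𝓝 1) (𝓝 1) := by
      simpa using (continuous_pow i).tendsto (1 : G)
    exact this hX
  filter_upwards [this] with g hg i hi using hg i (Finset.mem_range.2 (by omega))

theorem esc_small {X : Set G} (hX : X ∈ 𝓝 (1 : G)) {ε : ℝ} (hε : 0 < ε) :
    ∀ᶠ g in 𝓝 (1 : G), esc X g < ε := by
  obtain ⟨n, hn⟩ := exists_nat_one_div_lt hε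
  filter_upwards [tr_nhds hX n] with g hg using (esc_le_of_tr hg).trans_lt hn

theorem len_cont {ν : G → ℝ} (hν : IsLen ν) (h : ∀ ε > 0, ∀ᶠ g in 𝓝 (1 : G), ν g < ε) :
    Continuous ν := by
  refine continuous_iff_continuousAt.2 fun x => Metric.tendsto_nhds.2 fun ε hε => ?_
  have ht : Tendsto (fun y : G => x⁻¹ * y) (𝓝 x) (𝓝 1) := by
    simpa using (continuous_const_mul x⁻¹).tendsto x
  filter_upwards [ht.eventually (h ε hε)] with y hy
  have h1 := hν.mul x (x⁻¹ * y)
  have h2 := hν.mul y (x⁻¹ * y)⁻¹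
  rw [hν.inv] at h2
  simp only [mul_inv_cancel_left, mul_inv_rev, inv_inv] at h1 h2
  rw [Real.dist_eq, abs_lt]
  constructor <;> linarith

theorem compare [T2Space G] {K : Set G} (hK : IsCompact K) (hK1 : (1 : G) ∈ K)
    (hKs : ∀ x ∈ K, x⁻¹ ∈ K) (hnss : ∀ S : Subgroup G, (S : Set G) ⊆ K → S = ⊥)
    {V : Set G} (hV : V ∈ 𝓝 (1 : G)) : ∃ D : ℝ, 0 < D ∧ ∀ g, esc V g ≤ D * esc K g := by
  have hm : ∃ m : ℕ, ∀ g, Tr K (m + 1) g → g ∈ interior V := by
    by_contra hc
    push Not at hc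
    have hcl : ∀ m : ℕ, IsClosed ({g | Tr K (m + 1) g} ∩ (interior V)ᶜ) := by
      intro m
      refine IsClosed.inter ?_ isOpen_interior.isClosed_compl
      have : {g | Tr K (m + 1) g} = ⋂ i ∈ {i | i ≤ m + 1}, (fun g : G => g ^ i) ⁻¹' K := by
        ext g; simp [Tr]
      rw [this]
      exact isClosed_biInter fun i _ => hK.isClosed.preimage (continuous_pow i)
    obtain ⟨g, hg⟩ := IsCompact.nonempty_iInter_of_sequence_nonempty_isCompact_isClosed
      (fun m : ℕ => {g | Tr K (m + 1) g} ∩ (interior V)ᶜ)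
      (fun m g hg => ⟨fun i hi => hg.1 i (by omega), hg.2⟩)
      (fun m => by obtain ⟨g, h1, h2⟩ := hc m; exact ⟨g, h1, h2⟩)
      (hK.of_isClosed_subset (hcl 0) fun g hg => by simpa using hg.1 1 le_rfl) hcl
    rw [Set.mem_iInter] at hg
    have hp : ∀ i : ℕ, g ^ i ∈ K := fun i => (hg i).1 i (by omega)
    have hb := hnss (Subgroup.zpowers g) (by
      rintro _ ⟨j, rfl⟩
      cases j with
      | ofNat i => simpa using hp i
      | negSucc i => simpa using hKs _ (hp (i + 1)))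
    rw [Subgroup.zpowers_eq_bot] at hb
    exact (hg 0).2 (hb ▸ mem_interior_iff_mem_nhds.2 hV)
  obtain ⟨m, hm⟩ := hm
  refine ⟨m + 1, by positivity, fun g => ?_⟩
  have h0 := esc_nonneg hK1 g
  refine esc_le (by positivity) fun n hn i hi => interior_subset (hm _ fun j hj => ?_)
  have : Tr K (n * (m + 1)) g := tr_of_lt hK1 (by push_cast; rw [mul_assoc]; exact hn)
  rw [← pow_mul]
  exact this _ (Nat.mul_le_mul hi hj)

/-- The main argument, with the two analytic inputs as hypotheses. -/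
theorem gn_aux [LocallyCompactSpace G] [T2Space G]
    (hE : ∀ (U : Set G), IsOpen U → (1 : G) ∈ U → (∀ x ∈ U, x⁻¹ ∈ U) → IsCompact (closure U) →
      ∀ ε : ℝ, 0 < ε → ∃ V ∈ 𝓝 (1 : G), ∀ N : G → ℝ, IsLen N → (∀ x, N x < 1 → x ∈ U) →
      ∃ N' : G → ℝ, IsLen N' ∧ (∀ x, N' x < 1 → x ∈ U * U * U) ∧
        ∀ (h : G) (n : ℕ), 0 < n → (∀ i ≤ n, h ^ i ∈ V) → N' h ≤ 1 / n + ε * N h)
    (hB : ∀ (ν : G → ℝ), IsLen ν → Continuous ν → ∀ r c : ℝ, 0 < r → IsCompact {x | ν x ≤ r} →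
      (∀ g y, ν y ≤ r → ν g ≤ r → ν (y⁻¹ * g * y) ≤ c * ν g) →
      ∃ (H : G → ℝ) (M : ℝ), 0 ≤ M ∧ (∀ x, H x ≠ 0 → ν x ≤ r) ∧ 0 < H 1 ∧
        ∀ g h x, ν g ≤ r / 2 → ν h ≤ r / 2 →
          |H (g * h * x) - H (g * x) - H (h * x) + H x| ≤ M * ν g * ν h)
    (O : Set G) (hO : O ∈ 𝓝 (1 : G))
    (hnss : ∀ S : Subgroup G, (S : Set G) ⊆ O → S = ⊥) (W : Set G) (hW : W ∈ 𝓝 (1 : G)) :
    ∃ (ν : G → ℝ) (C : ℝ), IsGN ν C ∧ ∀ x, ν x ≤ 1 / C → x ∈ W := by
  obtain ⟨K₀, hK₀, hK₀O, hK₀c⟩ := local_compact_nhds (inter_mem hO hW)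
  set K := K₀ ∩ K₀⁻¹ with hKdef
  have hKn : K ∈ 𝓝 (1 : G) := inter_mem hK₀ (inv_mem_nhds_one G hK₀)
  have hKc : IsCompact K := hK₀c.inter_right hK₀c.inv.isClosed
  have hK1 : (1 : G) ∈ K := mem_of_mem_nhds hKn
  have hKs : ∀ x ∈ K, x⁻¹ ∈ K := fun x hx => ⟨hx.2, by simpa using hx.1⟩
  have hKnss : ∀ S : Subgroup G, (S : Set G) ⊆ K → S = ⊥ := fun S hS =>
    hnss S fun x hx => (hK₀O (hS hx).1).1
  obtain ⟨U₁, hU₁o, hU₁1, hU₁⟩ := exists_open_nhds_one_mul_subset hKn
  obtain ⟨U₂, hU₂o, hU₂1, hU₂⟩ := exists_open_nhds_one_mul_subset (hU₁o.mem_nhds hU₁1)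
  set U := U₂ ∩ U₂⁻¹ with hUdef
  have hUo : IsOpen U := hU₂o.inter hU₂o.inv
  have hU1 : (1 : G) ∈ U := ⟨hU₂1, by simpa using hU₂1⟩
  have hUs : ∀ x ∈ U, x⁻¹ ∈ U := fun x hx => ⟨hx.2, by simpa using hx.1⟩
  have hU21 : U₂ ⊆ U₁ := fun x hx => hU₂ ⟨x, hx, 1, hU₂1, mul_one x⟩
  have hU3 : U * U * U ⊆ K := by
    rintro _ ⟨_, ⟨a, ha, b, hb, rfl⟩, c, hc, rfl⟩
    exact hU₁ ⟨_, hU₂ ⟨a, ha.1, b, hb.1, rfl⟩, c, hU21 hc.1, rfl⟩
  have hUK : U ⊆ K := fun x hx => hU3 ⟨1 * 1, ⟨1, hU1, 1, hU1, rfl⟩, x, hx, by simp⟩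
  have hUn : U ∈ 𝓝 (1 : G) := hUo.mem_nhds hU1
  have hUc : IsCompact (closure U) :=
    hKc.of_isClosed_subset isClosed_closure (closure_minimal hUK hKc.isClosed)
  have hKU : ∀ g, esc K g ≤ esc U g := fun g => esc_le_esc hU1 fun n hn i hi => hUK (hn i hi)
  have cmp : ∀ V ∈ 𝓝 (1 : G), ∃ D : ℝ, 0 < D ∧ ∀ g, esc V g ≤ D * esc U g := by
    intro V hV
    obtain ⟨D, hD, h⟩ := compare hKc hK1 hKs hKnss hV
    exact ⟨D, hD, fun g => (h g).trans (mul_le_mul_of_nonneg_left (hKU g) hD.le)⟩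
  obtain ⟨D, hD, hDU⟩ := compare hKc hK1 hKs hKnss hUn
  obtain ⟨V, hV, hEV⟩ := hE U hUo hU1 hUs hUc (1 / (2 * D)) (by positivity)
  obtain ⟨DV, hDV, hDVU⟩ := cmp V hV
  have hboot := boot hU1 hUs (mem_of_mem_nhds hV) hU3 hD hDV hDU hDVU hEV
  set M₁ := 4 * D * DV with hM₁
  have hM₁0 : 0 < M₁ := by positivity
  set ν := linf (esc U) with hνdef
  have hν : IsLen ν := linf_len (esc_nonneg hU1) (esc_inv hU1 hUs)
  have hνe : ∀ x, ν x ≤ esc U x := linf_le_self (esc_nonneg hU1)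
  have heν : ∀ x, esc U x ≤ M₁ * ν x := le_mul_linf hM₁0 hboot
  have hνU : ∀ x, M₁ * ν x < 1 → x ∈ U := fun x hx => mem_of_esc_lt hU1 ((heν x).trans_lt hx)
  have hνc : Continuous ν := len_cont hν fun ε hε => by
    filter_upwards [esc_small hUn hε] with g hg using (hνe g).trans_lt hg
  have hball : ∀ ρ ≤ 1 / (2 * M₁), ∀ x, ν x ≤ ρ → x ∈ U := by
    intro ρ hρ x hx
    refine hνU x ?_
    have : M₁ * ν x ≤ M₁ * (1 / (2 * M₁)) := mul_le_mul_of_nonneg_left (hx.trans hρ) hM₁0.le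
    have e : M₁ * (1 / (2 * M₁)) = 1 / 2 := by field_simp
    linarith
  have hcpt : ∀ ρ ≤ 1 / (2 * M₁), IsCompact {x | ν x ≤ ρ} := fun ρ hρ =>
    hKc.of_isClosed_subset (isClosed_le hνc continuous_const) fun x hx => hUK (hball ρ hρ x hx)
  have hV' : ∀ᶠ g in 𝓝 (1 : G), ∀ y ∈ K, y⁻¹ * g * y ∈ U := by
    refine hKc.eventually_forall_of_forall_eventually fun y _ => ?_
    have : Tendsto (fun p : G × G => p.2⁻¹ * p.1 * p.2) (𝓝 (1, y)) (𝓝 1) := by
      have hc : Continuous fun p : G × G => p.2⁻¹ * p.1 * p.2 := by fun_prop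
      simpa using hc.tendsto (1, y)
    exact this hUn
  obtain ⟨D', hD', hD'U⟩ := cmp _ hV'
  obtain ⟨H, M, hM, hHs, hH1, hH2⟩ := hB ν hν hνc (1 / (2 * M₁)) (D' * M₁) (by positivity)
    (hcpt _ le_rfl) (by
      intro g y hy _
      have hyK : y ∈ K := hUK (hball _ le_rfl y hy)
      have h1 : esc U (y⁻¹ * g * y) ≤ esc {g | ∀ y ∈ K, y⁻¹ * g * y ∈ U} g := by
        refine esc_le_esc (mem_of_mem_nhds hV') fun n hn i hi => ?_
        have : (y⁻¹ * g * y) ^ i = y⁻¹ * g ^ i * y := by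
          simpa using conj_pow (a := y⁻¹) (b := g) (i := i)
        rw [this]
        exact hn i hi y hyK
      calc ν (y⁻¹ * g * y) ≤ _ := (hνe _).trans h1
        _ ≤ D' * esc U g := hD'U g
        _ ≤ D' * (M₁ * ν g) := mul_le_mul_of_nonneg_left (heν g) hD'.le
        _ = _ := by ring)
  set C := 4 * M₁ + 2 * M / H 1 + 1 with hC
  have hC1 : 0 ≤ 2 * M / H 1 := by positivity
  have hC2 : 1 / C ≤ 1 / (2 * M₁) / 2 := by
    rw [div_div]
    exact one_div_le_one_div_of_le (by positivity) (by linarith)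
  have hC3 : 1 / C ≤ 1 / (2 * M₁) := hC2.trans (half_le_self (by positivity))
  refine ⟨ν, C, ⟨hν, by linarith, hνc, hcpt _ hC3, fun g n hn => ?_, fun g h hg hh => ?_⟩,
    fun x hx => (hK₀O (hUK (hball _ hC3 x hx)).1).2⟩
  · refine (escape hν hM₁0 hνe hνU g n (hn.trans hC3)).trans ?_
    exact mul_le_mul_of_nonneg_right (by linarith) (hν.nonneg _)
  · have hb : ∀ z, |H (g⁻¹ * h⁻¹ * g * h * z) - H z| ≤ 2 * M * ν g * ν h := by
      intro z
      have a1 := hH2 g⁻¹ h⁻¹ (g * h * z) (by rw [hν.inv]; exact hg.trans hC2)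
        (by rw [hν.inv]; exact hh.trans hC2)
      have a2 := hH2 h⁻¹ g⁻¹ (g * h * z) (by rw [hν.inv]; exact hh.trans hC2)
        (by rw [hν.inv]; exact hg.trans hC2)
      have e1 : g⁻¹ * h⁻¹ * (g * h * z) = g⁻¹ * h⁻¹ * g * h * z := by group
      have e2 : h⁻¹ * g⁻¹ * (g * h * z) = z := by group
      rw [e1, hν.inv, hν.inv] at a1
      rw [e2, hν.inv, hν.inv] at a2
      rw [abs_le] at a1 a2 ⊢
      constructor <;> linarith [a1.1, a1.2, a2.1, a2.2]
    have h1 := esc_le_bump (U := U) H hH1 (fun x hx => hball _ le_rfl x (by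
      rw [← hν.inv]; exact hHs _ hx)) _ hb
    have h2 := mul_nonneg (hν.nonneg g) (hν.nonneg h)
    calc _ ≤ 2 * M * ν g * ν h / H 1 := (hνe _).trans h1
      _ = 2 * M / H 1 * (ν g * ν h) := by ring
      _ ≤ C * (ν g * ν h) := mul_le_mul_of_nonneg_right (by linarith) h2
      _ = _ := by ring

end top

end P4

end Pool.Agent.H754Z.TA
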