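import Mathlib

set_option autoImplicit false

namespace H18Z.Lac

theorem dc {α : Type*} (P : ℕ → α → Prop) (R : ℕ → α → α → Prop) (h0 : ∃ a, P 0 a)
    (hs : ∀ n a, P n a → ∃ b, P (n+1) b ∧ R n a b) :
    ∃ f : ℕ → α, ∀ n, P n (f n) ∧ R n (f n) (f (n+1)) := by
  classical
  obtain ⟨a0, ha0⟩ := h0
  have : Nonempty α := ⟨a0⟩
  choose! g hg using hs
  let f : ℕ → α := fun n => Nat.rec a0 (fun n a => g n a) n
  have hP : ∀ n, P n (f n) := by
    intro n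
    induction n with
    | zero => exact ha0
    | succ n ih => exact (hg n _ ih).1
  exact ⟨f, fun n => ⟨hP n, (hg n _ (hP n)).2⟩⟩

theorem exists_theta (K : Set ℕ) (W : ℕ) (hW : 0 < W) (hpos : ∀ d ∈ K, 0 < d)
    (hr : ∀ d ∈ K, ∀ e ∈ K, d < e → 4 * W * d ≤ e) :
    ∃ θ : ℝ, ∀ d ∈ K, ∃ z : ℤ, (z:ℝ) + 1/(2*W) ≤ d*θ ∧ d*θ ≤ z + 1/W := by
  have hW' : (1:ℝ) ≤ W := by exact_mod_cast hW
  obtain ⟨f, hf⟩ := dc (α := ℝ × ℝ)
    (fun T p => p.1 ≤ p.2 ∧ (∀ θ, p.1 ≤ θ → θ ≤ p.2 → ∀ d ∈ K, d < T →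
        ∃ z : ℤ, (z:ℝ) + 1/(2*W) ≤ d*θ ∧ d*θ ≤ z + 1/W) ∧
        (∀ d ∈ K, T ≤ d → 2 ≤ (d:ℝ) * (p.2 - p.1)))
    (fun _ p q => p.1 ≤ q.1 ∧ q.2 ≤ p.2)
    ⟨(0, 2), by norm_num, by intro θ _ _ d _ h; omega, by
      intro d hd _
      have : (1:ℝ) ≤ d := by exact_mod_cast hpos d hd
      simp only [sub_zero]; linarith⟩
    (by
      rintro T ⟨p, q⟩ ⟨h1, h2, h3⟩
      simp only at h1 h2 h3
      by_cases hT : T ∈ K
      · have hT1 : (1:ℝ) ≤ T := by exact_mod_cast hpos T hT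
        have hT0 : (0:ℝ) < T := by linarith
        have h3T := h3 T hT le_rfl
        set z : ℤ := ⌈(T:ℝ) * p⌉ with hz
        have hz1 : (T:ℝ) * p ≤ z := Int.le_ceil _
        have hz2 : (z:ℝ) < T * p + 1 := Int.ceil_lt_add_one _
        have hw1 : (0:ℝ) < 1/(2*W) := by positivity
        have hw2 : (1:ℝ)/W ≤ 1 := by rw [div_le_one (by linarith)]; exact hW'
        have hw3 : (1:ℝ)/W - 1/(2*W) = 1/(2*W) := by field_simp; ring
        have ha : p ≤ ((z:ℝ) + 1/(2*W))/T := by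
          rw [le_div_iff₀ hT0]; nlinarith
        have hb : ((z:ℝ) + 1/W)/T ≤ q := by
          rw [div_le_iff₀ hT0]; nlinarith
        refine ⟨(((z:ℝ) + 1/(2*W))/T, ((z:ℝ) + 1/W)/T), ⟨?_, ?_, ?_⟩, ha, hb⟩
        · simp only
          apply div_le_div_of_nonneg_right _ hT0.le
          linarith
        · intro θ hθ1 hθ2 d hd hdT
          simp only at hθ1 hθ2
          rcases Nat.lt_succ_iff_lt_or_eq.mp hdT with h | h
          · exact h2 θ (ha.trans hθ1) (hθ2.trans hb) d hd h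
          · subst h
            refine ⟨z, ?_, ?_⟩
            · rw [div_le_iff₀ hT0] at hθ1; linarith
            · rw [le_div_iff₀ hT0] at hθ2; linarith
        · intro d hd hdT
          simp only
          have h4 : (4:ℝ) * W * T ≤ d := by exact_mod_cast hr T hT d hd hdT
          have : ((z:ℝ) + 1/W)/T - ((z:ℝ) + 1/(2*W))/T = 1/(2*W*T) := by
            field_simp; ring
          rw [this, mul_one_div, le_div_iff₀ (by positivity)]
          linarith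
      · refine ⟨(p, q), ⟨h1, ?_, ?_⟩, le_rfl, le_rfl⟩
        · intro θ hθ1 hθ2 d hd hdT
          rcases Nat.lt_succ_iff_lt_or_eq.mp hdT with h | h
          · exact h2 θ hθ1 hθ2 d hd h
          · exact absurd (h ▸ hd) hT
        · intro d hd hdT
          exact h3 d hd (by omega))
  have hm1 : Monotone (fun n => (f n).1) := monotone_nat_of_le_succ (fun n => (hf n).2.1)
  have hm2 : Antitone (fun n => (f n).2) := antitone_nat_of_succ_le (fun n => (hf n).2.2)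
  have hle : ∀ m n, (f m).1 ≤ (f n).2 := fun m n =>
    (hm1 (le_max_left m n)).trans ((hf (max m n)).1.1.trans (hm2 (le_max_right m n)))
  have hbdd : BddAbove (Set.range fun n => (f n).1) := ⟨(f 0).2, by
    rintro _ ⟨n, rfl⟩; exact hle n 0⟩
  refine ⟨⨆ n, (f n).1, fun d hd => ?_⟩
  exact (hf (d+1)).1.2.1 _ (le_ciSup hbdd (d+1)) (ciSup_le fun m => hle m _) d hd (by omega)

/-- the cell of `x` under the rotation with parameter `t` and `M` cells -/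
noncomputable def cell (M : ℕ) (t : ℝ) (x : ℤ) : ZMod M := ((⌊(x:ℝ) * t⌋ : ℤ) : ZMod M)

theorem cell_ne (W : ℕ) (θ : ℝ) (d : ℕ) (z : ℤ) (h1 : (z:ℝ) + 1/(2*W) ≤ d*θ)
    (h2 : d*θ ≤ z + 1/W) (a : ℤ) (i j : ℕ) (hij : i < j) (hj : j < W) :
    cell (2*W) (2*W*θ) (a + i*d) ≠ cell (2*W) (2*W*θ) (a + j*d) := by
  intro h
  unfold cell at h
  rw [ZMod.intCast_eq_intCast_iff_dvd_sub] at h
  obtain ⟨n, rfl⟩ : ∃ n, j = i + (n+1) := ⟨j - i - 1, by omega⟩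
  have hW : (0:ℝ) < W := by exact_mod_cast (by omega : 0 < W)
  set x : ℝ := ((a + i*d : ℤ) : ℝ) * (2*W*θ) with hx
  set y : ℝ := ((n:ℝ)+1) * (2*W) * (d*θ - z) with hy
  have e1 : ((a + ((i + (n+1) : ℕ) : ℤ) * d : ℤ) : ℝ) * (2*W*θ)
      = (x + y) + (((n+1) * (2*W) * z : ℤ) : ℝ) := by
    rw [hx, hy]; push_cast; ring
  rw [e1, Int.floor_add_intCast] at h
  have hn0 : (0:ℝ) ≤ n := Nat.cast_nonneg n
  have hy1 : 1 ≤ y := by
    have : 1 ≤ (2*(W:ℝ)) * (d*θ - z) := by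
      have : (1:ℝ)/(2*W) ≤ d*θ - z := by linarith
      rw [div_le_iff₀ (by positivity)] at this; linarith
    rw [hy]; nlinarith
  have hy2 : y ≤ 2*W - 2 := by
    have h3 : (2*(W:ℝ)) * (d*θ - z) ≤ 2 := by
      have : d*θ - z ≤ (1:ℝ)/W := by linarith
      rw [le_div_iff₀ hW] at this; linarith
    have h4 : (n:ℝ) + 1 ≤ W - 1 := by
      have : n + 2 ≤ W := by omega
      have : (n:ℝ) + 2 ≤ W := by exact_mod_cast this
      linarith
    rw [hy]; nlinarith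
  have f1 : ⌊x⌋ + 1 ≤ ⌊x + y⌋ := by
    rw [Int.le_floor]; push_cast; linarith [Int.floor_le x]
  have f2 : ⌊x + y⌋ < ⌊x⌋ + 2*W := by
    rw [Int.floor_lt]; push_cast; linarith [Int.lt_floor_add_one x]
  have h5 : ((2*W : ℕ) : ℤ) ∣ ⌊x + y⌋ - ⌊x⌋ := by
    have h6 : ((2*W : ℕ) : ℤ) ∣ (n+1) * (2*W) * z := ⟨(n+1)*z, by push_cast; ring⟩
    have := dvd_sub h h6
    have e : ⌊x + y⌋ - ⌊x⌋ = ⌊x + y⌋ + (n+1) * (2*W) * z - ⌊x⌋ - (n+1) * (2*W) * z := by ring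
    rw [e]; exact this
  have := Int.le_of_dvd (by omega) h5
  push_cast at this
  omega

/-- `f` has at most `B` patterns of length `W` along arithmetic progressions. -/
def HasCode {β : Type} (f : ℤ → β) (W B : ℕ) : Prop :=
  ∃ (γ : Type) (S : Finset γ) (code : ℤ → ℕ → γ), S.card ≤ B ∧ (∀ a d, code a d ∈ S) ∧
    ∀ a d a' d', code a d = code a' d' → ∀ j : ℕ, j < W → f (a + j*d) = f (a' + j*d')

theorem line_chain (W : ℕ) (α β α' β' : ℝ)
    (h1 : ∑ j ∈ Finset.range W, ⌊(j:ℝ) * β⌋ = ∑ j ∈ Finset.range W, ⌊(j:ℝ) * β'⌋)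
    (h2 : ∑ j ∈ Finset.range W, ⌊α + j * β⌋ = ∑ j ∈ Finset.range W, ⌊α' + j * β'⌋) :
    ∀ j < W, ⌊α + j * β⌋ = ⌊α' + j * β'⌋ := by
  have key : ∀ (g g' : ℕ → ℤ), (∀ j < W, g j ≤ g' j) →
      ∑ j ∈ Finset.range W, g j = ∑ j ∈ Finset.range W, g' j → ∀ j < W, g j = g' j := by
    intro g g' hle hs j hj
    exact (Finset.sum_eq_sum_iff_of_le (fun i hi => hle i (Finset.mem_range.mp hi))).mp hs j
      (Finset.mem_range.mpr hj)
  have hb : ∀ j < W, ⌊(j:ℝ) * β⌋ = ⌊(j:ℝ) * β'⌋ := by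
    rcases le_total β β' with h | h
    · exact key _ _ (fun j _ => Int.floor_le_floor
        (mul_le_mul_of_nonneg_left h (Nat.cast_nonneg j))) h1
    · intro j hj
      exact (key _ _ (fun j _ => Int.floor_le_floor
        (mul_le_mul_of_nonneg_left h (Nat.cast_nonneg j))) h1.symm j hj).symm
  -- no crossing
  have cross : ∀ (α β α' β' : ℝ), (∀ j < W, ⌊(j:ℝ) * β⌋ = ⌊(j:ℝ) * β'⌋) → ∀ i j : ℕ, i ≤ j → j < W →
      ⌊α + j * β⌋ < ⌊α' + j * β'⌋ → ⌊α' + i * β'⌋ < ⌊α + i * β⌋ → False := by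
    intro α β α' β' hb i j hij hj h3 h4
    obtain ⟨n, rfl⟩ := Nat.exists_eq_add_of_le hij
    have h5 := hb n (by omega)
    set k := ⌊α' + ((i+n : ℕ):ℝ) * β'⌋
    set l := ⌊α + (i:ℝ) * β⌋
    have a1 : α + ((i+n : ℕ):ℝ) * β < k := Int.floor_lt.mp h3
    have a2 : (k:ℝ) ≤ α' + ((i+n : ℕ):ℝ) * β' := Int.floor_le _
    have a3 : α' + (i:ℝ) * β' < l := Int.floor_lt.mp h4
    have a4 : (l:ℝ) ≤ α + (i:ℝ) * β := Int.floor_le _
    push_cast at a1 a2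
    have b1 : ⌊(n:ℝ) * β⌋ < k - l := by
      rw [Int.floor_lt]; push_cast; nlinarith
    have b2 : k - l ≤ ⌊(n:ℝ) * β'⌋ := by
      rw [Int.le_floor]; push_cast; nlinarith
    omega
  by_cases hc : ∀ j < W, ⌊α + j * β⌋ ≤ ⌊α' + j * β'⌋
  · exact key _ _ hc h2
  · push Not at hc
    obtain ⟨i, hi, hi2⟩ := hc
    have hc2 : ∀ j < W, ⌊α' + j * β'⌋ ≤ ⌊α + j * β⌋ := by
      intro j hj
      by_contra h
      push Not at h
      rcases le_total i j with hij | hij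
      · exact cross α β α' β' hb i j hij hj h hi2
      · exact cross α' β' α β (fun j hj => (hb j hj).symm) j i hij hi hi2 h
    intro j hj
    exact (key _ _ hc2 h2.symm j hj).symm

theorem sum_floor_mem (W : ℕ) (hW : 0 < W) (α β : ℝ) (ha0 : 0 ≤ α) (ha1 : α < 1) (hb0 : 0 ≤ β)
    (hb1 : β < 1) : ∑ j ∈ Finset.range W, ⌊α + j * β⌋ ∈ Finset.Ico (0:ℤ) (W*W) := by
  rw [Finset.mem_Ico]
  constructor
  · apply Finset.sum_nonneg
    intro j _
    exact Int.floor_nonneg.mpr (by positivity)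
  · have : ∑ j ∈ Finset.range W, ⌊α + j * β⌋ < ∑ _j ∈ Finset.range W, (W:ℤ) := by
      apply Finset.sum_lt_sum_of_nonempty (by simp; omega)
      intro j hj
      have hj' : (j:ℝ) + 1 ≤ W := by exact_mod_cast Finset.mem_range.mp hj
      have hj0 : (0:ℝ) ≤ j := Nat.cast_nonneg j
      rw [Int.floor_lt]; push_cast; nlinarith
    simpa using this

theorem floor_split (u v : ℝ) (j : ℕ) :
    ⌊u + j * v⌋ = ⌊u⌋ + j * ⌊v⌋ + ⌊Int.fract u + j * Int.fract v⌋ := by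
  have : u + j * v = (Int.fract u + j * Int.fract v) + ((⌊u⌋ + j * ⌊v⌋ : ℤ) : ℝ) := by
    unfold Int.fract; push_cast; ring
  rw [this, Int.floor_add_intCast]; ring

theorem hasCode_cells (M Q W : ℕ) [NeZero M] (hW : 0 < W) (t : Fin Q → ℝ) :
    HasCode (fun x => fun q => cell M (t q) x) W ((M*M*(W*W)*(W*W))^Q) := by
  classical
  let S : Finset (ZMod M × ZMod M × ℤ × ℤ) :=
    Finset.univ ×ˢ Finset.univ ×ˢ Finset.Ico (0:ℤ) (W*W) ×ˢ Finset.Ico (0:ℤ) (W*W)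
  refine ⟨Fin Q → ZMod M × ZMod M × ℤ × ℤ, Fintype.piFinset (fun _ => S),
    fun a d q => (((⌊(a:ℝ) * t q⌋ : ℤ) : ZMod M), ((⌊(d:ℝ) * t q⌋ : ℤ) : ZMod M),
      ∑ j ∈ Finset.range W, ⌊(j:ℝ) * Int.fract ((d:ℝ) * t q)⌋,
      ∑ j ∈ Finset.range W, ⌊Int.fract ((a:ℝ) * t q) + j * Int.fract ((d:ℝ) * t q)⌋), ?_, ?_, ?_⟩
  · rw [Fintype.card_piFinset_const]
    apply Nat.pow_le_pow_left
    have : ((W:ℤ)*W).toNat = W*W := by
      have : ((W:ℤ)*W) = ((W*W : ℕ) : ℤ) := by push_cast; ring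
      rw [this, Int.toNat_natCast]
    simp [S, ZMod.card, this, mul_assoc]
  · intro a d
    rw [Fintype.mem_piFinset]
    intro q
    simp only [S, Finset.mem_product, Finset.mem_univ, true_and]
    refine ⟨?_, sum_floor_mem W hW _ _ (Int.fract_nonneg _) (Int.fract_lt_one _)
      (Int.fract_nonneg _) (Int.fract_lt_one _)⟩
    have := sum_floor_mem W hW 0 _ le_rfl one_pos (Int.fract_nonneg ((d:ℝ) * t q))
      (Int.fract_lt_one _)
    simpa using this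
  · intro a d a' d' h j hj
    funext q
    have hq := congrFun h q
    simp only [Prod.mk.injEq] at hq
    obtain ⟨e1, e2, e3, e4⟩ := hq
    have e5 := line_chain W _ _ _ _ e3 e4 j hj
    have r : ∀ (a : ℤ) (d : ℕ), ((a + j * d : ℤ) : ℝ) * t q = (a:ℝ) * t q + j * ((d:ℝ) * t q) := by
      intro a d; push_cast; ring
    simp only [cell]
    rw [r, r, floor_split, floor_split ((a':ℝ) * t q), e5]
    push_cast
    rw [e1, e2]

theorem HasCode.prod {β β' : Type} {f : ℤ → β} {g : ℤ → β'} {W B B' : ℕ}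
    (h : HasCode f W B) (h' : HasCode g W B') : HasCode (fun x => (f x, g x)) W (B * B') := by
  obtain ⟨γ, S, c, h1, h2, h3⟩ := h
  obtain ⟨γ', S', c', h1', h2', h3'⟩ := h'
  refine ⟨γ × γ', S ×ˢ S', fun a d => (c a d, c' a d), ?_, ?_, ?_⟩
  · rw [Finset.card_product]; exact Nat.mul_le_mul h1 h1'
  · intro a d; exact Finset.mem_product.mpr ⟨h2 a d, h2' a d⟩
  · intro a d a' d' h j hj
    simp only [Prod.mk.injEq] at h ⊢
    exact ⟨h3 _ _ _ _ h.1 j hj, h3' _ _ _ _ h.2 j hj⟩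

theorem HasCode.comp {β β' : Type} {f : ℤ → β} {W B : ℕ} (h : HasCode f W B) (φ : β → β') :
    HasCode (fun x => φ (f x)) W B := by
  obtain ⟨γ, S, c, h1, h2, h3⟩ := h
  exact ⟨γ, S, c, h1, h2, fun a d a' d' h j hj => by simp only [h3 a d a' d' h j hj]⟩

theorem HasCode.mono {β : Type} {f : ℤ → β} {W B B' : ℕ} (h : HasCode f W B) (hB : B ≤ B') :
    HasCode f W B' := by
  obtain ⟨γ, S, c, h1, h2, h3⟩ := h
  exact ⟨γ, S, c, h1.trans hB, h2, h3⟩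

theorem HasCode.reps {β : Type} {f : ℤ → β} {W B : ℕ} (h : HasCode f W B) (K : Set ℕ) :
    ∃ T : Finset (ℤ × ℕ), T.card ≤ B ∧ (∀ p ∈ T, p.2 ∈ K) ∧
      ∀ a, ∀ d ∈ K, ∃ p ∈ T, ∀ j : ℕ, j < W → f (a + j*d) = f (p.1 + j*p.2) := by
  classical
  obtain ⟨γ, S, c, h1, h2, h3⟩ := h
  have : ∀ s : γ, (∃ p : ℤ × ℕ, p.2 ∈ K ∧ c p.1 p.2 = s) → ∃ p : ℤ × ℕ, p.2 ∈ K ∧ c p.1 p.2 = s :=
    fun s h => h
  choose! r hr using this
  refine ⟨(S.filter (fun s => ∃ p : ℤ × ℕ, p.2 ∈ K ∧ c p.1 p.2 = s)).image r, ?_, ?_, ?_⟩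
  · exact Finset.card_image_le.trans ((Finset.card_filter_le _ _).trans h1)
  · intro p hp
    obtain ⟨s, hs, rfl⟩ := Finset.mem_image.mp hp
    exact (hr s (Finset.mem_filter.mp hs).2).1
  · intro a d hd
    have hs : ∃ p : ℤ × ℕ, p.2 ∈ K ∧ c p.1 p.2 = c a d := ⟨(a, d), hd, rfl⟩
    refine ⟨r (c a d), Finset.mem_image.mpr ⟨c a d, Finset.mem_filter.mpr ⟨h2 a d, hs⟩, rfl⟩, ?_⟩
    exact h3 _ _ _ _ (hr _ hs).2.symm

end H18Z.Lac
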