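import Mathlib
import Pool.Agent.H18Z.Lac1

set_option autoImplicit false

namespace H18Z.Lac

theorem exists_kappa (K : Set ℕ) (hpos : ∀ d ∈ K, 0 < d) (δ : ℝ) (hδ : 0 < δ)
    (hl : ∀ a ∈ K, ∀ b ∈ K, a < b → (1 + δ) * (a : ℝ) < (b : ℝ)) (D : ℕ) (hD : 2 ≤ (1+δ)^D)
    (w : ℕ) : ∃ t : Fin (D*(w+2)+1) → ℝ, ∀ d ∈ K, ∀ (a : ℤ) (i j : ℕ), i < j → j < 2^w →
      (fun q => cell (2*2^w) (t q) (a + i*d)) ≠ (fun q => cell (2*2^w) (t q) (a + j*d)) := by
  have h1 : (1:ℝ) < 1 + δ := by linarith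
  have : ∀ d : ℕ, 0 < d → ∃ n : ℕ, (1+δ)^n ≤ (d:ℝ) ∧ (d:ℝ) < (1+δ)^(n+1) := fun d hd =>
    exists_nat_pow_near (by exact_mod_cast hd) h1
  choose! lam hlam using this
  set Q := D*(w+2)+1 with hQ
  have hQ0 : 0 < Q := by omega
  have hθ : ∀ q : Fin Q, ∃ θ : ℝ, ∀ d ∈ {d | d ∈ K ∧ lam d % Q = q}, ∃ z : ℤ,
      (z:ℝ) + 1/(2*((2^w : ℕ):ℝ)) ≤ d*θ ∧ d*θ ≤ z + 1/((2^w : ℕ):ℝ) := by
    intro q
    apply exists_theta _ (2^w) (by positivity) (fun d hd => hpos d hd.1)
    rintro d ⟨hd, hdq⟩ e ⟨he, heq⟩ hde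
    have a1 := hlam d (hpos d hd)
    have a2 := hlam e (hpos e he)
    have a3 := hl d hd e he hde
    have hlt : lam d < lam e := by
      have : (1+δ)^(lam d + 1) < (1+δ)^(lam e + 1) := by
        calc (1+δ)^(lam d + 1) = (1+δ) * (1+δ)^(lam d) := by ring
          _ ≤ (1+δ) * d := mul_le_mul_of_nonneg_left a1.1 (by linarith)
          _ < e := a3
          _ < _ := a2.2
      have := (pow_lt_pow_iff_right₀ h1).mp this
      omega
    have hge : lam d + Q ≤ lam e := by
      have h5 : Q ∣ lam e - lam d := (Nat.modEq_iff_dvd' hlt.le).mp (by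
        unfold Nat.ModEq; rw [hdq, heq])
      have := Nat.le_of_dvd (by omega) h5
      omega
    have hr : (4:ℝ) * 2^w * d ≤ e := by
      calc (4:ℝ) * 2^w * d = 2^(w+2) * d := by ring
        _ ≤ ((1+δ)^D)^(w+2) * (1+δ)^(lam d + 1) := by
            apply mul_le_mul _ a1.2.le (Nat.cast_nonneg _) (by positivity)
            exact pow_le_pow_left₀ (by norm_num) hD _
        _ = (1+δ)^(lam d + Q) := by rw [← pow_mul, ← pow_add, hQ]; congr 1; ring
        _ ≤ (1+δ)^(lam e) := pow_le_pow_right₀ h1.le hge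
        _ ≤ e := a2.1
    exact_mod_cast hr
  choose θ hθ using hθ
  refine ⟨fun q => 2*((2^w : ℕ):ℝ)*θ q, ?_⟩
  intro d hd a i j hij hj h
  let q : Fin Q := ⟨lam d % Q, Nat.mod_lt _ hQ0⟩
  obtain ⟨z, hz1, hz2⟩ := hθ q d ⟨hd, rfl⟩
  exact cell_ne (2^w) (θ q) d z hz1 hz2 a i j hij hj (congrFun h q)

theorem count_pairs {X F : Type} [Fintype X] [DecidableEq X] [Fintype F] [DecidableEq F]
    (b : ℕ) (x y : ℕ → X) (P : ℕ → F → F → Prop) [∀ i u v, Decidable (P i u v)] (m : ℕ)
    (hxx : ∀ i j, i < j → j < m → x i ≠ x j) (hyy : ∀ i j, i < j → j < m → y i ≠ y j)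
    (hxy : ∀ i j, i < m → j < m → x i ≠ y j)
    (hP : ∀ i < m, (Finset.univ.filter (fun p : F × F => P i p.1 p.2)).card ≤ b) :
    (Finset.univ.filter (fun Ψ : X → F => ∀ i < m, P i (Ψ (x i)) (Ψ (y i)))).card
      * (Fintype.card F * Fintype.card F)^m ≤ b^m * Fintype.card (X → F) := by
  induction m with
  | zero => simp
  | succ m ih =>
    have ih' := ih (fun i j h1 h2 => hxx i j h1 (by omega)) (fun i j h1 h2 => hyy i j h1 (by omega))
      (fun i j h1 h2 => hxy i j (by omega) (by omega)) (fun i hi => hP i (by omega))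
    set A := Finset.univ.filter (fun Ψ : X → F => ∀ i < m, P i (Ψ (x i)) (Ψ (y i))) with hA
    set A' := Finset.univ.filter (fun Ψ : X → F => ∀ i < m+1, P i (Ψ (x i)) (Ψ (y i))) with hA'
    have hne : x m ≠ y m := hxy m m (by omega) (by omega)
    have key : (A' ×ˢ (Finset.univ : Finset (F × F))).card ≤
        (A ×ˢ (Finset.univ.filter (fun p : F × F => P m p.1 p.2))).card := by
      apply Finset.card_le_card_of_injOn
        (fun p => (Function.update (Function.update p.1 (x m) p.2.1) (y m) p.2.2,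
          (p.1 (x m), p.1 (y m))))
      · rintro ⟨Ψ, u, v⟩ hp
        simp only [hA, hA', Finset.coe_product, Finset.coe_filter, Finset.mem_univ, true_and,
          Set.mem_prod, Set.mem_ofPred_eq, Finset.coe_univ, Set.mem_univ, and_true] at hp ⊢
        refine ⟨fun i hi => ?_, hp m (by omega)⟩
        rw [Function.update_of_ne (hxy i m (by omega) (by omega)),
          Function.update_of_ne (hxx i m hi (by omega)),
          Function.update_of_ne (hyy i m hi (by omega)),
          Function.update_of_ne (hxy m i (by omega) (by omega)).symm]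
        exact hp i (by omega)
      · rintro ⟨Ψ, u, v⟩ _ ⟨Ψ', u', v'⟩ _ h
        simp only [Prod.mk.injEq] at h ⊢
        obtain ⟨h1, h2, h3⟩ := h
        have e1 := congrFun h1 (x m)
        have e2 := congrFun h1 (y m)
        simp only [Function.update_of_ne hne, Function.update_self] at e1 e2
        refine ⟨?_, e1, e2⟩
        funext z
        by_cases hz1 : z = x m
        · rw [hz1]; exact h2
        by_cases hz2 : z = y m
        · rw [hz2]; exact h3
        have := congrFun h1 z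
        simpa only [Function.update_of_ne hz1, Function.update_of_ne hz2] using this
    rw [Finset.card_product, Finset.card_product, Finset.card_univ, Fintype.card_prod] at key
    have key2 : A'.card * (Fintype.card F * Fintype.card F) ≤ A.card * b :=
      key.trans (Nat.mul_le_mul_left _ (hP m (by omega)))
    calc A'.card * (Fintype.card F * Fintype.card F)^(m+1)
        = (A'.card * (Fintype.card F * Fintype.card F)) * (Fintype.card F * Fintype.card F)^m := by
          ring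
      _ ≤ (A.card * b) * (Fintype.card F * Fintype.card F)^m := Nat.mul_le_mul_right _ key2
      _ = b * (A.card * (Fintype.card F * Fintype.card F)^m) := by ring
      _ ≤ b * (b^m * Fintype.card (X → F)) := Nat.mul_le_mul_left _ ih'
      _ = _ := by ring

/-- refine the partial colouring `c` (value `0` means undecided) by `Ψ ∘ κ` -/
def refine {X : Type} (c : ℤ → Fin 4) (κ : ℤ → X) (Ψ : X → Fin 4) (x : ℤ) : Fin 4 :=
  if c x = 0 then Ψ (κ x) else c x

theorem level_step {X : Type} [Fintype X] [DecidableEq X] (K : Set ℕ) (c : ℤ → Fin 4)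
    (κ : ℤ → X) (W L m B : ℕ)
    (h1 : ∀ d ∈ K, ∀ a : ℤ, ∃ j : ℕ, j < L ∧ c (a + j*d) = 0)
    (h2 : ∀ d ∈ K, ∀ (a : ℤ) (i j : ℕ), i < j → j < W → κ (a + i*d) ≠ κ (a + j*d))
    (h3 : HasCode (fun x => (c x, κ x)) W B)
    (h4 : 2 * (m * L) ≤ W) (h5 : B * (2 * (W+1)) * 3^m < 4^m) :
    ∃ Ψ : X → Fin 4,
      (∀ d ∈ K, ∀ a : ℤ, ∃ j : ℕ, j < m * L ∧ refine c κ Ψ (a + j*d) = 0) ∧
      (∀ d ∈ K, ∀ (a : ℤ) (n : ℕ), m * L ≤ n → 2 * n ≤ W → ∃ i : ℕ, i < n ∧
        refine c κ Ψ (a + i*d) ≠ 0 ∧ refine c κ Ψ (a + ((n + i : ℕ) : ℤ)*d) ≠ 0 ∧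
        refine c κ Ψ (a + i*d) ≠ refine c κ Ψ (a + ((n + i : ℕ) : ℤ)*d)) := by
  classical
  obtain ⟨T, hT1, hT2, hT3⟩ := h3.reps K
  -- undecided positions
  have hpos : ∀ (p : ℤ × ℕ) (i : ℕ), ∃ j : ℕ, p.2 ∈ K → (i * L ≤ j ∧ j < (i+1) * L ∧
      c (p.1 + j * p.2) = 0) := by
    intro p i
    by_cases hp : p.2 ∈ K
    · obtain ⟨j, hj1, hj2⟩ := h1 p.2 hp (p.1 + ((i * L : ℕ) : ℤ) * p.2)
      refine ⟨i * L + j, fun _ => ⟨by omega, by nlinarith, ?_⟩⟩
      rw [← hj2]; congr 1; push_cast; ring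
    · exact ⟨0, fun h => absurd h hp⟩
  choose J hJ using hpos
  let P : (ℤ × ℕ) → ℕ → Bool → ℕ → Fin 4 → Fin 4 → Prop := fun p n k i u v =>
    if k then u ≠ 0 else
      (u = 0 ∨ (if c (p.1 + ((n + J p i : ℕ) : ℤ) * p.2) = 0 then v = 0 ∨ u = v
        else u = c (p.1 + ((n + J p i : ℕ) : ℤ) * p.2)))
  let Bad : (ℤ × ℕ) × ℕ × Bool → Finset (X → Fin 4) := fun e =>
    Finset.univ.filter (fun Ψ : X → Fin 4 => ∀ i < m, P e.1 e.2.1 e.2.2 i
      (Ψ (κ (e.1.1 + (J e.1 i : ℤ) * e.1.2))) (Ψ (κ (e.1.1 + ((e.2.1 + J e.1 i : ℕ) : ℤ) * e.1.2))))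
  let E : Finset ((ℤ × ℕ) × ℕ × Bool) :=
    T ×ˢ ((Finset.range (W+1)).filter (fun n => m * L ≤ n ∧ 2 * n ≤ W)) ×ˢ Finset.univ
  have hE : E.card ≤ B * (2 * (W+1)) := by
    simp only [E, Finset.card_product, Finset.card_univ, Fintype.card_bool]
    apply Nat.mul_le_mul hT1
    have := Finset.card_filter_le (Finset.range (W+1)) (fun n => m * L ≤ n ∧ 2 * n ≤ W)
    rw [Finset.card_range] at this
    omega
  have hBad : ∀ e ∈ E, (Bad e).card * 16^m ≤ 12^m * Fintype.card (X → Fin 4) := by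
    rintro ⟨p, n, k⟩ he
    simp only [E, Finset.mem_product, Finset.mem_filter, Finset.mem_range, Finset.mem_univ,
      and_true] at he
    obtain ⟨hp, -, hn1, hn2⟩ := he
    have hpK := hT2 p hp
    have hJlt : ∀ i < m, J p i < n := by
      intro i hi
      have := (hJ p i hpK).2.1
      have : (i+1) * L ≤ m * L := Nat.mul_le_mul_right _ hi
      omega
    have hJmono : ∀ i j, i < j → J p i < J p j := by
      intro i j hij
      have a1 := (hJ p i hpK).2.1
      have a2 := (hJ p j hpK).1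
      have : (i+1) * L ≤ j * L := Nat.mul_le_mul_right _ hij
      omega
    have := count_pairs (X := X) (F := Fin 4) 12 (fun i => κ (p.1 + (J p i : ℤ) * p.2))
      (fun i => κ (p.1 + ((n + J p i : ℕ) : ℤ) * p.2)) (P p n k) m
      (fun i j h h' => h2 _ hpK _ _ _ (hJmono i j h) (by have := hJlt j h'; omega))
      (fun i j h h' => h2 _ hpK _ _ _ (by have := hJmono i j h; omega)
        (by have := hJlt j h'; omega))
      (fun i j h h' => h2 _ hpK _ _ _ (by have := hJlt i h; omega)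
        (by have := hJlt j h'; omega))
      (by
        intro i _
        cases k
        · simp only [P, Bool.false_eq_true, if_false]
          generalize c (p.1 + ((n + J p i : ℕ) : ℤ) * p.2) = g
          revert g; decide
        · simp only [P, if_true]
          decide)
    rw [Fintype.card_fin] at this
    convert this using 2
  have hlt : (E.biUnion Bad).card < (Finset.univ : Finset (X → Fin 4)).card := by
    have a1 : (E.biUnion Bad).card * 16^m ≤ E.card * (12^m * Fintype.card (X → Fin 4)) := by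
      calc (E.biUnion Bad).card * 16^m ≤ (∑ e ∈ E, (Bad e).card) * 16^m :=
            Nat.mul_le_mul_right _ Finset.card_biUnion_le
        _ = ∑ e ∈ E, (Bad e).card * 16^m := Finset.sum_mul _ _ _
        _ ≤ ∑ _e ∈ E, 12^m * Fintype.card (X → Fin 4) := Finset.sum_le_sum hBad
        _ = _ := by simp
    have a2 : E.card * 12^m < 16^m := by
      calc E.card * 12^m = (E.card * 3^m) * 4^m := by
            rw [show (12:ℕ) = 3 * 4 by norm_num, mul_pow]; ring
        _ ≤ (B * (2 * (W+1)) * 3^m) * 4^m := by gcongr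
        _ < 4^m * 4^m := Nat.mul_lt_mul_of_pos_right h5 (by positivity)
        _ = 16^m := by rw [← mul_pow]; norm_num
    have a3 : 0 < Fintype.card (X → Fin 4) := Fintype.card_pos
    rw [Finset.card_univ]
    by_contra hcon
    push Not at hcon
    have : Fintype.card (X → Fin 4) * 16^m ≤ (E.biUnion Bad).card * 16^m :=
      Nat.mul_le_mul_right _ hcon
    nlinarith
  obtain ⟨Ψ, -, hΨ⟩ := Finset.exists_mem_notMem_of_card_lt_card hlt
  have hgood : ∀ e ∈ E, Ψ ∉ Bad e := fun e he h => hΨ (Finset.mem_biUnion.mpr ⟨e, he, h⟩)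
  have htr : ∀ d ∈ K, ∀ a : ℤ, ∃ p ∈ T, ∀ j : ℕ, j < W →
      refine c κ Ψ (a + j*d) = refine c κ Ψ (p.1 + j*p.2) := by
    intro d hd a
    obtain ⟨p, hp, h⟩ := hT3 a d hd
    refine ⟨p, hp, fun j hj => ?_⟩
    have := h j hj
    simp only [Prod.mk.injEq] at this
    simp only [refine, this.1, this.2]
  refine ⟨Ψ, ?_, ?_⟩
  · intro d hd a
    obtain ⟨p, hp, h⟩ := htr d hd a
    have hpK := hT2 p hp
    have := hgood (p, m*L, true) (by
      simp only [E, Finset.mem_product, Finset.mem_filter, Finset.mem_range, Finset.mem_univ,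
        and_true]
      exact ⟨hp, by omega, le_rfl, h4⟩)
    simp only [Bad, P, Finset.mem_filter, Finset.mem_univ, true_and, if_true, not_forall,
      not_not] at this
    obtain ⟨i, hi, h6⟩ := this
    have a1 := hJ p i hpK
    have a2 : (i+1) * L ≤ m * L := Nat.mul_le_mul_right _ hi
    refine ⟨J p i, by omega, ?_⟩
    rw [h _ (by omega)]
    simp only [refine, a1.2.2, if_true, h6]
  · intro d hd a n hn1 hn2
    obtain ⟨p, hp, h⟩ := htr d hd a
    have hpK := hT2 p hp
    have := hgood (p, n, false) (by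
      simp only [E, Finset.mem_product, Finset.mem_filter, Finset.mem_range, Finset.mem_univ,
        and_true]
      exact ⟨hp, by omega, hn1, hn2⟩)
    simp only [Bad, P, Finset.mem_filter, Finset.mem_univ, true_and, Bool.false_eq_true,
      if_false, not_forall, not_or] at this
    obtain ⟨i, hi, h6, h7⟩ := this
    have a1 := hJ p i hpK
    have a2 : (i+1) * L ≤ m * L := Nat.mul_le_mul_right _ hi
    refine ⟨J p i, by omega, ?_⟩
    rw [h _ (by omega), h _ (by omega)]
    simp only [refine, a1.2.2, if_true]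
    split_ifs at h7 ⊢ with h8
    · push Not at h7
      exact ⟨h6, h7.1, h7.2⟩
    · exact ⟨h6, h8, h7⟩

end H18Z.Lac
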