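import Mathlib
import Pool.Agent.H18Z.Lac2

set_option autoImplicit false

namespace H18Z.Lac

theorem pow_aux (k m : ℕ) (h : 3 * k + 1 ≤ m) : 2^k * 3^m < 4^m := by
  obtain ⟨r, rfl⟩ := Nat.exists_eq_add_of_le h
  have a1 : 54^k ≤ 64^k := Nat.pow_le_pow_left (by norm_num) k
  have a2 : 3^(r+1) < 4^(r+1) := Nat.pow_lt_pow_left (by norm_num) (by omega)
  calc 2^k * 3^(3*k+1+r) = 54^k * 3^(r+1) := by
        rw [show (54:ℕ) = 2 * 3^3 by norm_num, mul_pow, ← pow_mul]; ring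
    _ < 64^k * 4^(r+1) := Nat.mul_lt_mul_of_le_of_lt a1 a2 (by positivity)
    _ = 4^(3*k+1+r) := by
        rw [show (64:ℕ) = 4^3 by norm_num, ← pow_mul]; ring

theorem exists_b (D : ℕ) : ∃ b : ℕ, 32 * (D+1) * (b+6)^2 ≤ 2^b := by
  refine ⟨4 * (D+5), ?_⟩
  have a1 : D + 1 ≤ 2^D := Nat.lt_two_pow_self
  have a2 : 4 * (D+5) + 6 ≤ 2^(D+5) := by
    rw [pow_add]; omega
  have a3 : 32 * (D+1) ≤ 2^(D+5) := by rw [pow_add]; omega
  have a4 : 1 ≤ 2^(D+5) := Nat.one_le_two_pow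
  calc 32 * (D+1) * (4 * (D+5) + 6)^2 ≤ 2^(D+5) * (2^(D+5))^2 := by gcongr
    _ ≤ (2^(D+5) * 2^(D+5)) * (2^(D+5))^2 := by
        apply Nat.mul_le_mul_right; nlinarith
    _ = 2^(4 * (D+5)) := by ring

def ell (b s : ℕ) : ℕ := s * b + 5 * s^2

def ww (b s : ℕ) : ℕ := ell b (s+1) + 1

theorem ell_succ (b s : ℕ) : ell b (s+1) = (b + 10 * s + 5) + ell b s := by
  unfold ell; ring

theorem numeric (D b s : ℕ) (hb : 32 * (D+1) * (b+6)^2 ≤ 2^b) :
    3 * (8 * ww b (s+1) * ((s+1) * (D+1) * (ww b (s+1) + 2)) + (ww b (s+1) + 2)) + 1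
      ≤ 2^(b + 10 * s + 5) := by
  set w := ww b (s+1) with hw
  have a1 : w + 2 ≤ (s+2)^2 * (b+6) := by
    rw [hw]; unfold ww ell; nlinarith [Nat.zero_le (s*b), Nat.zero_le (s*s*b), Nat.zero_le s]
  have a2 : s + 2 ≤ 2^(s+1) := Nat.lt_two_pow_self
  set y := w + 2 with hy
  have a3 : 3 * (8 * w * ((s+1) * (D+1) * y) + y) + 1 ≤ 32 * ((s+2) * (D+1) * y^2) := by
    have b1 : 8 * w * ((s+1) * (D+1) * y) ≤ 8 * ((s+2) * (D+1) * y^2) := by
      calc 8 * w * ((s+1) * (D+1) * y) ≤ 8 * y * ((s+2) * (D+1) * y) := by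
            gcongr <;> omega
        _ = _ := by ring
    have b2 : y ≤ (s+2) * (D+1) * y^2 := by
      calc y = 1 * 1 * (y * 1) := by ring
        _ ≤ (s+2) * (D+1) * (y * y) := by gcongr <;> omega
        _ = _ := by ring
    omega
  calc _ ≤ 32 * ((s+2) * (D+1) * y^2) := a3
    _ ≤ 32 * ((s+2) * (D+1) * ((s+2)^2 * (b+6))^2) := by gcongr
    _ = (32 * (D+1) * (b+6)^2) * (s+2)^5 := by ring
    _ ≤ 2^b * (2^(s+1))^5 := by gcongr
    _ = 2^(b + 5 * s + 5) := by ring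
    _ ≤ _ := Nat.pow_le_pow_right (by norm_num) (by omega)

theorem hasCode_kappa (D w' w : ℕ) (hw : w' ≤ w) (hw1 : 1 ≤ w) (t : Fin (D*(w'+2)+1) → ℝ) :
    HasCode (fun x => fun q => cell (2*2^w') (t q) x) (2^w) (2^(8 * w * ((D+1) * (w'+2)))) := by
  refine (hasCode_cells (2*2^w') _ (2^w) (by positivity) t).mono ?_
  have a1 : 2^w' ≤ 2^w := Nat.pow_le_pow_right (by norm_num) hw
  have a2 : 2*2^w' * (2*2^w') * (2^w * 2^w) * (2^w * 2^w) ≤ 2^(8*w) := by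
    calc 2*2^w' * (2*2^w') * (2^w * 2^w) * (2^w * 2^w)
        ≤ 2*2^w * (2*2^w) * (2^w * 2^w) * (2^w * 2^w) := by gcongr
      _ = 2^(6*w+2) := by ring
      _ ≤ _ := Nat.pow_le_pow_right (by norm_num) (by omega)
  calc _ ≤ (2^(8*w))^(D*(w'+2)+1) := Nat.pow_le_pow_left a2 _
    _ ≤ (2^(8*w))^((D+1) * (w'+2)) := Nat.pow_le_pow_right (by positivity) (by nlinarith)
    _ = _ := by rw [← pow_mul]

theorem main (K : Set ℕ) (hpos : ∀ d ∈ K, 0 < d) (δ : ℝ) (hδ : 0 < δ)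
    (hl : ∀ a ∈ K, ∀ b ∈ K, a < b → (1 + δ) * (a : ℝ) < (b : ℝ)) :
    ∃ (Y : Type) (_ : Fintype Y) (c : ℤ → Y), ∀ d ∈ K, ∀ (a : ℤ) (n : ℕ), 0 < n →
      ∃ i : ℕ, i < n ∧ c (a + i * d) ≠ c (a + ((n + i : ℕ) : ℤ) * d) := by
  classical
  obtain ⟨D, hD⟩ := pow_unbounded_of_one_lt (2:ℝ) (by linarith : 1 < 1 + δ)
  obtain ⟨b, hb⟩ := exists_b D
  have hwm : ∀ s, ww b s ≤ ww b (s+1) := by
    intro s; unfold ww; rw [ell_succ b (s+1)]; omega
  obtain ⟨f, hf⟩ := dc (α := ℤ → Fin 4)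
    (fun s c => (∀ d ∈ K, ∀ a : ℤ, ∃ j : ℕ, j < 2^(ell b s) ∧ c (a + j*d) = 0) ∧
      ∀ w, ww b s ≤ w → HasCode c (2^w) (2^(8 * w * (s * (D+1) * (ww b s + 2)))))
    (fun s c c' => (∀ x, c x ≠ 0 → c' x = c x) ∧
      ∀ d ∈ K, ∀ (a : ℤ) (n : ℕ), 2^(ell b (s+1)) ≤ n → 2 * n ≤ 2^(ww b (s+1)) → ∃ i : ℕ, i < n ∧
        c' (a + i*d) ≠ 0 ∧ c' (a + ((n + i : ℕ) : ℤ)*d) ≠ 0 ∧
        c' (a + i*d) ≠ c' (a + ((n + i : ℕ) : ℤ)*d))
    ⟨fun _ => 0, fun d _ a => ⟨0, by positivity, rfl⟩, fun w _ =>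
      ⟨Unit, Finset.univ, fun _ _ => (), by simp, by simp, by simp⟩⟩
    (by
      rintro s c ⟨h1, h2⟩
      obtain ⟨t, ht⟩ := exists_kappa K hpos δ hδ hl D hD.le (ww b (s+1))
      have hcode : ∀ w, ww b (s+1) ≤ w → HasCode
          (fun x => (c x, (fun q => cell (2*2^(ww b (s+1))) (t q) x))) (2^w)
          (2^(8 * w * ((s+1) * (D+1) * (ww b (s+1) + 2)))) := by
        intro w hw
        refine ((h2 w ((hwm s).trans hw)).prod (hasCode_kappa D _ w hw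
          (by unfold ww at hw; omega) t)).mono ?_
        rw [← pow_add]
        apply Nat.pow_le_pow_right (by norm_num)
        have := hwm s
        calc _ ≤ 8 * w * (s * (D+1) * (ww b (s+1) + 2)) + 8 * w * ((D+1) * (ww b (s+1) + 2)) := by
              gcongr
          _ = _ := by ring
      have hmL : 2^(b + 10 * s + 5) * 2^(ell b s) = 2^(ell b (s+1)) := by
        rw [← pow_add, ell_succ]
      obtain ⟨Ψ, hΨ1, hΨ2⟩ := level_step K c (fun x => fun q => cell (2*2^(ww b (s+1))) (t q) x)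
        (2^(ww b (s+1))) (2^(ell b s)) (2^(b + 10 * s + 5)) _ h1 ht (hcode _ le_rfl)
        (by
          rw [hmL, ← pow_succ']
          exact Nat.pow_le_pow_right (by norm_num) (hwm s))
        (by
          refine lt_of_le_of_lt ?_ (pow_aux _ _ (numeric D b s hb))
          apply Nat.mul_le_mul_right
          rw [pow_add]
          apply Nat.mul_le_mul_left
          have : 1 ≤ 2^(ww b (s+1)) := Nat.one_le_two_pow
          rw [pow_add]; omega)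
      rw [hmL] at hΨ1 hΨ2
      refine ⟨refine c _ Ψ, ⟨hΨ1, fun w hw => ?_⟩, fun x hx => by simp [refine, hx], hΨ2⟩
      exact (hcode w hw).comp (fun p => if p.1 = 0 then Ψ p.2 else p.1))
  have hstab : ∀ s x, f s x ≠ 0 → ∀ r, f (s + r) x = f s x := by
    intro s x hx r
    induction r with
    | zero => rfl
    | succ r ih => rw [← add_assoc, (hf (s+r)).2.1 x (ih ▸ hx), ih]
  let g : ℤ → Fin 4 := fun x => if h : ∃ s, f s x ≠ 0 then f h.choose x else 0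
  have hg : ∀ s x, f s x ≠ 0 → g x = f s x := by
    intro s x hx
    have h : ∃ s, f s x ≠ 0 := ⟨s, hx⟩
    simp only [g, dif_pos h]
    rw [← hstab _ x h.choose_spec s, ← hstab s x hx h.choose, add_comm]
  obtain ⟨t, ht⟩ := exists_kappa K hpos δ hδ hl D hD.le (ww b 0)
  refine ⟨(Fin (D * (ww b 0 + 2) + 1) → ZMod (2*2^(ww b 0))) × Fin 4, inferInstance,
    fun x => (fun q => cell (2*2^(ww b 0)) (t q) x, g x), ?_⟩
  intro d hd a n hn
  by_cases hsm : n < 2^(ell b 1)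
  · refine ⟨0, hn, fun h => ht d hd a 0 (n+0) (by omega) ?_ (congrArg Prod.fst h)⟩
    unfold ww; rw [pow_succ]; simp only [zero_add]; omega
  · have hex : ∃ s, n < 2^(ell b (s+2)) := by
      refine ⟨n, lt_of_lt_of_le Nat.lt_two_pow_self (Nat.pow_le_pow_right (by norm_num) ?_)⟩
      unfold ell; nlinarith [Nat.zero_le ((n+2)*b)]
    have hs1 := Nat.find_spec hex
    have hs2 : 2^(ell b (Nat.find hex + 1)) ≤ n := by
      rcases Nat.eq_zero_or_pos (Nat.find hex) with h | h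
      · rw [h, zero_add]; omega
      · have := Nat.find_min hex (m := Nat.find hex - 1) (by omega)
        rw [show Nat.find hex - 1 + 2 = Nat.find hex + 1 by omega] at this
        omega
    obtain ⟨i, hi, e1, e2, e3⟩ := (hf (Nat.find hex)).2.2 d hd a n hs2 (by
      unfold ww; rw [pow_succ, show Nat.find hex + 1 + 1 = Nat.find hex + 2 from rfl]; omega)
    refine ⟨i, hi, fun h => e3 ?_⟩
    have := congrArg Prod.snd h
    simp only at this
    rwa [hg _ _ e1, hg _ _ e2] at this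

theorem final :
    ∀ K : Set ℕ, (∀ k ∈ K, 0 < k) →
      (∃ δ : ℝ, 0 < δ ∧ ∀ a ∈ K, ∀ b ∈ K, a < b → (1 + δ) * (a : ℝ) < (b : ℝ)) →
      ∃ N : ℕ, ∃ c : ℤ → Fin N,
        ∀ k ∈ K, ∀ a : ℤ, ∀ n : ℕ, 0 < n →
          ∃ i : ℕ, i < n ∧
            c (a + (i : ℤ) * (k : ℤ)) ≠ c (a + ((n : ℤ) + (i : ℤ)) * (k : ℤ)) := by
  rintro K hpos ⟨δ, hδ, hl⟩
  obtain ⟨Y, _, c, hc⟩ := main K hpos δ hδ hl
  refine ⟨Fintype.card Y, fun x => Fintype.equivFin Y (c x), fun k hk a n hn => ?_⟩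
  obtain ⟨i, hi, h⟩ := hc k hk a n hn
  refine ⟨i, hi, fun h' => h ?_⟩
  have := (Fintype.equivFin Y).injective h'
  simpa using this

end H18Z.Lac
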