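import Mathlib

set_option autoImplicit false

namespace Pool.Agent.H18Z.Nonrep

/-- A symmetric relation `A` with a nonrepetitive colouring `c`, and a map `π` whose fibres are
cliques of `A`. -/
structure Setup {V W K : Type} (A : V → V → Prop) (π : V → W) (c : V → K) : Prop where
  symm : ∀ u v, A u v → A v u
  irr : ∀ u v, A u v → u ≠ v
  fib : ∀ u v, π u = π v → u ≠ v → A u v
  nr : ∀ l1 l2 : List V, l1 ≠ [] → (l1 ++ l2).Nodup → (l1 ++ l2).IsChain A → l1.map c ≠ l2.map c

variable {V W K : Type}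

/-- Adjacency in the contracted graph. -/
def HAdj (A : V → V → Prop) (π : V → W) (w w' : W) : Prop :=
  w ≠ w' ∧ ∃ u v, π u = w ∧ π v = w' ∧ A u v

/-- `q` is the only neighbour of `p` of its colour. -/
def Out (A : V → V → Prop) (c : V → K) (p q : V) : Prop :=
  A p q ∧ ∀ q', A p q' → c q' = c q → q' = q

/-- The set of colours in a fibre. -/
def kap (π : V → W) (c : V → K) (w : W) : Set K := {a | ∃ u, π u = w ∧ c u = a}

/-- The conflict relation of a given type. -/
def R (A : V → V → Prop) (π : V → W) (c : V → K) (τ : K × K × K × K) (i j : W) : Prop :=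
  kap π c i = kap π c j ∧ i ≠ j ∧ ∃ p s t q, π p = i ∧ c p = τ.1 ∧ A p s ∧ c s = τ.2.1 ∧
    π s = π t ∧ c t = τ.2.2.1 ∧ Out A c t q ∧ c q = τ.2.2.2 ∧ π q = j ∧ π s ≠ i ∧ π s ≠ j

/-- First-level colour. -/
def psi (A : V → V → Prop) (π : V → W) (c : V → K) (w : W) : Set K × Set (K × K × K × K) :=
  (kap π c w, {τ | ∃ j, R A π c τ w j})

/-- The type of the final colours. -/
abbrev Col (K : Type) : Type :=
  (Set K × Set (K × K × K × K)) × Set (K × K × (Set K × Set (K × K × K × K)))

/-- The final colour. -/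
def Phi (A : V → V → Prop) (π : V → W) (c : V → K) (w : W) : Col K :=
  (psi A π c w, {γ | ∃ p q, π p = w ∧ c p = γ.1 ∧ Out A c p q ∧ c q = γ.2.1 ∧
    psi A π c (π q) = γ.2.2})

namespace Setup

variable {A : V → V → Prop} {π : V → W} {c : V → K} (h : Setup A π c)
include h

theorem proper {u v : V} (huv : A u v) : c u ≠ c v := by
  intro hc
  refine h.nr [u] [v] (by simp) (by simpa using h.irr u v huv) (by simpa using huv) ?_
  simp [hc]

theorem eq_of_fib {u v : V} (h1 : π u = π v) (h2 : c u = c v) : u = v := by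
  by_contra hne
  exact h.proper (h.fib u v h1 hne) h2

theorem no_abab {p q r s : V} (h1 : A p q) (h2 : A q r) (h3 : A r s) (hpr : p ≠ r) (hqs : q ≠ s)
    (c1 : c p = c r) (c2 : c q = c s) : False := by
  have n1 := h.irr _ _ h1
  have n2 := h.irr _ _ h2
  have n3 := h.irr _ _ h3
  have n4 : p ≠ s := fun hh => h.proper h1 (by rw [c2, hh])
  refine h.nr [p, q] [r, s] (by simp) (by simp [n1, n2, n3, n4, hpr, hqs])
    (by simp [h1, h2, h3]) ?_
  simp [c1, c2]

theorem star {p q : V} (hpq : A p q) : Out A c p q ∨ Out A c q p := by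
  by_contra hc
  rw [not_or] at hc
  obtain ⟨h1, h2⟩ := hc
  simp only [Out, not_and, not_forall] at h1 h2
  obtain ⟨q', a1, a2, a3⟩ := h1 hpq
  obtain ⟨p', b1, b2, b3⟩ := h2 (h.symm _ _ hpq)
  exact h.no_abab (h.symm _ _ a1) hpq b1 a3 (Ne.symm b3) a2 b2.symm

theorem kap_proper {u v : V} (huv : A u v) (hne : π u ≠ π v) :
    kap π c (π u) ≠ kap π c (π v) := by
  intro hk
  have h1 : c v ∈ kap π c (π u) := by rw [hk]; exact ⟨v, rfl, rfl⟩
  have h2 : c u ∈ kap π c (π v) := by rw [← hk]; exact ⟨u, rfl, rfl⟩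
  obtain ⟨v', a1, a2⟩ := h1
  obtain ⟨u', b1, b2⟩ := h2
  have hc := h.proper huv
  have n1 : v' ≠ u := fun hh => hc (by rw [← a2, hh])
  have n2 : v ≠ u' := fun hh => hc (by rw [← b2, hh])
  refine h.no_abab (h.fib v' u a1 n1) huv (h.fib v u' b1.symm n2) ?_ ?_ a2 b2.symm
  · intro hh; exact hne (by rw [← a1, hh])
  · intro hh; exact hne (by rw [← b1, hh])

theorem move {u a v b : V} (h1 : π u = π a) (h2 : π v = π b) (c1 : c u = c v) (c2 : c a = c b) :
    (u = a ∧ v = b) ∨ (A u a ∧ A v b) := by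
  by_cases hua : u = a
  · exact Or.inl ⟨hua, h.eq_of_fib h2 (by rw [← c1, ← c2, hua])⟩
  · refine Or.inr ⟨h.fib u a h1 hua, h.fib v b h2 fun hh => hua ?_⟩
    exact h.eq_of_fib h1 (by rw [c1, c2, hh])

theorem no_two {τ : K × K × K × K} {i j l : W} (h1 : R A π c τ i j) (h2 : R A π c τ j l) :
    False := by
  obtain ⟨k1, ij, p1, s1, t1, q1, a1, a2, a3, a4, a5, a6, a7, a8, a9, a10, a11⟩ := h1
  obtain ⟨k2, jl, p2, s2, t2, q2, b1, b2, b3, b4, b5, b6, b7, b8, b9, b10, b11⟩ := h2
  have ks1 : kap π c (π p1) ≠ kap π c (π s1) := h.kap_proper a3 (by rw [a1]; exact a10.symm)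
  have ks2 : kap π c (π p2) ≠ kap π c (π s2) := h.kap_proper b3 (by rw [b1]; exact b10.symm)
  have n1 : π s1 ≠ l := fun hh => ks1 (by rw [a1, hh, k1, k2])
  have n2 : π s2 ≠ i := fun hh => ks2 (by rw [b1, hh, k1])
  have n3 : π s1 ≠ π s2 := by
    intro hh
    have e : t1 = t2 := h.eq_of_fib (by rw [← a5, ← b5, hh]) (by rw [a6, b6])
    have e2 : q2 = q1 := a7.2 q2 (by rw [e]; exact b7.1) (by rw [a8, b8])
    exact jl (by rw [← a9, ← b9, e2])
  have c1 : c p1 = c p2 := by rw [a2, b2]
  have c2 : c s1 = c s2 := by rw [a4, b4]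
  have c3 : c t1 = c t2 := by rw [a6, b6]
  have c4 : c q1 = c q2 := by rw [a8, b8]
  have at1 := a7.1
  have bt2 := b7.1
  by_cases hqp : q1 = p2
  · rcases h.move a5 b5 c2 c3 with ⟨e1, e2⟩ | ⟨e1, e2⟩
    · subst e1 e2 hqp
      refine h.nr [p1, s1] [q1, s2] (by simp) ?_ (by simp [a3, at1, b3]) (by simp [c1, c2])
      simp only [List.cons_append, List.nil_append, List.nodup_cons, List.mem_cons,
        List.not_mem_nil, or_false, not_or, List.nodup_nil, and_true, not_false_eq_true]
      and_intros <;> grind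
    · subst hqp
      have m1 := h.irr _ _ e1
      have m2 := h.irr _ _ e2
      refine h.nr [p1, s1, t1] [q1, s2, t2] (by simp) ?_ (by simp [a3, at1, b3, e1, e2])
        (by simp [c1, c2, c3])
      simp only [List.cons_append, List.nil_append, List.nodup_cons, List.mem_cons,
        List.not_mem_nil, or_false, not_or, List.nodup_nil, and_true, not_false_eq_true]
      and_intros <;> grind
  · have aqp : A q1 p2 := h.fib q1 p2 (by rw [a9, b1]) hqp
    have n4 : p1 ≠ q2 := fun hh => h.proper aqp (by rw [c4, ← hh, c1])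
    rcases h.move a5 b5 c2 c3 with ⟨e1, e2⟩ | ⟨e1, e2⟩
    · subst e1 e2
      refine h.nr [p1, s1, q1] [p2, s2, q2] (by simp) ?_ (by simp [a3, at1, b3, bt2, aqp])
        (by simp [c1, c2, c4])
      simp only [List.cons_append, List.nil_append, List.nodup_cons, List.mem_cons,
        List.not_mem_nil, or_false, not_or, List.nodup_nil, and_true, not_false_eq_true]
      and_intros <;> grind
    · have m1 := h.irr _ _ e1
      have m2 := h.irr _ _ e2
      refine h.nr [p1, s1, t1, q1] [p2, s2, t2, q2] (by simp) ?_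
        (by simp [a3, at1, b3, bt2, aqp, e1, e2]) (by simp [c1, c2, c3, c4])
      simp only [List.cons_append, List.nil_append, List.nodup_cons, List.mem_cons,
        List.not_mem_nil, or_false, not_or, List.nodup_nil, and_true, not_false_eq_true]
      and_intros <;> grind

theorem match_out {u u' : V} {z z' : W} (ho : Out A c u u')
    (hz : HAdj A π z z') (e1 : Phi A π c (π u) = Phi A π c z)
    (e2 : Phi A π c (π u') = Phi A π c z') :
    ∃ v v', π v = z ∧ π v' = z' ∧ A v v' ∧ c u = c v ∧ c u' = c v' := by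
  have h1 : (c u, c u', psi A π c (π u')) ∈ (Phi A π c (π u)).2 := ⟨u, u', rfl, rfl, ho, rfl, rfl⟩
  rw [e1] at h1
  obtain ⟨p, q, a1, a2, a3, a4, a5⟩ := h1
  have a6 : psi A π c (π q) = psi A π c z' := a5.trans (congrArg Prod.fst e2)
  by_cases hq : π q = z'
  · exact ⟨p, q, a1, hq, a3.1, a2.symm, a4.symm⟩
  · exfalso
    obtain ⟨zz, v, v', b1, b2, b3⟩ := hz
    have kq : kap π c (π q) = kap π c z' := congrArg Prod.fst a6
    have kz : kap π c (π v) ≠ kap π c (π v') := h.kap_proper b3 (by rw [b1, b2]; exact zz)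
    have hR : R A π c (c v', c v, c p, c q) z' (π q) :=
      ⟨kq.symm, fun hh => hq hh.symm, v', v, p, q, b2, rfl, h.symm _ _ b3, rfl,
        by rw [b1, a1], rfl, a3, rfl, rfl, by rw [b1]; exact zz,
        fun hh => kz (by rw [hh, kq, b2])⟩
    have h2 : (c v', c v, c p, c q) ∈ (psi A π c z').2 := ⟨π q, hR⟩
    rw [← a6] at h2
    obtain ⟨l, hl⟩ := h2
    exact h.no_two hR hl

omit h in
theorem hadj_symm (hs : ∀ u v, A u v → A v u) {w w' : W} (hw : HAdj A π w w') : HAdj A π w' w := by
  obtain ⟨a, u, v, b1, b2, b3⟩ := hw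
  exact ⟨a.symm, v, u, b2, b1, hs _ _ b3⟩

theorem matching {w w' z z' : W} (hw : HAdj A π w w') (hz : HAdj A π z z')
    (e1 : Phi A π c w = Phi A π c z) (e2 : Phi A π c w' = Phi A π c z') :
    ∃ u u' v v', π u = w ∧ π u' = w' ∧ A u u' ∧ π v = z ∧ π v' = z' ∧ A v v' ∧
      c u = c v ∧ c u' = c v' := by
  obtain ⟨_, u, u', rfl, rfl, huu⟩ := hw
  rcases h.star huu with ho | ho
  · obtain ⟨v, v', a1, a2, a3, a4, a5⟩ := h.match_out ho hz e1 e2
    exact ⟨u, u', v, v', rfl, rfl, huu, a1, a2, a3, a4, a5⟩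
  · obtain ⟨v', v, a1, a2, a3, a4, a5⟩ := h.match_out ho (hadj_symm h.symm hz) e2 e1
    exact ⟨u, u', v, v', rfl, rfl, huu, a2, a1, h.symm _ _ a3, a5, a4⟩

theorem lift (T1 : List W) : ∀ (T2 : List W) (u v y : V), c u = c v →
    Phi A π c (π u) = Phi A π c (π v) → T1.map (Phi A π c) = T2.map (Phi A π c) →
    (π u :: T1).IsChain (HAdj A π) → (π v :: T2).IsChain (HAdj A π) →
    (π u :: T1).Nodup → (π v :: T2).Nodup → (π u :: T1).getLast? = some (π y) →
    ∃ t1 t2 : List V, (u :: t1).IsChain A ∧ (v :: t2).IsChain A ∧ t1.map c = t2.map c ∧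
      (u :: t1).Nodup ∧ (v :: t2).Nodup ∧ (∀ x ∈ t1, π x ∈ π u :: T1) ∧
      (∀ x ∈ t2, π x ∈ π v :: T2) ∧ (u :: t1).getLast? = some y := by
  induction T1 with
  | nil =>
    intro T2 u v y huv hΦ _ _ _ _ _ hy
    have hy' : π u = π y := by simpa using hy
    have hk : kap π c (π u) = kap π c (π v) := congrArg (fun γ => γ.1.1) hΦ
    have h1 : c y ∈ kap π c (π v) := by rw [← hk]; exact ⟨y, hy'.symm, rfl⟩
    obtain ⟨y', a1, a2⟩ := h1
    rcases h.move hy' a1.symm huv a2.symm with ⟨e1, _⟩ | ⟨e1, e2⟩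
    · exact ⟨[], [], by simp, by simp, rfl, by simp, by simp, by simp, by simp, by simp [e1]⟩
    · exact ⟨[y], [y'], by simp [e1], by simp [e2], by simp [a2],
        by simpa using h.irr _ _ e1, by simpa using h.irr _ _ e2, by simp [hy'], by simp [a1],
        by simp⟩
  | cons w' T1 ih =>
    intro T2 u v y huv hΦ hT c1 c2 n1 n2 hy
    cases T2 with
    | nil => simp at hT
    | cons z' T2 =>
      simp only [List.map_cons, List.cons.injEq] at hT
      rw [List.isChain_cons_cons] at c1 c2
      obtain ⟨a, a', b, b', ea, rfl, aa, eb, rfl, bb, ca, ca'⟩ := h.matching c1.1 c2.1 hΦ hT.1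
      rw [List.nodup_cons] at n1 n2
      obtain ⟨t1, t2, d1, d2, d3, d4, d5, d6, d7, d8⟩ := ih T2 a' b' y ca' hT.1 hT.2 c1.2 c2.2
        n1.2 n2.2 (by simpa using hy)
      have f1 : ∀ x, π x = π u → x ∉ a' :: t1 := by
        intro x hx hm
        rcases List.mem_cons.mp hm with rfl | hm
        · exact n1.1 (by rw [← hx]; exact List.mem_cons_self)
        · exact n1.1 (by rw [← hx]; exact d6 x hm)
      have f2 : ∀ x, π x = π v → x ∉ b' :: t2 := by
        intro x hx hm
        rcases List.mem_cons.mp hm with rfl | hm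
        · exact n2.1 (by rw [← hx]; exact List.mem_cons_self)
        · exact n2.1 (by rw [← hx]; exact d7 x hm)
      have g1 : ∀ x ∈ a' :: t1, π x ∈ π u :: π a' :: T1 := by
        intro x hm
        rcases List.mem_cons.mp hm with rfl | hm
        · simp
        · exact List.mem_cons_of_mem _ (d6 x hm)
      have g2 : ∀ x ∈ b' :: t2, π x ∈ π v :: π b' :: T2 := by
        intro x hm
        rcases List.mem_cons.mp hm with rfl | hm
        · simp
        · exact List.mem_cons_of_mem _ (d7 x hm)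
      rcases h.move ea.symm eb.symm huv ca with ⟨e1, e2⟩ | ⟨e1, e2⟩
      · subst e1 e2
        exact ⟨a' :: t1, b' :: t2, List.isChain_cons_cons.mpr ⟨aa, d1⟩,
          List.isChain_cons_cons.mpr ⟨bb, d2⟩, by simp [ca', d3],
          List.nodup_cons.mpr ⟨f1 u rfl, d4⟩, List.nodup_cons.mpr ⟨f2 v rfl, d5⟩, g1, g2,
          by simpa using d8⟩
      · refine ⟨a :: a' :: t1, b :: b' :: t2,
          List.isChain_cons_cons.mpr ⟨e1, List.isChain_cons_cons.mpr ⟨aa, d1⟩⟩,
          List.isChain_cons_cons.mpr ⟨e2, List.isChain_cons_cons.mpr ⟨bb, d2⟩⟩,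
          by simp [ca, ca', d3], List.nodup_cons.mpr ⟨?_, List.nodup_cons.mpr ⟨f1 a ea, d4⟩⟩,
          List.nodup_cons.mpr ⟨?_, List.nodup_cons.mpr ⟨f2 b eb, d5⟩⟩, ?_, ?_,
          by simpa using d8⟩
        · intro hm
          rcases List.mem_cons.mp hm with hm | hm
          · exact h.irr _ _ e1 hm
          · exact f1 u rfl hm
        · intro hm
          rcases List.mem_cons.mp hm with hm | hm
          · exact h.irr _ _ e2 hm
          · exact f2 v rfl hm
        · intro x hm
          rcases List.mem_cons.mp hm with rfl | hm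
          · simp [ea]
          · exact g1 x hm
        · intro x hm
          rcases List.mem_cons.mp hm with rfl | hm
          · simp [eb]
          · exact g2 x hm

theorem nr_Phi (L1 L2 : List W) (hne : L1 ≠ []) (hn : (L1 ++ L2).Nodup)
    (hc : (L1 ++ L2).IsChain (HAdj A π)) : L1.map (Phi A π c) ≠ L2.map (Phi A π c) := by
  intro he
  cases L1 with
  | nil => exact hne rfl
  | cons w T1 =>
    cases L2 with
    | nil => simp at he
    | cons z T2 =>
      simp only [List.map_cons, List.cons.injEq] at he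
      rw [List.isChain_append] at hc
      obtain ⟨c1, c2, c3⟩ := hc
      obtain ⟨wl, hwl⟩ : ∃ wl, (w :: T1).getLast? = some wl :=
        ⟨_, List.getLast?_eq_some_getLast (List.cons_ne_nil _ _)⟩
      obtain ⟨_, y, v, rfl, rfl, hyv⟩ := c3 wl hwl z (by simp)
      have hk : kap π c w = kap π c (π v) := congrArg (fun γ => γ.1.1) he.1
      have h1 : c v ∈ kap π c w := by rw [hk]; exact ⟨v, rfl, rfl⟩
      obtain ⟨u, rfl, huv⟩ := h1
      rw [List.nodup_append] at hn
      obtain ⟨n1, n2, n3⟩ := hn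
      obtain ⟨t1, t2, d1, d2, d3, d4, d5, d6, d7, d8⟩ :=
        h.lift T1 T2 u v y huv he.1 he.2 c1 c2 n1 n2 hwl
      refine h.nr (u :: t1) (v :: t2) (List.cons_ne_nil _ _) ?_ ?_ (by simp [huv, d3])
      · rw [List.nodup_append]
        refine ⟨d4, d5, fun a ha b hb hab => ?_⟩
        have m1 : π a ∈ π u :: T1 := by
          rcases List.mem_cons.mp ha with rfl | ha
          · simp
          · exact d6 a ha
        have m2 : π b ∈ π v :: T2 := by
          rcases List.mem_cons.mp hb with rfl | hb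
          · simp
          · exact d7 b hb
        exact n3 _ m1 _ m2 (by rw [hab])
      · rw [List.isChain_append]
        refine ⟨d1, d2, fun a ha b hb => ?_⟩
        rw [d8] at ha
        have e1 : y = a := by simpa using ha
        have e2 : v = b := by simpa using hb
        rw [← e1, ← e2]
        exact hyv

end Setup

theorem nr_of_walk {G : SimpleGraph V} {c : V → K}
    (hc : ∀ (u v : V) (p : G.Walk u v), p.IsPath → Even p.support.length →
      (p.support.map c).take (p.support.length / 2) ≠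
        (p.support.map c).drop (p.support.length / 2))
    (l1 l2 : List V) (hne : l1 ≠ []) (hn : (l1 ++ l2).Nodup) (hch : (l1 ++ l2).IsChain G.Adj) :
    l1.map c ≠ l2.map c := by
  intro he
  have hlen : l1.length = l2.length := by simpa using congrArg List.length he
  have hne' : l1 ++ l2 ≠ [] := by simp [hne]
  have hs := SimpleGraph.Walk.support_ofSupport hne' hch
  refine hc _ _ (SimpleGraph.Walk.ofSupport (l1 ++ l2) hne' hch) ?_ ?_ ?_
  · rw [SimpleGraph.Walk.isPath_def, hs]; exact hn
  · rw [hs, List.length_append, ← hlen]; exact ⟨_, rfl⟩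
  · have h2 : (l1 ++ l2).length / 2 = (l1.map c).length := by
      rw [List.length_append, List.length_map]; omega
    rw [hs, h2, List.map_append, List.take_left, List.drop_left, he]

theorem walk_of_nr {G : SimpleGraph W} {c : W → K}
    (hc : ∀ l1 l2 : List W, l1 ≠ [] → (l1 ++ l2).Nodup → (l1 ++ l2).IsChain G.Adj →
      l1.map c ≠ l2.map c)
    (u v : W) (p : G.Walk u v) (hp : p.IsPath) (he : Even p.support.length) :
    (p.support.map c).take (p.support.length / 2) ≠
      (p.support.map c).drop (p.support.length / 2) := by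
  rw [← List.map_take, ← List.map_drop]
  refine hc _ _ ?_ ?_ ?_
  · intro h0
    have h1 := congrArg List.length h0
    have h2 : 0 < p.support.length := List.length_pos_iff.mpr p.support_ne_nil
    obtain ⟨r, hr⟩ := he
    rw [List.length_take, List.length_nil] at h1
    omega
  · rw [List.take_append_drop]; exact (SimpleGraph.Walk.isPath_def p).mp hp
  · rw [List.take_append_drop]; exact p.isChain_adj_support

theorem fib_matching {G : SimpleGraph V} {M : G.Subgraph} (hM : M.IsMatching) (u v : V)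
    (huv : Quot.mk M.Adj u = Quot.mk M.Adj v) : u = v ∨ M.Adj u v := by
  rw [Quot.eq] at huv
  induction huv with
  | rel a b hab => exact Or.inr hab
  | refl a => exact Or.inl rfl
  | symm a b _ ih => exact ih.imp Eq.symm fun hh => hh.symm
  | trans a b d _ _ ih1 ih2 =>
    rcases ih1 with rfl | h1
    · exact ih2
    · rcases ih2 with rfl | h2
      · exact Or.inr h1
      · exact Or.inl ((hM h2.fst_mem).unique h1.symm h2)

theorem main : ∃ f : ℕ → ℕ, ∀ (V : Type) [Fintype V] (G : SimpleGraph V) (M : G.Subgraph),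
      M.IsMatching → ∀ k : ℕ,
        (∃ c : V → Fin k, ∀ (u v : V) (p : G.Walk u v), p.IsPath →
          Even p.support.length →
          (p.support.map c).take (p.support.length / 2) ≠
            (p.support.map c).drop (p.support.length / 2)) →
        ∃ c : Quot M.Adj → Fin (f k),
          ∀ (a b : Quot M.Adj)
            (p : (SimpleGraph.fromRel (fun x y : Quot M.Adj =>
                ∃ u v : V, Quot.mk M.Adj u = x ∧ Quot.mk M.Adj v = y ∧ G.Adj u v)).Walk a b),
            p.IsPath → Even p.support.length →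
            (p.support.map c).take (p.support.length / 2) ≠
              (p.support.map c).drop (p.support.length / 2) := by
  refine ⟨fun k => Nat.card (Col (Fin k)), ?_⟩
  intro V _ G M hM k ⟨c, hc⟩
  have hS : Setup G.Adj (Quot.mk M.Adj) c :=
    ⟨fun _ _ hh => hh.symm, fun _ _ hh => hh.ne,
      fun u v h1 h2 => M.adj_sub ((fib_matching hM u v h1).resolve_left h2), nr_of_walk hc⟩
  let e : Col (Fin k) ≃ Fin (Nat.card (Col (Fin k))) := Finite.equivFin _
  refine ⟨fun w => e (Phi G.Adj (Quot.mk M.Adj) c w), walk_of_nr fun l1 l2 h1 h2 h3 h4 => ?_⟩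
  refine hS.nr_Phi l1 l2 h1 h2 (h3.imp fun x y hxy => ?_) ?_
  · rw [SimpleGraph.fromRel_adj] at hxy
    obtain ⟨hne, hh | hh⟩ := hxy
    · exact ⟨hne, hh⟩
    · obtain ⟨u, v, a1, a2, a3⟩ := hh
      exact ⟨hne, v, u, a2, a1, a3.symm⟩
  · have h5 : (l1.map (Phi G.Adj (Quot.mk M.Adj) c)).map e =
        (l2.map (Phi G.Adj (Quot.mk M.Adj) c)).map e := by
      rw [List.map_map, List.map_map]; exact h4
    exact List.map_injective_iff.mpr e.injective h5

end Pool.Agent.H18Z.Nonrep
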